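import Pool.Agent.Lib.SymNC.RankTwo

/-!
# Labels for isotropic vectors of a symmetric pairing with values in `ZMod (p^k)`
-/

set_option autoImplicit false

open scoped Classical

namespace Pool.Agent.Lib.SymNC

variable {P W : Type*} [AddCommGroup P] [AddCommGroup W]

/-- the number of elements of the range of `π` killed by `p^β` -/
noncomputable def tors (π : P →+ W) (p β : ℕ) : ℕ :=
  Nat.card {w : W // w ∈ π.range ∧ p ^ β • w = 0}

theorem two_smul_zmod {p : ℕ} (hp : p.Prime) (hp2 : p ≠ 2) (k : ℕ) (x : ZMod (p ^ k))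
    (h : (2 : ℤ) • x = 0) : x = 0 := by
  obtain ⟨z, rfl⟩ := ZMod.intCast_surjective x
  rw [zsmul_eq_mul, ← Int.cast_mul, zmod_zero_iff] at h
  rw [zmod_zero_iff]
  apply pow_dvd_cancel hp k _ h
  intro h2
  have h4 : p ∣ 2 := by exact_mod_cast h2
  exact hp2 ((Nat.prime_dvd_prime_iff_eq hp Nat.prime_two).1 h4)

/-- the number of cosets `w + Q J`, `w ∈ J` -/
theorem ncard_coset [Finite W] (J : AddSubgroup W) (Q : ℕ) :
    ((fun w : W => {w' : W | ∃ z ∈ J, w' = w + Q • z}) '' (J : Set W)).ncard
      ≤ Nat.card {w : W // w ∈ J ∧ Q • w = 0} := by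
  let f : J →+ J := nsmulAddMonoidHom Q
  have h1 : Nat.card f.ker = Nat.card {w : W // w ∈ J ∧ Q • w = 0} := by
    refine Nat.card_congr
      { toFun := fun w => ⟨w.1.1, w.1.2, congrArg Subtype.val w.2⟩
        invFun := fun w => ⟨⟨w.1, w.2.1⟩, Subtype.ext w.2.2⟩
        left_inv := fun w => rfl
        right_inv := fun w => rfl }
  rw [← h1, ← card_quot_range f]
  let g : J ⧸ f.range → Set W := fun q => {w' : W | ∃ z ∈ J, w' = (q.out : J).1 + Q • z}
  have h2 : ((fun w : W => {w' : W | ∃ z ∈ J, w' = w + Q • z}) '' (J : Set W)) ⊆ Set.range g := by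
    rintro _ ⟨w, hw, rfl⟩
    refine ⟨((⟨w, hw⟩ : J) : J ⧸ f.range), ?_⟩
    have h3 : ∃ z ∈ J, ((((⟨w, hw⟩ : J) : J ⧸ f.range).out : J) : W) = w + Q • z := by
      have h4 : (((((⟨w, hw⟩ : J) : J ⧸ f.range).out : J) : J) : J ⧸ f.range)
          = ((⟨w, hw⟩ : J) : J ⧸ f.range) := by
        simp
      obtain ⟨z, hz⟩ := (QuotientAddGroup.eq).1 h4.symm
      refine ⟨z.1, z.2, ?_⟩
      have h5 : Q • z.1 = -w + ((((⟨w, hw⟩ : J) : J ⧸ f.range).out : J) : W) := by
        have := congrArg Subtype.val hz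
        exact this
      rw [h5]; abel
    obtain ⟨z0, hz0, h3⟩ := h3
    ext w'
    constructor
    · rintro ⟨z, hz, h⟩
      refine ⟨z0 + z, J.add_mem hz0 hz, ?_⟩
      rw [h, h3, smul_add, add_assoc]
    · rintro ⟨z, hz, h⟩
      refine ⟨z - z0, J.sub_mem hz hz0, ?_⟩
      rw [h, h3, smul_sub]; abel
  calc ((fun w : W => {w' : W | ∃ z ∈ J, w' = w + Q • z}) '' (J : Set W)).ncard
      ≤ (Set.range g).ncard := Set.ncard_le_ncard h2 (Set.finite_range g)
    _ = Nat.card (Set.range g) := (Nat.card_coe_set_eq _).symm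
    _ ≤ Nat.card (J ⧸ f.range) := Finite.card_range_le _

/-- **Labels.** -/
theorem labels_abs [Finite W] {p : ℕ} (hp : p.Prime) (k : ℕ) (π : P →+ W)
    (ev : W →+ P →+ ZMod (p ^ k)) (hsym : ∀ u v, ev (π u) v = ev (π v) u)
    (hinj : ∀ w, (∀ v, ev w v = 0) → w = 0) :
    ∃ (s : ℕ) (lab : W → ℕ), s ≤ k ∧
      (∀ u v, ev (π u) u = 0 → ev (π v) v = 0 → lab (π u) = lab (π v) → ev (π u) v = 0) ∧
      (∀ β : ℕ, ((fun u => lab (π u)) '' {u | ev (π u) u = 0 ∧ p ^ β • π u = 0}).ncard
        ≤ 4 * (k + 2) * tors π p (min β s)) ∧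
      (∀ β < s, p ^ 3 * tors π p β ≤ tors π p (β + 1)) ∧
      (s = 0 → p ≠ 2 → ∃ e ≤ k, (∀ w, lab w ≤ e) ∧ p ^ (2 * e) ≤ tors π p e) := by
  have hW : ∀ w : W, p ^ k • w = 0 := by
    intro w
    apply hinj
    intro v
    simp
  -- `R a = |(p^a I)[p]|`
  let R : ℕ → ℕ := fun a => Nat.card {w : W // (∃ z ∈ π.range, w = p ^ a • z) ∧ p • w = 0}
  have hC : ∀ a, tors π p (a + 1) = tors π p a * R a := fun a => card_tors_succ π.range p a
  have hRk : R k ≤ p ^ 2 := by
    have h1 : R k ≤ 1 := by
      refine Finite.card_le_one_iff_subsingleton.2 ⟨?_⟩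
      rintro ⟨w, ⟨z, -, hz⟩, -⟩ ⟨w', ⟨z', -, hz'⟩, -⟩
      apply Subtype.ext
      change w = w'
      rw [hz, hz', hW, hW]
    exact h1.trans (Nat.one_le_pow _ _ hp.pos)
  have hex : ∃ a, R a ≤ p ^ 2 := ⟨k, hRk⟩
  set s := Nat.find hex with hs
  have hs1 : R s ≤ p ^ 2 := Nat.find_spec hex
  have hsk : s ≤ k := Nat.find_min' hex hRk
  have hs2 : ∀ a < s, p ^ 3 ≤ R a := by
    intro a ha
    have h1 : ¬ R a ≤ p ^ 2 := Nat.find_min hex ha
    push Not at h1
    let K : AddSubgroup W :=
      { carrier := {w | (∃ z ∈ π.range, w = p ^ a • z) ∧ p • w = 0}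
        add_mem' := by
          rintro x y ⟨⟨z, hz, rfl⟩, hx⟩ ⟨⟨z', hz', rfl⟩, hy⟩
          exact ⟨⟨z + z', π.range.add_mem hz hz', by rw [smul_add]⟩, by rw [smul_add, hx, hy, add_zero]⟩
        zero_mem' := ⟨⟨0, π.range.zero_mem, by simp⟩, by simp⟩
        neg_mem' := by
          rintro x ⟨⟨z, hz, rfl⟩, hx⟩
          exact ⟨⟨-z, π.range.neg_mem hz, by rw [smul_neg]⟩, by rw [smul_neg, hx, neg_zero]⟩ }
    obtain ⟨n, hn⟩ := card_pow (W := K) hp k (fun w => Subtype.ext (by simpa using hW w.1))
    have h2 : R a = p ^ n := by rw [← hn]; rfl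
    rw [h2] at h1 ⊢
    exact pow_gap hp h1
  have hc : ∀ β < s, p ^ 3 * tors π p β ≤ tors π p (β + 1) := by
    intro β hβ
    rw [hC, mul_comm]
    exact Nat.mul_le_mul_left _ (hs2 β hβ)
  -- the form `q b`
  set q := p ^ s with hq
  let πq : P →+ W := (nsmulAddMonoidHom q).comp π
  have hπq : ∀ u, πq u = q • π u := fun u => rfl
  have hsymq : ∀ u v, ev (πq u) v = ev (πq v) u := by
    intro u v
    simp only [hπq, map_nsmul, AddMonoidHom.coe_smul, Pi.smul_apply]
    rw [hsym]
  obtain ⟨x, y, hgen⟩ : ∃ x y : P, ∀ u, ∃ α β : ℤ, πq u = α • πq x + β • πq y := by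
    have h1 : Nat.card {g : πq.range // p • g = 0} ≤ p ^ 2 := by
      have h2 : Nat.card {g : πq.range // p • g = 0} = R s := by
        refine Nat.card_congr
          { toFun := fun w => ⟨w.1.1, ?_, congrArg Subtype.val w.2⟩
            invFun := fun w => ⟨⟨w.1, ?_⟩, Subtype.ext w.2.2⟩
            left_inv := fun w => rfl
            right_inv := fun w => rfl }
        · obtain ⟨u, hu⟩ := w.1.2
          exact ⟨π u, ⟨u, rfl⟩, by rw [← hu]; rfl⟩
        · obtain ⟨⟨z, ⟨u, rfl⟩, hz⟩, -⟩ := w.2
          exact ⟨u, hz.symm⟩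
      rw [h2]; exact hs1
    obtain ⟨x', y', h⟩ := gen_two (G := πq.range) hp k
      (fun w => Subtype.ext (by simpa using hW w.1)) h1
    obtain ⟨x, hx⟩ := x'.2
    obtain ⟨y, hy⟩ := y'.2
    refine ⟨x, y, fun u => ?_⟩
    obtain ⟨α, β, h3⟩ := h ⟨πq u, u, rfl⟩
    refine ⟨α, β, ?_⟩
    have h4 := congrArg Subtype.val h3
    rw [hx, hy]
    simpa using h4
  obtain ⟨e, lab0, hek, hlab0, H0, hsharp⟩ :=
    rank_two hp k πq ev hsymq hinj x y hgen
  by_cases hcase : s = 0 ∧ p ≠ 2
  · -- sharp case
    obtain ⟨hs0, hp2⟩ := hcase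
    have hq1 : q = 1 := by rw [hq, hs0, pow_zero]
    have hπ : πq = π := by
      ext u
      rw [hπq, hq1, one_smul]
    rw [hπ] at H0 hsharp
    refine ⟨s, lab0, hsk, ?_, ?_, hc, fun _ _ => ⟨e, hek, hlab0, hsharp⟩⟩
    · intro u v hu hv h
      exact two_smul_zmod hp hp2 k _ (H0 u v hu hv h)
    · intro β
      have h1 : ((fun u => lab0 (π u)) '' {u | ev (π u) u = 0 ∧ p ^ β • π u = 0})
          ⊆ ((Finset.range (e + 1) : Finset ℕ) : Set ℕ) := by
        rintro _ ⟨u, -, rfl⟩
        simp only [Finset.coe_range, Set.mem_Iio]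
        have := hlab0 (π u)
        omega
      have h2 := Set.ncard_le_ncard h1 (Finset.finite_toSet _)
      rw [Set.ncard_coe_finset, Finset.card_range] at h2
      have h3 : 1 ≤ tors π p (min β s) := by
        unfold tors
        have : Nonempty {w : W // w ∈ π.range ∧ p ^ (min β s) • w = 0} :=
          ⟨⟨0, π.range.zero_mem, smul_zero _⟩⟩
        exact Nat.card_pos
      calc _ ≤ e + 1 := h2
        _ ≤ 4 * (k + 2) * 1 := by omega
        _ ≤ _ := Nat.mul_le_mul_left _ h3
  · -- general case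
    set Q : ℕ := if p = 2 then 2 * q else q with hQ
    let U : ℕ → Set P := fun j => {u | ev (π u) u = 0 ∧ lab0 (πq u) = j}
    let J : ℕ → AddSubgroup W := fun j => AddSubgroup.closure (π '' U j)
    have hJle : ∀ j, J j ≤ π.range := by
      intro j
      refine (AddSubgroup.closure_le _).2 ?_
      rintro _ ⟨u, -, rfl⟩
      exact ⟨u, rfl⟩
    have hQJ : ∀ j, ∀ z ∈ J j, ∀ u ∈ U j, Q • ev z u = 0 := by
      intro j z hz u hu
      induction hz using AddSubgroup.closure_induction with
      | mem w hw =>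
        obtain ⟨u', hu', rfl⟩ := hw
        have i1 : ev (πq u') u' = 0 := by
          rw [hπq, map_nsmul, AddMonoidHom.coe_smul, Pi.smul_apply, hu'.1, smul_zero]
        have i2 : ev (πq u) u = 0 := by
          rw [hπq, map_nsmul, AddMonoidHom.coe_smul, Pi.smul_apply, hu.1, smul_zero]
        have i3 := H0 u' u i1 i2 (by rw [hu'.2, hu.2])
        have i4 : ev (πq u') u = q • ev (π u') u := by
          rw [hπq, map_nsmul, AddMonoidHom.coe_smul, Pi.smul_apply]
        rw [i4] at i3
        by_cases hp2 : p = 2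
        · rw [hQ, if_pos hp2, mul_smul]
          have : (2 : ℕ) • q • ev (π u') u = (2 : ℤ) • q • ev (π u') u := by
            rw [← natCast_zsmul]; rfl
          rw [this]; exact i3
        · rw [hQ, if_neg hp2]
          exact two_smul_zmod hp hp2 k _ i3
      | zero => simp
      | add w w' _ _ h1 h2 => rw [map_add, AddMonoidHom.add_apply, smul_add, h1, h2, add_zero]
      | neg w _ h1 => rw [map_neg, AddMonoidHom.neg_apply, smul_neg, h1, neg_zero]
    let lab1 : W → ℕ × Set W := fun w =>
      if q • w = 0 then (0, {w})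
      else (lab0 (q • w) + 1, {w' : W | ∃ z ∈ J (lab0 (q • w)), w' = w + Q • z})
    have hlab1a : ∀ w, q • w = 0 → lab1 w = (0, {w}) := fun w h => if_pos h
    have hlab1b : ∀ w, q • w ≠ 0 →
        lab1 w = (lab0 (q • w) + 1, {w' : W | ∃ z ∈ J (lab0 (q • w)), w' = w + Q • z}) :=
      fun w h => if_neg h
    obtain ⟨enc, henc⟩ := Countable.exists_injective_nat (ℕ × Set W)
    have hnot : s = 0 → p ≠ 2 → ∃ e ≤ k, (∀ w, enc (lab1 w) ≤ e) ∧ p ^ (2 * e) ≤ tors π p e :=
      fun h1 h2 => absurd ⟨h1, h2⟩ hcase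
    refine ⟨s, fun w => enc (lab1 w), hsk, ?_, ?_, hc, hnot⟩
    · intro u v hu hv h
      have h1 := henc h
      by_cases hqu : q • π u = 0
      · by_cases hqv : q • π v = 0
        · rw [hlab1a _ hqu, hlab1a _ hqv] at h1
          have h2 : π u = π v := by
            have := (Prod.ext_iff.1 h1).2
            simpa using this
          rw [h2]; exact hv
        · exfalso
          rw [hlab1a _ hqu, hlab1b _ hqv] at h1
          have := (Prod.ext_iff.1 h1).1
          simp at this
      · by_cases hqv : q • π v = 0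
        · exfalso
          rw [hlab1b _ hqu, hlab1a _ hqv] at h1
          have := (Prod.ext_iff.1 h1).1
          simp at this
        · rw [hlab1b _ hqu, hlab1b _ hqv] at h1
          have h2 : lab0 (q • π u) = lab0 (q • π v) := by
            have := (Prod.ext_iff.1 h1).1
            simpa using this
          have h3 := (Prod.ext_iff.1 h1).2
          simp only at h3
          have h4 : π v ∈ {w' : W | ∃ z ∈ J (lab0 (q • π v)), w' = π v + Q • z} :=
            ⟨0, (J _).zero_mem, by simp⟩
          rw [← h3] at h4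
          obtain ⟨z, hz, h5⟩ := h4
          rw [hsym, h5, map_add, AddMonoidHom.add_apply, hu, zero_add, map_nsmul,
            AddMonoidHom.coe_smul, Pi.smul_apply]
          exact hQJ _ z hz u ⟨hu, rfl⟩
    · intro β
      have hpos : 1 ≤ 4 * (k + 2) := by omega
      -- labels of the vectors killed by `q`
      have part1 : ∀ γ, ((fun w : W => enc (0, {w})) '' {w | w ∈ π.range ∧ p ^ γ • w = 0}).ncard
          ≤ tors π p γ := by
        intro γ
        refine (Set.ncard_image_le (Set.toFinite _)).trans ?_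
        rw [← Nat.card_coe_set_eq]
        exact le_refl _
      by_cases hβ : β ≤ s
      · have h1 : ((fun u => enc (lab1 (π u))) '' {u | ev (π u) u = 0 ∧ p ^ β • π u = 0})
            ⊆ ((fun w : W => enc (0, {w})) '' {w | w ∈ π.range ∧ p ^ β • w = 0}) := by
          rintro _ ⟨u, ⟨-, hu⟩, rfl⟩
          refine ⟨π u, ⟨⟨u, rfl⟩, hu⟩, ?_⟩
          have h2 : q • π u = 0 := by
            have : q = p ^ (s - β) * p ^ β := by rw [hq, ← pow_add]; congr 1; omega
            rw [this, mul_smul, hu, smul_zero]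
          change enc (0, {π u}) = enc (lab1 (π u))
          rw [hlab1a _ h2]
        rw [min_eq_left hβ]
        calc _ ≤ _ := Set.ncard_le_ncard h1 (Set.toFinite _)
          _ ≤ tors π p β := part1 β
          _ ≤ 4 * (k + 2) * tors π p β := Nat.le_mul_of_pos_left _ hpos
      · push Not at hβ
        rw [min_eq_right hβ.le]
        -- torsion killed by `Q`
        have hQtors : Nat.card {w : W // w ∈ π.range ∧ Q • w = 0} ≤ 4 * tors π p s := by
          by_cases hp2 : p = 2
          · have h1 : Q = p ^ (s + 1) := by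
              rw [hQ, if_pos hp2, hq, pow_succ', hp2]
            rw [h1]
            change tors π p (s + 1) ≤ _
            rw [hC, mul_comm]
            refine Nat.mul_le_mul_right _ ?_
            calc R s ≤ p ^ 2 := hs1
              _ = 4 := by rw [hp2]; norm_num
          · have h1 : Q = p ^ s := by rw [hQ, if_neg hp2]
            rw [h1]
            change tors π p s ≤ _
            omega
        have part2 : ∀ j, ((fun w : W => enc (j + 1, {w' : W | ∃ z ∈ J j, w' = w + Q • z})) ''
            (J j : Set W)).ncard ≤ 4 * tors π p s := by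
          intro j
          have h1 : ((fun w : W => enc (j + 1, {w' : W | ∃ z ∈ J j, w' = w + Q • z})) ''
              (J j : Set W)) = (fun S : Set W => enc (j + 1, S)) ''
                ((fun w : W => {w' : W | ∃ z ∈ J j, w' = w + Q • z}) '' (J j : Set W)) := by
            rw [Set.image_image]
          rw [h1]
          calc _ ≤ _ := Set.ncard_image_le (Set.toFinite _)
            _ ≤ _ := ncard_coset (J j) Q
            _ ≤ Nat.card {w : W // w ∈ π.range ∧ Q • w = 0} := by
                refine Nat.card_le_card_of_injective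
                  (fun w => ⟨w.1, hJle j w.2.1, w.2.2⟩) ?_
                rintro ⟨a, ha⟩ ⟨b, hb⟩ h
                simp only [Subtype.mk.injEq] at h
                exact Subtype.ext h
            _ ≤ _ := hQtors
        have hsub : ((fun u => enc (lab1 (π u))) '' {u | ev (π u) u = 0 ∧ p ^ β • π u = 0})
            ⊆ ((fun w : W => enc (0, {w})) '' {w | w ∈ π.range ∧ p ^ s • w = 0})
              ∪ ⋃ j ∈ Finset.range (e + 1),
                ((fun w : W => enc (j + 1, {w' : W | ∃ z ∈ J j, w' = w + Q • z})) ''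
                  (J j : Set W)) := by
          rintro _ ⟨u, ⟨hu, -⟩, rfl⟩
          by_cases hqu : q • π u = 0
          · left
            refine ⟨π u, ⟨⟨u, rfl⟩, hqu⟩, ?_⟩
            change enc (0, {π u}) = enc (lab1 (π u))
            rw [hlab1a _ hqu]
          · right
            rw [Set.mem_iUnion₂]
            refine ⟨lab0 (q • π u), Finset.mem_range.2 (by have := hlab0 (q • π u); omega),
              π u, ?_, ?_⟩
            · exact AddSubgroup.subset_closure ⟨u, ⟨hu, rfl⟩, rfl⟩
            · change _ = enc (lab1 (π u))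
              rw [hlab1b _ hqu]
        have hunion : (⋃ j ∈ Finset.range (e + 1),
            ((fun w : W => enc (j + 1, {w' : W | ∃ z ∈ J j, w' = w + Q • z})) ''
              (J j : Set W))).ncard ≤ (e + 1) * (4 * tors π p s) := by
          have := Finset.set_ncard_biUnion_le (Finset.range (e + 1)) (fun j =>
            ((fun w : W => enc (j + 1, {w' : W | ∃ z ∈ J j, w' = w + Q • z})) '' (J j : Set W)))
          refine this.trans ?_
          calc _ ≤ ∑ _j ∈ Finset.range (e + 1), 4 * tors π p s :=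
                Finset.sum_le_sum (fun j _ => part2 j)
            _ = _ := by simp
        have hfin1 : (((fun w : W => enc (0, {w})) '' {w | w ∈ π.range ∧ p ^ s • w = 0})
              ∪ ⋃ j ∈ Finset.range (e + 1),
                ((fun w : W => enc (j + 1, {w' : W | ∃ z ∈ J j, w' = w + Q • z})) ''
                  (J j : Set W))).Finite := by
          refine Set.Finite.union (Set.toFinite _) ?_
          exact Set.Finite.biUnion (Finset.finite_toSet _) (fun j _ => Set.toFinite _)
        calc _ ≤ _ := Set.ncard_le_ncard hsub hfin1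
          _ ≤ _ := Set.ncard_union_le _ _
          _ ≤ tors π p s + (e + 1) * (4 * tors π p s) := Nat.add_le_add (part1 s) hunion
          _ = (4 * e + 5) * tors π p s := by ring
          _ ≤ 4 * (k + 2) * tors π p s := Nat.mul_le_mul_right _ (by omega)

end Pool.Agent.Lib.SymNC
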