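import Pool.Agent.Lib.SymNC.Core

/-!
# Labels for isotropic vectors of a binary form modulo a prime power

For `V = a α α' + t (α β' + α' β) + c β β'` modulo `p^K`, primitive, the isotropic vectors get at most
`e + 1` labels; equal labels force `2 V = 0`; and the form has `p^(2e)` vectors killed by `p^e`.
-/

set_option autoImplicit false

open scoped Classical

namespace Pool.Agent.Lib.SymNC

/-- diagonal form `x x' - p^j d y y'` modulo `p^K`, odd `p` -/
theorem diag_odd {p : ℕ} (hp : p.Prime) (hp2 : p ≠ 2) {d : ℤ} (hd : ¬ (p : ℤ) ∣ d) (K i : ℕ)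
    (hi : 2 * i ≤ K) :
    ∃ lab : ℤ → ℤ → ℕ, (∀ x y, lab x y ≤ K - 2 * i) ∧
      ∀ x y x' y' : ℤ, (p : ℤ) ^ K ∣ x ^ 2 - (p : ℤ) ^ (2 * i) * d * y ^ 2 →
        (p : ℤ) ^ K ∣ x' ^ 2 - (p : ℤ) ^ (2 * i) * d * y' ^ 2 → lab x y = lab x' y' →
        (p : ℤ) ^ K ∣ x * x' - (p : ℤ) ^ (2 * i) * d * (y * y') := by
  have hΔ : ¬ (p : ℤ) ∣ (0 : ℤ) ^ 2 - 4 * 1 * (-d) := by
    intro h
    have h1 : (0 : ℤ) ^ 2 - 4 * 1 * (-d) = 2 ^ 2 * d := by ring
    rw [h1] at h
    rcases (int_prime hp).dvd_or_dvd h with h2 | h2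
    · have h3 := (int_prime hp).dvd_of_dvd_pow h2
      have h4 : p ∣ 2 := by exact_mod_cast h3
      exact hp2 ((Nat.prime_dvd_prime_iff_eq hp Nat.prime_two).1 h4)
    · exact hd h2
  obtain ⟨lab, hlab, H⟩ := split_label hp (K - 2 * i) 1 0 (-d) hΔ
  have hpi : (p : ℤ) ^ i ≠ 0 := pow_ne_zero _ (int_prime hp).ne_zero
  refine ⟨fun x y => lab (x / (p : ℤ) ^ i) y, fun x y => hlab _ _, ?_⟩
  intro x y x' y' h1 h2 h3
  obtain ⟨u, rfl⟩ := even_dvd K i hi h1
  obtain ⟨u', rfl⟩ := even_dvd K i hi h2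
  simp only [Int.mul_ediv_cancel_left _ hpi] at h3
  have key : ∀ u y : ℤ, (p : ℤ) ^ K ∣ ((p : ℤ) ^ i * u) ^ 2 - (p : ℤ) ^ (2 * i) * d * y ^ 2 →
      (p : ℤ) ^ (K - 2 * i) ∣ 1 * u ^ 2 + 0 * (u * y) + (-d) * y ^ 2 := by
    intro u y h
    apply pow_dvd_of_mul hp _ (2 * i)
    have h4 : K - 2 * i + 2 * i = K := by omega
    rw [h4]
    have h5 : (p : ℤ) ^ (2 * i) * (1 * u ^ 2 + 0 * (u * y) + (-d) * y ^ 2)
        = ((p : ℤ) ^ i * u) ^ 2 - (p : ℤ) ^ (2 * i) * d * y ^ 2 := by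
      rw [mul_comm 2 i, pow_mul]; ring
    rw [h5]
    exact h
  have h6 := H u y u' y' (key u y h1) (key u' y' h2) h3
  have h7 : 2 * 1 * (u * u') + 0 * (u * y' + u' * y) + 2 * (-d) * (y * y')
      = 2 * (u * u' - d * (y * y')) := by ring
  rw [h7] at h6
  have h8 : ¬ (p : ℤ) ∣ 2 := by
    intro h
    have h4 : p ∣ 2 := by exact_mod_cast h
    exact hp2 ((Nat.prime_dvd_prime_iff_eq hp Nat.prime_two).1 h4)
  have h9 := pow_dvd_cancel hp _ h8 h6
  have h10 : (p : ℤ) ^ K = (p : ℤ) ^ (2 * i) * (p : ℤ) ^ (K - 2 * i) := by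
    rw [← pow_add]; congr 1; omega
  rw [h10]
  have h11 : (p : ℤ) ^ i * u * ((p : ℤ) ^ i * u') - (p : ℤ) ^ (2 * i) * d * (y * y')
      = (p : ℤ) ^ (2 * i) * (u * u' - d * (y * y')) := by
    rw [mul_comm 2 i, pow_mul]; ring
  rw [h11]
  exact mul_dvd_mul_left _ h9

/-- diagonal form `x x' - d y y'` modulo `2^E` -/
theorem diag_two_unit {d : ℤ} (hd : ¬ (2 : ℤ) ∣ d) (E : ℕ) :
    ∃ lab : ℤ → ℤ → ℕ, (∀ x y, lab x y ≤ E) ∧
      ∀ x y x' y' : ℤ, (2 : ℤ) ^ E ∣ x ^ 2 - d * y ^ 2 →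
        (2 : ℤ) ^ E ∣ x' ^ 2 - d * y' ^ 2 → lab x y = lab x' y' →
        (2 : ℤ) ^ E ∣ 2 * (x * x' - d * (y * y')) := by
  by_cases hE : E ≤ 1
  · refine ⟨fun _ _ => 0, fun _ _ => Nat.zero_le _, ?_⟩
    intro x y x' y' _ _ _
    have h1 : (2 : ℤ) ^ E ∣ 2 := by
      calc (2 : ℤ) ^ E ∣ 2 ^ 1 := pow_dvd_pow _ hE
        _ = 2 := by norm_num
    exact h1.mul_right _
  · push Not at hE
    have hpar : ∀ x y : ℤ, (2 : ℤ) ^ E ∣ x ^ 2 - d * y ^ 2 → (2 : ℤ) ∣ x - y := by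
      intro x y h
      have h1 : (2 : ℤ) ∣ x ^ 2 - d * y ^ 2 := (dvd_pow_self _ (by omega)).trans h
      have h2 : d % 2 = 1 := by omega
      rcases Int.emod_two_eq_zero_or_one x with hx | hx <;>
        rcases Int.emod_two_eq_zero_or_one y with hy | hy
      · omega
      · exfalso
        obtain ⟨a, ha⟩ : (2 : ℤ) ∣ x := by omega
        obtain ⟨b, hb⟩ : (2 : ℤ) ∣ y - 1 := by omega
        obtain ⟨c, hc⟩ : (2 : ℤ) ∣ d - 1 := by omega
        obtain ⟨z, hz⟩ := h1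
        have hx' : x = 2 * a := ha
        have hy' : y = 2 * b + 1 := by linarith
        have hd' : d = 2 * c + 1 := by linarith
        rw [hx', hy', hd'] at hz
        have : (1 : ℤ) = 2 * (2 * a ^ 2 - c * (2 * b + 1) ^ 2 - 2 * b ^ 2 - 2 * b - z) := by
          linear_combination (-1 : ℤ) * hz
        omega
      · exfalso
        obtain ⟨a, ha⟩ : (2 : ℤ) ∣ x - 1 := by omega
        obtain ⟨b, hb⟩ : (2 : ℤ) ∣ y := by omega
        obtain ⟨z, hz⟩ := h1
        have hx' : x = 2 * a + 1 := by linarith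
        have hy' : y = 2 * b := hb
        rw [hx', hy'] at hz
        have : (1 : ℤ) = 2 * (z + 2 * d * b ^ 2 - 2 * a ^ 2 - 2 * a) := by
          linear_combination hz
        omega
      · omega
    by_cases h4 : (4 : ℤ) ∣ 1 - d
    · obtain ⟨δ, hδ⟩ := h4
      have hdd : d = 1 - 4 * δ := by linarith
      have hΔ : ¬ ((2 : ℕ) : ℤ) ∣ (1 : ℤ) ^ 2 - 4 * δ * 1 := by
        intro h
        push_cast at h
        omega
      obtain ⟨lab, hlab, H⟩ := split_label Nat.prime_two (E - 2) δ 1 1 hΔ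
      refine ⟨fun x y => lab y ((x - y) / 2), fun x y => (hlab _ _).trans (by omega), ?_⟩
      intro x y x' y' h1 h2 h3
      obtain ⟨g, hg⟩ := hpar x y h1
      obtain ⟨g', hg'⟩ := hpar x' y' h2
      have hx : x = y + 2 * g := by linarith
      have hx' : x' = y' + 2 * g' := by linarith
      subst hx hx'
      have key : ∀ y g : ℤ, (2 : ℤ) ^ E ∣ (y + 2 * g) ^ 2 - d * y ^ 2 →
          ((2 : ℕ) : ℤ) ^ (E - 2) ∣ δ * y ^ 2 + 1 * (y * g) + 1 * g ^ 2 := by
        intro y g h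
        apply pow_dvd_of_mul Nat.prime_two (E - 2) 2
        have h5 : E - 2 + 2 = E := by omega
        rw [h5]
        have h6 : ((2 : ℕ) : ℤ) ^ 2 * (δ * y ^ 2 + 1 * (y * g) + 1 * g ^ 2)
            = (y + 2 * g) ^ 2 - d * y ^ 2 := by rw [hdd]; push_cast; ring
        rw [h6]
        exact_mod_cast h
      have h6 : (y + 2 * g - y) / 2 = g := by omega
      have h7 : (y' + 2 * g' - y') / 2 = g' := by omega
      simp only [h6, h7] at h3
      have h8 := H y g y' g' (key y g h1) (key y' g' h2) h3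
      have h9 : (2 : ℤ) ^ E = 2 ^ 2 * 2 ^ (E - 2) := by
        rw [← pow_add]; congr 1; omega
      rw [h9]
      have h10 : 2 * ((y + 2 * g) * (y' + 2 * g') - d * (y * y'))
          = 2 ^ 2 * (2 * δ * (y * y') + 1 * (y * g' + y' * g) + 2 * 1 * (g * g')) := by
        rw [hdd]; ring
      rw [h10]
      push_cast at h8
      exact mul_dvd_mul_left _ h8
    · refine ⟨fun _ _ => 0, fun _ _ => Nat.zero_le _, ?_⟩
      have hdesc : ∀ α β : ℤ, ((2 : ℕ) : ℤ) ^ 2 ∣ 1 * α ^ 2 + 0 * (α * β) + (-d) * β ^ 2 →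
          ((2 : ℕ) : ℤ) ∣ α ∧ ((2 : ℕ) : ℤ) ∣ β := by
        intro α β h
        push_cast at h ⊢
        have h5 : (2 : ℤ) ^ 2 ∣ α ^ 2 - d * β ^ 2 := by
          have : α ^ 2 - d * β ^ 2 = 1 * α ^ 2 + 0 * (α * β) + (-d) * β ^ 2 := by ring
          rw [this]; exact h
        have h6 : (2 : ℤ) ∣ α ^ 2 - d * β ^ 2 := (dvd_pow_self _ (by norm_num)).trans h5
        have hmod : d % 4 = 3 := by omega
        obtain ⟨z, hz⟩ := h5
        obtain ⟨w, hw⟩ : ∃ w, d = 4 * w + 3 := ⟨d / 4, by omega⟩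
        rcases Int.emod_two_eq_zero_or_one β with hb | hb
        · refine ⟨?_, by omega⟩
          obtain ⟨b, hb'⟩ : ∃ b, β = 2 * b := ⟨β / 2, by omega⟩
          have h7 : (2 : ℤ) ∣ α ^ 2 := by
            have : α ^ 2 = (α ^ 2 - d * β ^ 2) + 2 * (2 * d * b ^ 2) := by rw [hb']; ring
            rw [this]
            exact dvd_add h6 (dvd_mul_right _ _)
          exact Int.prime_two.dvd_of_dvd_pow h7
        · exfalso
          obtain ⟨b, hb'⟩ : ∃ b, β = 2 * b + 1 := ⟨β / 2, by omega⟩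
          rcases Int.emod_two_eq_zero_or_one α with ha | ha
          · obtain ⟨a, ha'⟩ : ∃ a, α = 2 * a := ⟨α / 2, by omega⟩
            rw [ha', hb', hw] at hz
            have : (1 : ℤ) = 4 * (a ^ 2 - w * (2 * b + 1) ^ 2 - 3 * b ^ 2 - 3 * b - z) - 2 := by
              linear_combination (-1 : ℤ) * hz
            omega
          · obtain ⟨a, ha'⟩ : ∃ a, α = 2 * a + 1 := ⟨α / 2, by omega⟩
            rw [ha', hb', hw] at hz
            have : (2 : ℤ) = 4 * (a ^ 2 + a - w * (2 * b + 1) ^ 2 - 3 * b ^ 2 - 3 * b - z) := by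
              linear_combination (-1 : ℤ) * hz
            omega
      intro x y x' y' h1 h2 _
      have e1 : x ^ 2 - d * y ^ 2 = 1 * x ^ 2 + 0 * (x * y) + (-d) * y ^ 2 := by ring
      have e2 : x' ^ 2 - d * y' ^ 2 = 1 * x' ^ 2 + 0 * (x' * y') + (-d) * y' ^ 2 := by ring
      rw [e1] at h1
      rw [e2] at h2
      obtain ⟨⟨u, hu⟩, ⟨v, hv⟩⟩ := aniso_down Nat.prime_two 1 0 (-d) hdesc E x y (by exact_mod_cast h1)
      obtain ⟨⟨u', hu'⟩, ⟨v', hv'⟩⟩ :=
        aniso_down Nat.prime_two 1 0 (-d) hdesc E x' y' (by exact_mod_cast h2)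
      push_cast at hu hv hu' hv'
      have h3 : (2 : ℤ) ^ E ∣ 2 * ((2 : ℤ) ^ (E / 2) * (2 : ℤ) ^ (E / 2)) := by
        rw [← pow_add, ← pow_succ']
        exact pow_dvd_pow _ (by omega)
      refine h3.trans ⟨u * u' - d * (v * v'), ?_⟩
      rw [hu, hv, hu', hv']
      ring

/-- diagonal form `x x' - 2^(2i) d y y'` modulo `2^K` -/
theorem diag_two {d : ℤ} (hd : ¬ (2 : ℤ) ∣ d) (K i : ℕ) (hi : 2 * i ≤ K) :
    ∃ lab : ℤ → ℤ → ℕ, (∀ x y, lab x y ≤ K - 2 * i) ∧
      ∀ x y x' y' : ℤ, (2 : ℤ) ^ K ∣ x ^ 2 - (2 : ℤ) ^ (2 * i) * d * y ^ 2 →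
        (2 : ℤ) ^ K ∣ x' ^ 2 - (2 : ℤ) ^ (2 * i) * d * y' ^ 2 → lab x y = lab x' y' →
        (2 : ℤ) ^ K ∣ 2 * (x * x' - (2 : ℤ) ^ (2 * i) * d * (y * y')) := by
  obtain ⟨lab, hlab, H⟩ := diag_two_unit hd (K - 2 * i)
  have hpi : (2 : ℤ) ^ i ≠ 0 := pow_ne_zero _ (by norm_num)
  refine ⟨fun x y => lab (x / (2 : ℤ) ^ i) y, fun x y => hlab _ _, ?_⟩
  intro x y x' y' h1 h2 h3
  obtain ⟨u, hu⟩ := even_dvd (p := 2) K i hi (by exact_mod_cast h1)
  obtain ⟨u', hu'⟩ := even_dvd (p := 2) K i hi (by exact_mod_cast h2)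
  push_cast at hu hu'
  subst hu hu'
  simp only [Int.mul_ediv_cancel_left _ hpi] at h3
  have key : ∀ u y : ℤ, (2 : ℤ) ^ K ∣ ((2 : ℤ) ^ i * u) ^ 2 - (2 : ℤ) ^ (2 * i) * d * y ^ 2 →
      (2 : ℤ) ^ (K - 2 * i) ∣ u ^ 2 - d * y ^ 2 := by
    intro u y h
    have h0 : ((2 : ℕ) : ℤ) ^ (K - 2 * i) ∣ u ^ 2 - d * y ^ 2 := by
      apply pow_dvd_of_mul Nat.prime_two _ (2 * i)
      have h4 : K - 2 * i + 2 * i = K := by omega
      rw [h4]
      push_cast
      have h5 : (2 : ℤ) ^ (2 * i) * (u ^ 2 - d * y ^ 2)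
          = ((2 : ℤ) ^ i * u) ^ 2 - (2 : ℤ) ^ (2 * i) * d * y ^ 2 := by
        rw [mul_comm 2 i, pow_mul]; ring
      rw [h5]
      exact h
    exact_mod_cast h0
  have h6 := H u y u' y' (key u y h1) (key u' y' h2) h3
  have h10 : (2 : ℤ) ^ K = (2 : ℤ) ^ (2 * i) * (2 : ℤ) ^ (K - 2 * i) := by
    rw [← pow_add]; congr 1; omega
  rw [h10]
  have h11 : 2 * ((2 : ℤ) ^ i * u * ((2 : ℤ) ^ i * u') - (2 : ℤ) ^ (2 * i) * d * (y * y'))
      = (2 : ℤ) ^ (2 * i) * (2 * (u * u' - d * (y * y'))) := by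
    rw [mul_comm 2 i, pow_mul]; ring
  rw [h11]
  exact mul_dvd_mul_left _ h6

/-- diagonal form, any prime: `j` any exponent, `D = p^j d` or `p^K ∣ D` -/
theorem diag_label {p : ℕ} (hp : p.Prime) (D : ℤ) (K : ℕ) :
    ∃ (e j : ℕ) (lab : ℤ → ℤ → ℕ), e ≤ K ∧
      (e ≠ 0 → j + e ≤ K ∧ ∃ d : ℤ, D = (p : ℤ) ^ j * d ∧ ¬ (p : ℤ) ∣ d) ∧
      (∀ x y, lab x y ≤ e) ∧
      ∀ x y x' y' : ℤ, (p : ℤ) ^ K ∣ x ^ 2 - D * y ^ 2 →
        (p : ℤ) ^ K ∣ x' ^ 2 - D * y' ^ 2 → lab x y = lab x' y' →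
        (p : ℤ) ^ K ∣ 2 * (x * x' - D * (y * y')) := by
  by_cases hK : (p : ℤ) ^ K ∣ D
  · refine ⟨0, 0, fun _ _ => 0, Nat.zero_le _, fun h => absurd rfl h, fun _ _ => le_refl _, ?_⟩
    intro x y x' y' h1 h2 _
    have h3 : (p : ℤ) ^ K ∣ x ^ 2 := by
      have : x ^ 2 = (x ^ 2 - D * y ^ 2) + D * y ^ 2 := by ring
      rw [this]
      exact dvd_add h1 (hK.mul_right _)
    have h4 : (p : ℤ) ^ K ∣ x' ^ 2 := by
      have : x' ^ 2 = (x' ^ 2 - D * y' ^ 2) + D * y' ^ 2 := by ring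
      rw [this]
      exact dvd_add h2 (hK.mul_right _)
    exact (dvd_sub (dvd_mul_of_sq h3 h4) (hK.mul_right _)).mul_left _
  · -- extract the exact power
    have hD0 : D ≠ 0 := fun h => hK (by rw [h]; exact dvd_zero _)
    obtain ⟨d, hd1, hd2⟩ : ∃ d : ℤ, D = (p : ℤ) ^ (Nat.findGreatest (fun i => (p : ℤ) ^ i ∣ D) K) * d ∧
        ¬ (p : ℤ) ∣ d := by
      have h1 : (p : ℤ) ^ (Nat.findGreatest (fun i => (p : ℤ) ^ i ∣ D) K) ∣ D :=
        Nat.findGreatest_spec (P := fun i => (p : ℤ) ^ i ∣ D) (Nat.zero_le K) (by simp)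
      have h2 : Nat.findGreatest (fun i => (p : ℤ) ^ i ∣ D) K ≤ K := Nat.findGreatest_le K
      obtain ⟨d, hd⟩ := h1
      refine ⟨d, hd, ?_⟩
      rintro ⟨z, rfl⟩
      have h3 : (p : ℤ) ^ (Nat.findGreatest (fun i => (p : ℤ) ^ i ∣ D) K + 1) ∣ D :=
        ⟨z, by rw [pow_succ]; rw [mul_assoc]; exact hd⟩
      rcases h2.eq_or_lt with h4 | h4
      · apply hK
        rw [← h4]
        exact (dvd_mul_right _ _).trans (dvd_of_eq hd.symm)
      · have := Nat.le_findGreatest (P := fun i => (p : ℤ) ^ i ∣ D) (n := K)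
          (m := Nat.findGreatest (fun i => (p : ℤ) ^ i ∣ D) K + 1) (by omega) h3
        omega
    set j := Nat.findGreatest (fun i => (p : ℤ) ^ i ∣ D) K with hj
    have hjK : j < K := by
      rcases (Nat.findGreatest_le (P := fun i => (p : ℤ) ^ i ∣ D) K).eq_or_lt with h4 | h4
      · exfalso
        apply hK
        rw [hd1, hj, h4]
        exact dvd_mul_right _ _
      · exact h4
    rcases Nat.even_or_odd' j with ⟨i, hi | hi⟩
    · -- even
      have hiK : 2 * i ≤ K := by omega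
      obtain ⟨lab, hlab, H⟩ : ∃ lab : ℤ → ℤ → ℕ, (∀ x y, lab x y ≤ K - 2 * i) ∧
          ∀ x y x' y' : ℤ, (p : ℤ) ^ K ∣ x ^ 2 - D * y ^ 2 →
            (p : ℤ) ^ K ∣ x' ^ 2 - D * y' ^ 2 → lab x y = lab x' y' →
            (p : ℤ) ^ K ∣ 2 * (x * x' - D * (y * y')) := by
        rw [hi] at hd1
        by_cases hp2 : p = 2
        · subst hp2
          obtain ⟨lab, hlab, H⟩ := diag_two (d := d) (by exact_mod_cast hd2) K i hiK
          refine ⟨lab, hlab, ?_⟩
          rw [hd1]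
          push_cast
          exact H
        · obtain ⟨lab, hlab, H⟩ := diag_odd hp hp2 hd2 K i hiK
          refine ⟨lab, hlab, ?_⟩
          rw [hd1]
          intro x y x' y' h1 h2 h3
          exact (H x y x' y' h1 h2 h3).mul_left _
      refine ⟨K - 2 * i, j, lab, Nat.sub_le _ _, fun _ => ⟨by omega, d, hd1, hd2⟩, hlab, H⟩
    · -- odd
      refine ⟨0, j, fun _ _ => 0, Nat.zero_le _, fun h => absurd rfl h, fun _ _ => le_refl _, ?_⟩
      intro x y x' y' h1 h2 _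
      rw [hd1] at h1 h2
      have h3 := parity hp hd2 K j (by omega) x y h1
      have h4 := parity hp hd2 K j (by omega) x' y' h2
      have h5 : (p : ℤ) ^ K ∣ D * y ^ 2 := by
        have : D * y ^ 2 = x ^ 2 - (x ^ 2 - (p : ℤ) ^ j * d * y ^ 2) := by rw [hd1]; ring
        rw [this]
        exact dvd_sub h3 h1
      have h6 : (p : ℤ) ^ K ∣ D * y' ^ 2 := by
        have : D * y' ^ 2 = x' ^ 2 - (x' ^ 2 - (p : ℤ) ^ j * d * y' ^ 2) := by rw [hd1]; ring
        rw [this]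
        exact dvd_sub h4 h2
      have h7 : (p : ℤ) ^ K ∣ D * (y * y') := by
        have h8 : ((p : ℤ) ^ K) ^ 2 ∣ (D * (y * y')) ^ 2 := by
          have : (D * (y * y')) ^ 2 = (D * y ^ 2) * (D * y' ^ 2) := by ring
          rw [this, pow_two ((p : ℤ) ^ K)]
          exact mul_dvd_mul h5 h6
        exact (Int.pow_dvd_pow_iff (by norm_num)).1 h8
      exact (dvd_sub (dvd_mul_of_sq h3 h4) h7).mul_left _

/-- **Binary labels.** -/
theorem bin_label {p : ℕ} (hp : p.Prime) (K : ℕ) (a t c : ℤ)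
    (h : K ≠ 0 → ¬ ((p : ℤ) ∣ a ∧ (p : ℤ) ∣ t ∧ (p : ℤ) ∣ c)) :
    ∃ (e : ℕ) (lab : ℤ → ℤ → ℕ) (g1 g2 g3 g4 : ℤ), e ≤ K ∧ (∀ α β, lab α β ≤ e) ∧
      (∀ α β α' β' : ℤ, (p : ℤ) ^ K ∣ a * (α * α) + t * (α * β + α * β) + c * (β * β) →
        (p : ℤ) ^ K ∣ a * (α' * α') + t * (α' * β' + α' * β') + c * (β' * β') →
        lab α β = lab α' β' →
        (p : ℤ) ^ K ∣ 2 * (a * (α * α') + t * (α * β' + α' * β) + c * (β * β'))) ∧
      ((p : ℤ) ^ K ∣ (p : ℤ) ^ e * (a * g1 + t * g2) ∧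
        (p : ℤ) ^ K ∣ (p : ℤ) ^ e * (t * g1 + c * g2) ∧
        (p : ℤ) ^ K ∣ (p : ℤ) ^ e * (a * g3 + t * g4) ∧
        (p : ℤ) ^ K ∣ (p : ℤ) ^ e * (t * g3 + c * g4)) ∧
      ∀ i l : ℤ, (p : ℤ) ^ K ∣ a * (i * g1 + l * g3) + t * (i * g2 + l * g4) →
        (p : ℤ) ^ K ∣ t * (i * g1 + l * g3) + c * (i * g2 + l * g4) →
        (p : ℤ) ^ e ∣ i ∧ (p : ℤ) ^ e ∣ l := by
  rcases Nat.eq_zero_or_pos K with hK | hK
  · subst hK
    refine ⟨0, fun _ _ => 0, 0, 0, 0, 0, le_refl _, fun _ _ => le_refl _, ?_, ?_, ?_⟩ <;> simp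
  have h := h hK.ne'
  -- the case `a` prime to `p`
  have main : ∀ a t c : ℤ, ¬ (p : ℤ) ∣ a →
      ∃ (e : ℕ) (lab : ℤ → ℤ → ℕ) (g1 g2 g3 g4 : ℤ), e ≤ K ∧ (∀ α β, lab α β ≤ e) ∧
      (∀ α β α' β' : ℤ, (p : ℤ) ^ K ∣ a * (α * α) + t * (α * β + α * β) + c * (β * β) →
        (p : ℤ) ^ K ∣ a * (α' * α') + t * (α' * β' + α' * β') + c * (β' * β') →
        lab α β = lab α' β' →
        (p : ℤ) ^ K ∣ 2 * (a * (α * α') + t * (α * β' + α' * β) + c * (β * β'))) ∧
      ((p : ℤ) ^ K ∣ (p : ℤ) ^ e * (a * g1 + t * g2) ∧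
        (p : ℤ) ^ K ∣ (p : ℤ) ^ e * (t * g1 + c * g2) ∧
        (p : ℤ) ^ K ∣ (p : ℤ) ^ e * (a * g3 + t * g4) ∧
        (p : ℤ) ^ K ∣ (p : ℤ) ^ e * (t * g3 + c * g4)) ∧
      ∀ i l : ℤ, (p : ℤ) ^ K ∣ a * (i * g1 + l * g3) + t * (i * g2 + l * g4) →
        (p : ℤ) ^ K ∣ t * (i * g1 + l * g3) + c * (i * g2 + l * g4) →
        (p : ℤ) ^ e ∣ i ∧ (p : ℤ) ^ e ∣ l := by
    intro a t c ha
    obtain ⟨e, j, lab, heK, hd, hlab, H⟩ := diag_label hp (t ^ 2 - a * c) K
    have hform : ∀ α β α' β' : ℤ, a * (a * (α * α') + t * (α * β' + α' * β) + c * (β * β'))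
        = (a * α + t * β) * (a * α' + t * β') - (t ^ 2 - a * c) * (β * β') := by
      intro α β α' β'; ring
    have hlabel : ∀ α β α' β' : ℤ,
        (p : ℤ) ^ K ∣ a * (α * α) + t * (α * β + α * β) + c * (β * β) →
        (p : ℤ) ^ K ∣ a * (α' * α') + t * (α' * β' + α' * β') + c * (β' * β') →
        lab (a * α + t * β) β = lab (a * α' + t * β') β' →
        (p : ℤ) ^ K ∣ 2 * (a * (α * α') + t * (α * β' + α' * β) + c * (β * β')) := by
      intro α β α' β' h1 h2 h3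
      have k1 : (p : ℤ) ^ K ∣ (a * α + t * β) ^ 2 - (t ^ 2 - a * c) * β ^ 2 := by
        have : (a * α + t * β) ^ 2 - (t ^ 2 - a * c) * β ^ 2
            = a * (a * (α * α) + t * (α * β + α * β) + c * (β * β)) := by ring
        rw [this]
        exact h1.mul_left _
      have k2 : (p : ℤ) ^ K ∣ (a * α' + t * β') ^ 2 - (t ^ 2 - a * c) * β' ^ 2 := by
        have : (a * α' + t * β') ^ 2 - (t ^ 2 - a * c) * β' ^ 2
            = a * (a * (α' * α') + t * (α' * β' + α' * β') + c * (β' * β')) := by ring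
        rw [this]
        exact h2.mul_left _
      have k3 := H _ _ _ _ k1 k2 h3
      rw [← hform] at k3
      apply pow_dvd_cancel hp K ha
      have : a * (2 * (a * (α * α') + t * (α * β' + α' * β) + c * (β * β')))
          = 2 * (a * (a * (α * α') + t * (α * β' + α' * β) + c * (β * β'))) := by ring
      rw [this]
      exact k3
    by_cases he : e = 0
    · subst he
      refine ⟨0, fun α β => lab (a * α + t * β) β, 0, 0, 0, 0, Nat.zero_le _,
        fun α β => hlab _ _, hlabel, ?_, ?_⟩ <;> simp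
    · obtain ⟨hje, d, hd1, hd2⟩ := hd he
      have hpK : (p : ℤ) ^ K = (p : ℤ) ^ e * (p : ℤ) ^ (K - e) := by
        rw [← pow_add]; congr 1; omega
      have hpK2 : (p : ℤ) ^ (K - j - e) * (p : ℤ) ^ j = (p : ℤ) ^ (K - e) := by
        rw [← pow_add]; congr 1; omega
      have hX : t * ((p : ℤ) ^ (K - j - e) * (- t)) + c * ((p : ℤ) ^ (K - j - e) * a)
          = - ((p : ℤ) ^ (K - e) * d) := by
        have : t * ((p : ℤ) ^ (K - j - e) * (- t)) + c * ((p : ℤ) ^ (K - j - e) * a)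
            = - ((p : ℤ) ^ (K - j - e) * (t ^ 2 - a * c)) := by ring
        rw [this, hd1, ← mul_assoc, hpK2]
      refine ⟨e, fun α β => lab (a * α + t * β) β, (p : ℤ) ^ (K - e), 0,
        (p : ℤ) ^ (K - j - e) * (- t), (p : ℤ) ^ (K - j - e) * a, heK, fun α β => hlab _ _,
        hlabel, ⟨?_, ?_, ?_, ?_⟩, ?_⟩
      · exact ⟨a, by rw [hpK]; ring⟩
      · exact ⟨t, by rw [hpK]; ring⟩
      · exact ⟨0, by ring⟩
      · rw [hX]
        exact ⟨-d, by rw [hpK]; ring⟩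
      · intro i l h1 h2
        have h3 : (p : ℤ) ^ e ∣ i := by
          apply pow_dvd_cancel hp e ha
          apply pow_dvd_of_mul hp e (K - e)
          have h4 : e + (K - e) = K := by omega
          rw [h4]
          have : (p : ℤ) ^ (K - e) * (a * i) = a * (i * (p : ℤ) ^ (K - e)
              + l * ((p : ℤ) ^ (K - j - e) * (- t))) + t * (i * 0 + l * ((p : ℤ) ^ (K - j - e) * a)) := by
            ring
          rw [this]
          exact h1
        refine ⟨h3, ?_⟩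
        have h5 : t * (i * (p : ℤ) ^ (K - e) + l * ((p : ℤ) ^ (K - j - e) * (- t)))
            + c * (i * 0 + l * ((p : ℤ) ^ (K - j - e) * a))
            = (p : ℤ) ^ (K - e) * (t * i - d * l) := by
          have : t * (i * (p : ℤ) ^ (K - e) + l * ((p : ℤ) ^ (K - j - e) * (- t)))
              + c * (i * 0 + l * ((p : ℤ) ^ (K - j - e) * a))
              = t * i * (p : ℤ) ^ (K - e) + l * (t * ((p : ℤ) ^ (K - j - e) * (- t))
                + c * ((p : ℤ) ^ (K - j - e) * a)) := by ring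
          rw [this, hX]; ring
        rw [h5] at h2
        have h6 : (p : ℤ) ^ e ∣ t * i - d * l := by
          apply pow_dvd_of_mul hp e (K - e)
          have h4 : e + (K - e) = K := by omega
          rw [h4]
          exact h2
        apply pow_dvd_cancel hp e hd2
        have h7 : d * l = t * i - (t * i - d * l) := by ring
        rw [h7]
        exact dvd_sub (h3.mul_left _) h6
  by_cases ha : (p : ℤ) ∣ a
  · by_cases hc : (p : ℤ) ∣ c
    · -- hyperbolic or elliptic plane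
      have ht : ¬ (p : ℤ) ∣ t := fun ht => h ⟨ha, ht, hc⟩
      have hdet : ¬ (p : ℤ) ∣ t ^ 2 - a * c := by
        intro h1
        apply ht
        have h2 : (p : ℤ) ∣ t ^ 2 := by
          have : t ^ 2 = (t ^ 2 - a * c) + a * c := by ring
          rw [this]
          exact dvd_add h1 (ha.mul_right _)
        exact (int_prime hp).dvd_of_dvd_pow h2
      have hsharp : ∀ e : ℕ, e ≤ K → ((p : ℤ) ^ K ∣ (p : ℤ) ^ e * (a * (p : ℤ) ^ (K - e) + t * 0) ∧
          (p : ℤ) ^ K ∣ (p : ℤ) ^ e * (t * (p : ℤ) ^ (K - e) + c * 0) ∧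
          (p : ℤ) ^ K ∣ (p : ℤ) ^ e * (a * 0 + t * (p : ℤ) ^ (K - e)) ∧
          (p : ℤ) ^ K ∣ (p : ℤ) ^ e * (t * 0 + c * (p : ℤ) ^ (K - e))) ∧
          ∀ i l : ℤ, (p : ℤ) ^ K ∣ a * (i * (p : ℤ) ^ (K - e) + l * 0)
              + t * (i * 0 + l * (p : ℤ) ^ (K - e)) →
            (p : ℤ) ^ K ∣ t * (i * (p : ℤ) ^ (K - e) + l * 0) + c * (i * 0 + l * (p : ℤ) ^ (K - e)) →
            (p : ℤ) ^ e ∣ i ∧ (p : ℤ) ^ e ∣ l := by
        intro e he
        have hpK : (p : ℤ) ^ K = (p : ℤ) ^ e * (p : ℤ) ^ (K - e) := by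
          rw [← pow_add]; congr 1; omega
        refine ⟨⟨⟨a, by rw [hpK]; ring⟩, ⟨t, by rw [hpK]; ring⟩, ⟨t, by rw [hpK]; ring⟩,
          ⟨c, by rw [hpK]; ring⟩⟩, ?_⟩
        intro i l h1 h2
        have h4 : e + (K - e) = K := by omega
        have h5 : (p : ℤ) ^ e ∣ a * i + t * l := by
          apply pow_dvd_of_mul hp e (K - e)
          rw [h4]
          have : (p : ℤ) ^ (K - e) * (a * i + t * l) = a * (i * (p : ℤ) ^ (K - e) + l * 0)
              + t * (i * 0 + l * (p : ℤ) ^ (K - e)) := by ring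
          rw [this]; exact h1
        have h6 : (p : ℤ) ^ e ∣ t * i + c * l := by
          apply pow_dvd_of_mul hp e (K - e)
          rw [h4]
          have : (p : ℤ) ^ (K - e) * (t * i + c * l) = t * (i * (p : ℤ) ^ (K - e) + l * 0)
              + c * (i * 0 + l * (p : ℤ) ^ (K - e)) := by ring
          rw [this]; exact h2
        constructor
        · apply pow_dvd_cancel hp e hdet
          have : (t ^ 2 - a * c) * i = t * (t * i + c * l) - c * (a * i + t * l) := by ring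
          rw [this]
          exact dvd_sub (h6.mul_left _) (h5.mul_left _)
        · apply pow_dvd_cancel hp e hdet
          have : (t ^ 2 - a * c) * l = t * (a * i + t * l) - a * (t * i + c * l) := by ring
          rw [this]
          exact dvd_sub (h5.mul_left _) (h6.mul_left _)
      by_cases hp2 : p = 2
      · -- `p = 2`
        obtain ⟨a', ha'⟩ := ha
        obtain ⟨c', hc'⟩ := hc
        have hΔ : ¬ (p : ℤ) ∣ t ^ 2 - 4 * a' * c' := by
          intro h1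
          apply hdet
          have : t ^ 2 - a * c = (t ^ 2 - 4 * a' * c') := by
            rw [ha', hc', hp2]; push_cast; ring
          rw [this]; exact h1
        obtain ⟨lab, hlab, H⟩ := split_label hp (K - 1) a' t c' hΔ
        obtain ⟨hs1, hs2⟩ := hsharp (K - 1) (by omega)
        refine ⟨K - 1, lab, (p : ℤ) ^ (K - (K - 1)), 0, 0, (p : ℤ) ^ (K - (K - 1)), by omega, hlab,
          ?_, hs1, hs2⟩
        have hpK : (p : ℤ) ^ K = p * (p : ℤ) ^ (K - 1) := by
          rw [← pow_succ']; congr 1; omega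
        have key : ∀ α β : ℤ, (p : ℤ) ^ K ∣ a * (α * α) + t * (α * β + α * β) + c * (β * β) →
            (p : ℤ) ^ (K - 1) ∣ a' * α ^ 2 + t * (α * β) + c' * β ^ 2 := by
          intro α β h1
          apply pow_dvd_of_mul hp (K - 1) 1
          have h2 : K - 1 + 1 = K := by omega
          rw [h2]
          have : (p : ℤ) ^ 1 * (a' * α ^ 2 + t * (α * β) + c' * β ^ 2)
              = a * (α * α) + t * (α * β + α * β) + c * (β * β) := by
            rw [ha', hc', hp2]; push_cast; ring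
          rw [this]
          exact h1
        intro α β α' β' h1 h2 h3
        have h4 := H α β α' β' (key α β h1) (key α' β' h2) h3
        rw [hpK]
        have h5 : 2 * (a * (α * α') + t * (α * β' + α' * β) + c * (β * β'))
            = p * (2 * a' * (α * α') + t * (α * β' + α' * β) + 2 * c' * (β * β')) := by
          rw [ha', hc', hp2]; push_cast; ring
        rw [h5]
        exact mul_dvd_mul_left _ h4
      · -- odd `p`
        have h2p : ¬ (p : ℤ) ∣ 2 := by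
          intro h
          have h4 : p ∣ 2 := by exact_mod_cast h
          exact hp2 ((Nat.prime_dvd_prime_iff_eq hp Nat.prime_two).1 h4)
        have hΔ : ¬ (p : ℤ) ∣ (2 * t) ^ 2 - 4 * a * c := by
          intro h1
          have h3 : (2 * t) ^ 2 - 4 * a * c = 2 ^ 2 * (t ^ 2 - a * c) := by ring
          rw [h3] at h1
          rcases (int_prime hp).dvd_or_dvd h1 with h4 | h4
          · exact h2p ((int_prime hp).dvd_of_dvd_pow h4)
          · exact hdet h4
        obtain ⟨lab, hlab, H⟩ := split_label hp K a (2 * t) c hΔ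
        obtain ⟨hs1, hs2⟩ := hsharp K (le_refl _)
        refine ⟨K, lab, (p : ℤ) ^ (K - K), 0, 0, (p : ℤ) ^ (K - K), le_refl _, hlab,
          ?_, hs1, hs2⟩
        intro α β α' β' h1 h2 h3
        have k1 : (p : ℤ) ^ K ∣ a * α ^ 2 + 2 * t * (α * β) + c * β ^ 2 := by
          have : a * α ^ 2 + 2 * t * (α * β) + c * β ^ 2
              = a * (α * α) + t * (α * β + α * β) + c * (β * β) := by ring
          rw [this]; exact h1
        have k2 : (p : ℤ) ^ K ∣ a * α' ^ 2 + 2 * t * (α' * β') + c * β' ^ 2 := by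
          have : a * α' ^ 2 + 2 * t * (α' * β') + c * β' ^ 2
              = a * (α' * α') + t * (α' * β' + α' * β') + c * (β' * β') := by ring
          rw [this]; exact h2
        have h4 := H α β α' β' k1 k2 h3
        have h5 : 2 * (a * (α * α') + t * (α * β' + α' * β) + c * (β * β'))
            = 2 * a * (α * α') + 2 * t * (α * β' + α' * β) + 2 * c * (β * β') := by ring
        rw [h5]
        exact h4
    · -- swap
      obtain ⟨e, lab, g1, g2, g3, g4, heK, hlab, H, ⟨s1, s2, s3, s4⟩, hind⟩ := main c t a hc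
      refine ⟨e, fun α β => lab β α, g2, g1, g4, g3, heK, fun α β => hlab _ _, ?_,
        ⟨?_, ?_, ?_, ?_⟩, ?_⟩
      · intro α β α' β' h1 h2 h3
        have k1 : (p : ℤ) ^ K ∣ c * (β * β) + t * (β * α + β * α) + a * (α * α) := by
          have : c * (β * β) + t * (β * α + β * α) + a * (α * α)
            = a * (α * α) + t * (α * β + α * β) + c * (β * β) := by ring
          rw [this]; exact h1
        have k2 : (p : ℤ) ^ K ∣ c * (β' * β') + t * (β' * α' + β' * α') + a * (α' * α') := by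
          have : c * (β' * β') + t * (β' * α' + β' * α') + a * (α' * α')
            = a * (α' * α') + t * (α' * β' + α' * β') + c * (β' * β') := by ring
          rw [this]; exact h2
        have h4 := H β α β' α' k1 k2 h3
        have h5 : 2 * (a * (α * α') + t * (α * β' + α' * β) + c * (β * β'))
            = 2 * (c * (β * β') + t * (β * α' + β' * α) + a * (α * α')) := by ring
        rw [h5]
        exact h4
      · have : (p : ℤ) ^ e * (a * g2 + t * g1) = (p : ℤ) ^ e * (t * g1 + a * g2) := by ring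
        rw [this]; exact s2
      · have : (p : ℤ) ^ e * (t * g2 + c * g1) = (p : ℤ) ^ e * (c * g1 + t * g2) := by ring
        rw [this]; exact s1
      · have : (p : ℤ) ^ e * (a * g4 + t * g3) = (p : ℤ) ^ e * (t * g3 + a * g4) := by ring
        rw [this]; exact s4
      · have : (p : ℤ) ^ e * (t * g4 + c * g3) = (p : ℤ) ^ e * (c * g3 + t * g4) := by ring
        rw [this]; exact s3
      · intro i l h1 h2
        apply hind i l
        · have : c * (i * g1 + l * g3) + t * (i * g2 + l * g4)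
            = t * (i * g2 + l * g4) + c * (i * g1 + l * g3) := by ring
          rw [this]; exact h2
        · have : t * (i * g1 + l * g3) + a * (i * g2 + l * g4)
            = a * (i * g2 + l * g4) + t * (i * g1 + l * g3) := by ring
          rw [this]; exact h1
  · exact main a t c ha

end Pool.Agent.Lib.SymNC
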