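import Mathlib

/-!
# Labels for isotropic vectors of binary forms modulo a prime power

`f (α, β) = a α² + b α β + c β²`. If `p` does not divide `b² - 4 a c`, the vectors with `p^e ∣ f` get
`e + 1` labels so that vectors with equal label are orthogonal modulo `p^e` for the polar form: `f` is
anisotropic modulo `p` (one label), or a product of two linear forms modulo `p^e` (the label is the
valuation of one of them).
-/

set_option autoImplicit false

open scoped Classical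

namespace Pool.Agent.Lib.SymNC

theorem int_prime {p : ℕ} (hp : p.Prime) : Prime (p : ℤ) := Nat.prime_iff_prime_int.1 hp

/-- cancel a factor prime to `p` -/
theorem pow_dvd_cancel {p : ℕ} (hp : p.Prime) {a b : ℤ} (n : ℕ) (ha : ¬ (p : ℤ) ∣ a)
    (h : (p : ℤ) ^ n ∣ a * b) : (p : ℤ) ^ n ∣ b := by
  have hc : IsCoprime ((p : ℤ) ^ n) a :=
    IsCoprime.pow_left ((int_prime hp).coprime_iff_not_dvd.2 ha)
  exact hc.dvd_of_dvd_mul_left h

/-- an integer prime to `p` is invertible modulo `p` -/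
theorem exists_inv {p : ℕ} (hp : p.Prime) {a : ℤ} (ha : ¬ (p : ℤ) ∣ a) :
    ∃ w : ℤ, (p : ℤ) ∣ a * w - 1 := by
  have hc : IsCoprime (p : ℤ) a := (int_prime hp).coprime_iff_not_dvd.2 ha
  obtain ⟨u, v, h⟩ := hc
  exact ⟨v, ⟨-u, by linear_combination h⟩⟩

/-- cancel powers of `p` -/
theorem pow_dvd_of_mul {p : ℕ} (hp : p.Prime) {a : ℤ} (n k : ℕ)
    (h : (p : ℤ) ^ (n + k) ∣ (p : ℤ) ^ k * a) : (p : ℤ) ^ n ∣ a := by
  have hp1 : (p : ℤ) ^ k ≠ 0 := pow_ne_zero _ (int_prime hp).ne_zero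
  rw [pow_add, mul_comm ((p : ℤ) ^ n)] at h
  exact (mul_dvd_mul_iff_left hp1).1 h

/-- descent for anisotropic forms, rounding up -/
theorem aniso_up {p : ℕ} (hp : p.Prime) (a b c : ℤ)
    (h : ∀ α β : ℤ, (p : ℤ) ∣ a * α ^ 2 + b * (α * β) + c * β ^ 2 → (p : ℤ) ∣ α ∧ (p : ℤ) ∣ β) :
    ∀ (e : ℕ) (α β : ℤ), (p : ℤ) ^ e ∣ a * α ^ 2 + b * (α * β) + c * β ^ 2 →
      (p : ℤ) ^ ((e + 1) / 2) ∣ α ∧ (p : ℤ) ^ ((e + 1) / 2) ∣ β := by
  intro e
  induction e using Nat.twoStepInduction with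
  | zero => intro α β _; simp
  | one => intro α β h1; simpa using h α β (by simpa using h1)
  | more e ih _ =>
    intro α β h1
    obtain ⟨⟨α', rfl⟩, ⟨β', rfl⟩⟩ := h α β ((dvd_pow_self _ (by omega)).trans h1)
    have h2 : (p : ℤ) ^ e ∣ a * α' ^ 2 + b * (α' * β') + c * β' ^ 2 := by
      apply pow_dvd_of_mul hp e 2
      have : (p : ℤ) ^ 2 * (a * α' ^ 2 + b * (α' * β') + c * β' ^ 2)
          = a * (p * α') ^ 2 + b * (p * α' * (p * β')) + c * (p * β') ^ 2 := by ring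
      rw [this]
      exact h1
    obtain ⟨h3, h4⟩ := ih α' β' h2
    have h5 : (e + 2 + 1) / 2 = (e + 1) / 2 + 1 := by omega
    rw [h5, pow_succ']
    exact ⟨mul_dvd_mul_left _ h3, mul_dvd_mul_left _ h4⟩

/-- descent for anisotropic forms, rounding down -/
theorem aniso_down {p : ℕ} (hp : p.Prime) (a b c : ℤ)
    (h : ∀ α β : ℤ, (p : ℤ) ^ 2 ∣ a * α ^ 2 + b * (α * β) + c * β ^ 2 →
      (p : ℤ) ∣ α ∧ (p : ℤ) ∣ β) :
    ∀ (e : ℕ) (α β : ℤ), (p : ℤ) ^ e ∣ a * α ^ 2 + b * (α * β) + c * β ^ 2 →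
      (p : ℤ) ^ (e / 2) ∣ α ∧ (p : ℤ) ^ (e / 2) ∣ β := by
  intro e
  induction e using Nat.twoStepInduction with
  | zero => intro α β _; simp
  | one => intro α β _; simp
  | more e ih _ =>
    intro α β h1
    obtain ⟨⟨α', rfl⟩, ⟨β', rfl⟩⟩ := h α β ((pow_dvd_pow _ (by omega)).trans h1)
    have h2 : (p : ℤ) ^ e ∣ a * α' ^ 2 + b * (α' * β') + c * β' ^ 2 := by
      apply pow_dvd_of_mul hp e 2
      have : (p : ℤ) ^ 2 * (a * α' ^ 2 + b * (α' * β') + c * β' ^ 2)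
          = a * (p * α') ^ 2 + b * (p * α' * (p * β')) + c * (p * β') ^ 2 := by ring
      rw [this]
      exact h1
    obtain ⟨h3, h4⟩ := ih α' β' h2
    have h5 : (e + 2) / 2 = e / 2 + 1 := by omega
    rw [h5, pow_succ']
    exact ⟨mul_dvd_mul_left _ h3, mul_dvd_mul_left _ h4⟩

/-- Hensel for quadratics -/
theorem hensel {p : ℕ} (hp : p.Prime) (a b c : ℤ) (hΔ : ¬ (p : ℤ) ∣ b ^ 2 - 4 * a * c) (t0 : ℤ)
    (h0 : (p : ℤ) ∣ a + b * t0 + c * t0 ^ 2) :
    ∀ e : ℕ, ∃ t : ℤ, (p : ℤ) ∣ a + b * t + c * t ^ 2 ∧ (p : ℤ) ^ e ∣ a + b * t + c * t ^ 2 := by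
  intro e
  induction e with
  | zero => exact ⟨t0, h0, by simp⟩
  | succ e ih =>
    obtain ⟨t, h1, h2⟩ := ih
    rcases Nat.eq_zero_or_pos e with he | he
    · subst he
      exact ⟨t, h1, by simpa using h1⟩
    have h3 : ¬ (p : ℤ) ∣ b + 2 * c * t := by
      intro h4
      apply hΔ
      have h5 : b ^ 2 - 4 * a * c = (b + 2 * c * t) * (b + 2 * c * t)
          - 4 * c * (a + b * t + c * t ^ 2) := by ring
      rw [h5]
      exact dvd_sub (h4.mul_right _) (h1.mul_left _)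
    obtain ⟨w, hw⟩ := exists_inv hp h3
    obtain ⟨g, hg⟩ := h2
    have h6 : (p : ℤ) ^ (e + 1) ∣ a + b * (t + (p : ℤ) ^ e * (- g * w))
        + c * (t + (p : ℤ) ^ e * (- g * w)) ^ 2 := by
      have h7 : a + b * (t + (p : ℤ) ^ e * (- g * w)) + c * (t + (p : ℤ) ^ e * (- g * w)) ^ 2
          = - (p : ℤ) ^ e * g * ((b + 2 * c * t) * w - 1)
            + c * (p : ℤ) ^ (e + e) * (g * w) ^ 2 := by
        have h8 : a + b * (t + (p : ℤ) ^ e * (- g * w)) + c * (t + (p : ℤ) ^ e * (- g * w)) ^ 2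
            = (a + b * t + c * t ^ 2) + (p : ℤ) ^ e * (- g * w) * (b + 2 * c * t)
              + c * (p : ℤ) ^ (e + e) * (g * w) ^ 2 := by
          rw [pow_add]; ring
        rw [h8, hg]; ring
      rw [h7]
      refine dvd_add ?_ ?_
      · have h9 : - (p : ℤ) ^ e * g * ((b + 2 * c * t) * w - 1)
            = (p : ℤ) ^ e * ((b + 2 * c * t) * w - 1) * (- g) := by ring
        rw [h9, pow_succ]
        exact (mul_dvd_mul_left _ hw).mul_right _
      · have h10 : (p : ℤ) ^ (e + 1) ∣ (p : ℤ) ^ (e + e) := pow_dvd_pow _ (by omega)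
        exact (h10.mul_left c).mul_right _
    exact ⟨_, (dvd_pow_self _ (by omega)).trans h6, h6⟩

/-- the label of a product of two linear forms -/
theorem prod_label {p : ℕ} (hp : p.Prime) (e : ℕ) {l m l' m' : ℤ}
    (h1 : (p : ℤ) ^ e ∣ l * m) (h2 : (p : ℤ) ^ e ∣ l' * m')
    (h3 : Nat.findGreatest (fun i => (p : ℤ) ^ i ∣ l) e
      = Nat.findGreatest (fun i => (p : ℤ) ^ i ∣ l') e) : (p : ℤ) ^ e ∣ l * m' := by
  set i := Nat.findGreatest (fun i => (p : ℤ) ^ i ∣ l) e with hi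
  have hie : i ≤ e := Nat.findGreatest_le e
  have hl : (p : ℤ) ^ i ∣ l :=
    Nat.findGreatest_spec (P := fun i => (p : ℤ) ^ i ∣ l) (Nat.zero_le e) (by simp)
  have hl' : (p : ℤ) ^ i ∣ l' := by
    rw [h3]
    exact Nat.findGreatest_spec (P := fun i => (p : ℤ) ^ i ∣ l') (Nat.zero_le e) (by simp)
  rcases hie.eq_or_lt with h | h
  · rw [← h]
    exact hl.mul_right _
  · have h4 : ¬ (p : ℤ) ^ (i + 1) ∣ l' := by
      intro h5
      have h6 := Nat.le_findGreatest (P := fun i => (p : ℤ) ^ i ∣ l') (n := e) (m := i + 1)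
        (by omega) h5
      rw [← h3] at h6
      omega
    obtain ⟨x, hx⟩ := hl'
    have h5 : ¬ (p : ℤ) ∣ x := by
      rintro ⟨y, rfl⟩
      apply h4
      exact ⟨y, by rw [hx, pow_succ]; ring⟩
    have h6 : (p : ℤ) ^ (e - i) ∣ m' := by
      apply pow_dvd_cancel hp _ h5
      apply pow_dvd_of_mul hp (e - i) i
      have h7 : e - i + i = e := by omega
      rw [h7]
      have h8 : (p : ℤ) ^ i * (x * m') = l' * m' := by rw [hx]; ring
      rw [h8]
      exact h2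
    have h7 : (p : ℤ) ^ e = (p : ℤ) ^ i * (p : ℤ) ^ (e - i) := by
      rw [← pow_add]; congr 1; omega
    rw [h7]
    exact mul_dvd_mul hl h6

/-- **Split labels**: `e + 1` labels for the isotropic vectors modulo `p^e` of a binary quadratic form
with discriminant prime to `p`. -/
theorem split_label {p : ℕ} (hp : p.Prime) (e : ℕ) (a b c : ℤ)
    (hΔ : ¬ (p : ℤ) ∣ b ^ 2 - 4 * a * c) :
    ∃ lab : ℤ → ℤ → ℕ, (∀ α β, lab α β ≤ e) ∧
      ∀ α β α' β' : ℤ, (p : ℤ) ^ e ∣ a * α ^ 2 + b * (α * β) + c * β ^ 2 →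
        (p : ℤ) ^ e ∣ a * α' ^ 2 + b * (α' * β') + c * β' ^ 2 → lab α β = lab α' β' →
        (p : ℤ) ^ e ∣ 2 * a * (α * α') + b * (α * β' + α' * β) + 2 * c * (β * β') := by
  by_cases hroot : ∃ t0 : ℤ, (p : ℤ) ∣ a + b * t0 + c * t0 ^ 2
  · obtain ⟨t0, h0⟩ := hroot
    obtain ⟨t, -, ht⟩ := hensel hp a b c hΔ t0 h0 e
    refine ⟨fun α β => Nat.findGreatest (fun i => (p : ℤ) ^ i ∣ β - t * α) e,
      fun α β => Nat.findGreatest_le e, ?_⟩
    intro α β α' β' h1 h2 h3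
    have key : ∀ x y : ℤ, (p : ℤ) ^ e ∣ a * x ^ 2 + b * (x * y) + c * y ^ 2 →
        (p : ℤ) ^ e ∣ (y - t * x) * (c * y + (b + c * t) * x) := by
      intro x y hxy
      have : (y - t * x) * (c * y + (b + c * t) * x) = (a * x ^ 2 + b * (x * y) + c * y ^ 2)
          - (a + b * t + c * t ^ 2) * x ^ 2 := by ring
      rw [this]
      exact dvd_sub hxy (ht.mul_right _)
    have h4 := prod_label hp e (key α β h1) (key α' β' h2) h3
    have h5 := prod_label hp e (key α' β' h2) (key α β h1) h3.symm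
    have h6 : 2 * a * (α * α') + b * (α * β' + α' * β) + 2 * c * (β * β')
        = (β - t * α) * (c * β' + (b + c * t) * α') + (β' - t * α') * (c * β + (b + c * t) * α)
          + (a + b * t + c * t ^ 2) * (2 * α * α') := by ring
    rw [h6]
    exact dvd_add (dvd_add h4 h5) (ht.mul_right _)
  · push Not at hroot
    refine ⟨fun _ _ => 0, fun _ _ => Nat.zero_le _, ?_⟩
    have hc : ¬ (p : ℤ) ∣ c := by
      intro hc
      have hb : ¬ (p : ℤ) ∣ b := by
        intro hb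
        apply hΔ
        exact dvd_sub (hb.trans (dvd_pow_self b (by norm_num))) (hc.mul_left _)
      obtain ⟨w, hw⟩ := exists_inv hp hb
      apply hroot (- a * w)
      have : a + b * (- a * w) + c * (- a * w) ^ 2 = - a * (b * w - 1) + c * (a * w) ^ 2 := by ring
      rw [this]
      exact dvd_add (hw.mul_left _) (hc.mul_right _)
    have han : ∀ α β : ℤ, (p : ℤ) ∣ a * α ^ 2 + b * (α * β) + c * β ^ 2 →
        (p : ℤ) ∣ α ∧ (p : ℤ) ∣ β := by
      intro α β h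
      have hα : (p : ℤ) ∣ α := by
        by_contra hα
        obtain ⟨w, hw⟩ := exists_inv hp hα
        apply hroot (β * w)
        obtain ⟨z, hz⟩ := hw
        have h1 : α * w = 1 + p * z := by linarith
        have h2 : a + b * (β * w) + c * (β * w) ^ 2
            = w ^ 2 * (a * α ^ 2 + b * (α * β) + c * β ^ 2)
              - (α * w - 1) * (a * (α * w + 1) + b * (β * w)) := by ring
        rw [h2]
        refine dvd_sub (h.mul_left _) ?_
        exact Dvd.dvd.mul_right ⟨z, hz⟩ _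
      refine ⟨hα, ?_⟩
      have h3 : (p : ℤ) ∣ c * β ^ 2 := by
        have : c * β ^ 2 = (a * α ^ 2 + b * (α * β) + c * β ^ 2) - α * (a * α + b * β) := by ring
        rw [this]
        exact dvd_sub h (hα.mul_right _)
      rcases (int_prime hp).dvd_or_dvd h3 with h4 | h4
      · exact absurd h4 hc
      · exact (int_prime hp).dvd_of_dvd_pow h4
    intro α β α' β' h1 h2 _
    obtain ⟨⟨x, hx⟩, ⟨y, hy⟩⟩ := aniso_up hp a b c han e α β h1
    obtain ⟨⟨x', hx'⟩, ⟨y', hy'⟩⟩ := aniso_up hp a b c han e α' β' h2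
    have h3 : (p : ℤ) ^ e ∣ (p : ℤ) ^ ((e + 1) / 2) * (p : ℤ) ^ ((e + 1) / 2) := by
      rw [← pow_add]
      exact pow_dvd_pow _ (by omega)
    refine h3.trans ⟨2 * a * (x * x') + b * (x * y' + x' * y) + 2 * c * (y * y'), ?_⟩
    rw [hx, hy, hx', hy']
    ring

/-- parity: if `j` is odd, `p^K ∣ x² - p^j d y²` forces `p^K ∣ x²` -/
theorem parity {p : ℕ} (hp : p.Prime) {d : ℤ} (hd : ¬ (p : ℤ) ∣ d) :
    ∀ (K j : ℕ), j % 2 = 1 → ∀ x y : ℤ, (p : ℤ) ^ K ∣ x ^ 2 - (p : ℤ) ^ j * d * y ^ 2 →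
      (p : ℤ) ^ K ∣ x ^ 2 := by
  intro K
  induction K using Nat.twoStepInduction with
  | zero => intro j _ x y _; simp
  | one =>
    intro j hj x y h
    have h1 : (p : ℤ) ∣ (p : ℤ) ^ j := dvd_pow_self _ (by omega)
    have h2 : x ^ 2 = (x ^ 2 - (p : ℤ) ^ j * d * y ^ 2) + (p : ℤ) ^ j * d * y ^ 2 := by ring
    rw [pow_one] at h ⊢
    rw [h2]
    exact dvd_add h ((h1.mul_right _).mul_right _)
  | more K ih _ =>
    intro j hj x y h
    have h1 : (p : ℤ) ∣ (p : ℤ) ^ j := dvd_pow_self _ (by omega)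
    have h0 : (p : ℤ) ∣ x ^ 2 := by
      have h2 : x ^ 2 = (x ^ 2 - (p : ℤ) ^ j * d * y ^ 2) + (p : ℤ) ^ j * d * y ^ 2 := by ring
      rw [h2]
      exact dvd_add ((dvd_pow_self _ (by omega)).trans h) ((h1.mul_right _).mul_right _)
    obtain ⟨x1, rfl⟩ := (int_prime hp).dvd_of_dvd_pow h0
    by_cases hj1 : j = 1
    · subst hj1
      have h3 : (p : ℤ) ^ (K + 1) ∣ p * x1 ^ 2 - d * y ^ 2 := by
        apply pow_dvd_of_mul hp (K + 1) 1
        have : (p : ℤ) ^ 1 * (p * x1 ^ 2 - d * y ^ 2) = (p * x1) ^ 2 - (p : ℤ) ^ 1 * d * y ^ 2 := by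
          ring
        rw [this]
        exact h
      have h4 : (p : ℤ) ∣ d * y ^ 2 := by
        have : d * y ^ 2 = p * x1 ^ 2 - (p * x1 ^ 2 - d * y ^ 2) := by ring
        rw [this]
        exact dvd_sub (dvd_mul_right _ _) ((dvd_pow_self _ (by omega)).trans h3)
      have h5 : (p : ℤ) ∣ y := by
        rcases (int_prime hp).dvd_or_dvd h4 with h5 | h5
        · exact absurd h5 hd
        · exact (int_prime hp).dvd_of_dvd_pow h5
      obtain ⟨y1, rfl⟩ := h5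
      have h6 : (p : ℤ) ^ K ∣ x1 ^ 2 - (p : ℤ) ^ 1 * d * y1 ^ 2 := by
        apply pow_dvd_of_mul hp K 1
        have : (p : ℤ) ^ 1 * (x1 ^ 2 - (p : ℤ) ^ 1 * d * y1 ^ 2) = p * x1 ^ 2 - d * (p * y1) ^ 2 := by
          ring
        rw [this]
        exact h3
      have h7 := ih 1 (by norm_num) x1 y1 h6
      rw [mul_pow, add_comm K 2, pow_add]
      exact mul_dvd_mul_left _ h7
    · have h6 : (p : ℤ) ^ K ∣ x1 ^ 2 - (p : ℤ) ^ (j - 2) * d * y ^ 2 := by
        apply pow_dvd_of_mul hp K 2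
        have h7 : (p : ℤ) ^ j = (p : ℤ) ^ 2 * (p : ℤ) ^ (j - 2) := by
          rw [← pow_add]; congr 1; omega
        have : (p : ℤ) ^ 2 * (x1 ^ 2 - (p : ℤ) ^ (j - 2) * d * y ^ 2)
            = (p * x1) ^ 2 - (p : ℤ) ^ j * d * y ^ 2 := by
          rw [h7]; ring
        rw [this]
        exact h
      have h7 := ih (j - 2) (by omega) x1 y h6
      rw [mul_pow, add_comm K 2, pow_add]
      exact mul_dvd_mul_left _ h7

/-- if `p^K` divides two squares, it divides the product -/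
theorem dvd_mul_of_sq {q x y : ℤ} (hx : q ∣ x ^ 2) (hy : q ∣ y ^ 2) : q ∣ x * y := by
  have h : q ^ 2 ∣ (x * y) ^ 2 := by
    rw [mul_pow, pow_two q]
    exact mul_dvd_mul hx hy
  exact (Int.pow_dvd_pow_iff (by norm_num)).1 h

/-- even power: `p^K ∣ x² - p^(2i) d y²` with `2 i ≤ K` forces `p^i ∣ x` -/
theorem even_dvd {p : ℕ} (K i : ℕ) (hi : 2 * i ≤ K) {d x y : ℤ}
    (h : (p : ℤ) ^ K ∣ x ^ 2 - (p : ℤ) ^ (2 * i) * d * y ^ 2) : (p : ℤ) ^ i ∣ x := by
  have h1 : (p : ℤ) ^ (2 * i) ∣ x ^ 2 := by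
    have h2 : x ^ 2 = (x ^ 2 - (p : ℤ) ^ (2 * i) * d * y ^ 2) + (p : ℤ) ^ (2 * i) * (d * y ^ 2) := by
      ring
    rw [h2]
    exact dvd_add ((pow_dvd_pow _ hi).trans h) (dvd_mul_right _ _)
  rw [mul_comm 2 i, pow_mul] at h1
  exact (Int.pow_dvd_pow_iff (by norm_num)).1 h1

end Pool.Agent.Lib.SymNC
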