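import Mathlib

/-!
# Finite abelian `p`-groups: torsion counts and generators
-/

set_option autoImplicit false

open scoped Classical

namespace Pool.Agent.Lib.SymNC

/-- `G / f G` and `ker f` have the same number of elements -/
theorem card_quot_range {G : Type*} [AddCommGroup G] [Finite G] (f : G →+ G) :
    Nat.card (G ⧸ f.range) = Nat.card f.ker := by
  have h1 := AddSubgroup.card_eq_card_quotient_mul_card_addSubgroup f.range
  have h2 := AddSubgroup.card_eq_card_quotient_mul_card_addSubgroup f.ker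
  have h3 : Nat.card (G ⧸ f.ker) = Nat.card f.range :=
    Nat.card_congr (QuotientAddGroup.quotientKerEquivRange f).toEquiv
  have h4 : 0 < Nat.card f.range := Nat.card_pos
  rw [h3] at h2
  have h5 : Nat.card (G ⧸ f.range) * Nat.card f.range = Nat.card f.ker * Nat.card f.range := by
    rw [← h1, h2, mul_comm]
  exact Nat.eq_of_mul_eq_mul_right h4 h5

/-- torsion counts along `p^a` : `|I[p^(a+1)]| = |I[p^a]| |(p^a I)[p]|` -/
theorem card_tors_succ {W : Type*} [AddCommGroup W] [Finite W] (I : AddSubgroup W) (p a : ℕ) :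
    Nat.card {w : W // w ∈ I ∧ p ^ (a + 1) • w = 0}
      = Nat.card {w : W // w ∈ I ∧ p ^ a • w = 0}
        * Nat.card {w : W // (∃ z ∈ I, w = p ^ a • z) ∧ p • w = 0} := by
  let K : AddSubgroup W :=
    { carrier := {w | w ∈ I ∧ p ^ (a + 1) • w = 0}
      add_mem' := fun {x y} hx hy => ⟨I.add_mem hx.1 hy.1, by rw [smul_add, hx.2, hy.2, add_zero]⟩
      zero_mem' := ⟨I.zero_mem, smul_zero _⟩
      neg_mem' := fun {x} hx => ⟨I.neg_mem hx.1, by rw [smul_neg, hx.2, neg_zero]⟩ }
  let f : K →+ W := (nsmulAddMonoidHom (p ^ a)).comp K.subtype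
  have h1 := AddSubgroup.card_eq_card_quotient_mul_card_addSubgroup f.ker
  have h2 : Nat.card (K ⧸ f.ker) = Nat.card f.range :=
    Nat.card_congr (QuotientAddGroup.quotientKerEquivRange f).toEquiv
  have h3 : Nat.card f.ker = Nat.card {w : W // w ∈ I ∧ p ^ a • w = 0} := by
    refine Nat.card_congr
      { toFun := fun w => ⟨w.1.1, w.1.2.1, ?_⟩
        invFun := fun w => ⟨⟨w.1, w.2.1, ?_⟩, ?_⟩
        left_inv := fun w => rfl
        right_inv := fun w => rfl }
    · exact w.2
    · rw [pow_succ', mul_smul, w.2.2, smul_zero]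
    · exact w.2.2
  have h4 : Nat.card f.range = Nat.card {w : W // (∃ z ∈ I, w = p ^ a • z) ∧ p • w = 0} := by
    refine Nat.card_congr (Equiv.subtypeEquivRight ?_)
    intro w
    constructor
    · rintro ⟨z, rfl⟩
      refine ⟨⟨z.1, z.2.1, rfl⟩, ?_⟩
      change p • (p ^ a • z.1) = 0
      rw [← mul_smul, ← pow_succ']
      exact z.2.2
    · rintro ⟨⟨z, hz, rfl⟩, h⟩
      refine ⟨⟨z, hz, ?_⟩, rfl⟩
      rw [pow_succ', mul_smul]
      exact h
  rw [h2, h3, h4] at h1
  have h5 : Nat.card K = Nat.card {w : W // w ∈ I ∧ p ^ (a + 1) • w = 0} := rfl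
  rw [← h5, h1, mul_comm]

/-- the number of elements of a subgroup of a finite group killed by `p^k` is a power of `p` -/
theorem card_pow {W : Type*} [AddCommGroup W] [Finite W] {p : ℕ} (hp : p.Prime) (k : ℕ)
    (hW : ∀ w : W, p ^ k • w = 0) : ∃ n, Nat.card W = p ^ n := by
  have h1 : IsPGroup p (Multiplicative W) := by
    intro g
    refine ⟨k, ?_⟩
    exact Multiplicative.toAdd.injective (hW (Multiplicative.toAdd g))
  have : Fact p.Prime := ⟨hp⟩
  obtain ⟨n, hn⟩ := (IsPGroup.iff_card (p := p) (G := Multiplicative W)).1 h1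
  exact ⟨n, by rw [← hn]; rfl⟩

/-- a power of `p` above `p^2` is at least `p^3` -/
theorem pow_gap {p n : ℕ} (hp : p.Prime) (h : p ^ 2 < p ^ n) : p ^ 3 ≤ p ^ n :=
  Nat.pow_le_pow_right hp.pos ((Nat.pow_lt_pow_iff_right hp.one_lt).1 h)

/-- strictly increasing subgroups of a `p`-group -/
theorem card_step {W : Type*} [AddCommGroup W] [Finite W] {p : ℕ} (hp : p.Prime) (k : ℕ)
    (hW : ∀ w : W, p ^ k • w = 0) {H H' : AddSubgroup W} (h : H < H') :
    p * Nat.card H ≤ Nat.card H' := by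
  obtain ⟨n, hn⟩ := card_pow (W := H) hp k (fun w => Subtype.ext (by simpa using hW w.1))
  obtain ⟨n', hn'⟩ := card_pow (W := H') hp k (fun w => Subtype.ext (by simpa using hW w.1))
  have h1 : Nat.card H < Nat.card H' := by
    have h2 : Nat.card H ≤ Nat.card H' := AddSubgroup.card_le_of_le h.le
    refine lt_of_le_of_ne h2 ?_
    intro h3
    apply h.ne
    exact AddSubgroup.eq_of_le_of_card_ge h.le h3.symm.le
  rw [hn, hn'] at h1 ⊢
  rw [← pow_succ']
  exact Nat.pow_le_pow_right hp.pos ((Nat.pow_lt_pow_iff_right hp.one_lt).1 h1)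

/-- a finite `p`-group `G` with `|G[p]| ≤ p²` is generated by two elements -/
theorem gen_two {G : Type*} [AddCommGroup G] [Finite G] {p : ℕ} (hp : p.Prime) (k : ℕ)
    (hG : ∀ g : G, p ^ k • g = 0) (h : Nat.card {g : G // p • g = 0} ≤ p ^ 2) :
    ∃ x y : G, ∀ g : G, ∃ α β : ℤ, g = α • x + β • y := by
  let f : G →+ G := nsmulAddMonoidHom p
  have hker : Nat.card f.ker ≤ p ^ 2 := h
  -- Nakayama
  have nak : ∀ H : AddSubgroup G, H ⊔ f.range = ⊤ → H = ⊤ := by
    intro H hH
    have h1 : ∀ n : ℕ, ∀ g : G, ∃ h ∈ H, ∃ z : G, g = h + p ^ n • z := by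
      intro n
      induction n with
      | zero => intro g; exact ⟨0, H.zero_mem, g, by simp⟩
      | succ n ih =>
        intro g
        obtain ⟨a, ha, z, hz⟩ := ih g
        have h2 : z ∈ H ⊔ f.range := by rw [hH]; trivial
        obtain ⟨b, hb, c, hc, hbc⟩ := AddSubgroup.mem_sup.1 h2
        obtain ⟨d, rfl⟩ := hc
        refine ⟨a + p ^ n • b, H.add_mem ha (H.nsmul_mem hb _), d, ?_⟩
        rw [hz, ← hbc]
        change a + p ^ n • (b + p • d) = _
        rw [smul_add, ← mul_smul, ← pow_succ, add_assoc]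
    rw [eq_top_iff]
    intro g _
    obtain ⟨a, ha, z, hz⟩ := h1 k g
    rw [hG, add_zero] at hz
    rw [hz]; exact ha
  have hcard : Nat.card G ≤ p ^ 2 * Nat.card f.range := by
    have h1 := AddSubgroup.card_eq_card_quotient_mul_card_addSubgroup f.range
    rw [card_quot_range] at h1
    rw [h1]
    exact Nat.mul_le_mul_right _ hker
  have zm : ∀ x g : G, g ∈ AddSubgroup.zmultiples x ↔ ∃ α : ℤ, g = α • x := by
    intro x g
    rw [AddSubgroup.mem_zmultiples_iff]
    constructor
    · rintro ⟨α, h⟩; exact ⟨α, h.symm⟩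
    · rintro ⟨α, h⟩; exact ⟨α, h.symm⟩
  have hle : ∀ H : AddSubgroup G, H ≤ ⊤ := fun _ => le_top
  by_cases h0 : f.range = ⊤
  · have h1 : (⊥ : AddSubgroup G) = ⊤ := nak ⊥ (by rw [bot_sup_eq]; exact h0)
    refine ⟨0, 0, fun g => ⟨0, 0, ?_⟩⟩
    have h2 : g ∈ (⊥ : AddSubgroup G) := by rw [h1]; trivial
    rw [AddSubgroup.mem_bot.1 h2]; simp
  obtain ⟨x, hx⟩ : ∃ x : G, x ∉ f.range := by
    by_contra hcon
    push Not at hcon
    exact h0 (eq_top_iff.2 fun g _ => hcon g)
  have hlt1 : f.range < AddSubgroup.zmultiples x ⊔ f.range := by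
    refine lt_of_le_of_ne le_sup_right ?_
    intro h1
    apply hx
    rw [h1]
    exact (le_sup_left : AddSubgroup.zmultiples x ≤ _) (AddSubgroup.mem_zmultiples x)
  have hc1 := card_step hp k hG hlt1
  by_cases h1 : AddSubgroup.zmultiples x ⊔ f.range = ⊤
  · have h2 := nak _ h1
    refine ⟨x, 0, fun g => ?_⟩
    have h3 : g ∈ AddSubgroup.zmultiples x := by rw [h2]; trivial
    obtain ⟨α, hα⟩ := (zm x g).1 h3
    exact ⟨α, 0, by rw [hα]; simp⟩
  obtain ⟨y, hy⟩ : ∃ y : G, y ∉ AddSubgroup.zmultiples x ⊔ f.range := by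
    by_contra hcon
    push Not at hcon
    exact h1 (eq_top_iff.2 fun g _ => hcon g)
  have hlt2 : AddSubgroup.zmultiples x ⊔ f.range
      < AddSubgroup.zmultiples x ⊔ AddSubgroup.zmultiples y ⊔ f.range := by
    refine lt_of_le_of_ne ?_ ?_
    · exact sup_le_sup_right le_sup_left _
    · intro h2
      apply hy
      rw [h2]
      exact (le_sup_left.trans' le_sup_right : AddSubgroup.zmultiples y ≤ _)
        (AddSubgroup.mem_zmultiples y)
  have hc2 := card_step hp k hG hlt2
  have h3 : AddSubgroup.zmultiples x ⊔ AddSubgroup.zmultiples y ⊔ f.range = ⊤ := by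
    apply AddSubgroup.eq_top_of_card_eq
    refine le_antisymm (AddSubgroup.card_le_card_addGroup _) ?_
    calc Nat.card G ≤ p ^ 2 * Nat.card f.range := hcard
      _ = p * (p * Nat.card f.range) := by ring
      _ ≤ p * Nat.card (AddSubgroup.zmultiples x ⊔ f.range : AddSubgroup G) :=
          Nat.mul_le_mul_left _ hc1
      _ ≤ _ := hc2
  have h4 := nak _ h3
  refine ⟨x, y, fun g => ?_⟩
  have h5 : g ∈ AddSubgroup.zmultiples x ⊔ AddSubgroup.zmultiples y := by rw [h4]; trivial
  obtain ⟨a, ha, b, hb, hab⟩ := AddSubgroup.mem_sup.1 h5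
  obtain ⟨α, rfl⟩ := (zm x a).1 ha
  obtain ⟨β, rfl⟩ := (zm y b).1 hb
  exact ⟨α, β, hab.symm⟩

/-- a group generated by two elements has at most `m²` elements killed by `m` -/
theorem tors_le_of_gen {G : Type*} [AddCommGroup G] [Finite G] {x y : G}
    (h : ∀ g : G, ∃ α β : ℤ, g = α • x + β • y) (m : ℕ) (hm : 0 < m) :
    Nat.card {g : G // m • g = 0} ≤ m ^ 2 := by
  let f : G →+ G := nsmulAddMonoidHom m
  have h1 : Nat.card {g : G // m • g = 0} = Nat.card f.ker := rfl
  rw [h1, ← card_quot_range]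
  have : NeZero m := ⟨hm.ne'⟩
  let F : ZMod m × ZMod m → G ⧸ f.range :=
    fun ab => (((ab.1.val : ℤ) • x + (ab.2.val : ℤ) • y : G) : G ⧸ f.range)
  have hF : Function.Surjective F := by
    intro q
    obtain ⟨g, rfl⟩ := QuotientAddGroup.mk_surjective q
    obtain ⟨α, β, hg⟩ := h g
    refine ⟨((α : ZMod m), (β : ZMod m)), ?_⟩
    have key : ∀ α : ℤ, ∃ z : ℤ, α - (((α : ZMod m)).val : ℤ) = m * z := by
      intro α
      have : ((((α : ZMod m)).val : ℤ) : ZMod m) = (α : ZMod m) := by simp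
      exact (ZMod.intCast_eq_intCast_iff_dvd_sub _ _ _).1 this
    obtain ⟨z, hz⟩ := key α
    obtain ⟨z', hz'⟩ := key β
    refine (QuotientAddGroup.eq).2 ?_
    refine ⟨z • x + z' • y, ?_⟩
    change m • (z • x + z' • y) = -(_ + _) + g
    rw [hg]
    have e1 : α = (((α : ZMod m)).val : ℤ) + m * z := by linarith
    have e2 : β = (((β : ZMod m)).val : ℤ) + m * z' := by linarith
    have e3 : α • x = (((α : ZMod m)).val : ℤ) • x + m • (z • x) := by
      conv_lhs => rw [e1]
      rw [add_smul, mul_smul]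
      simp
    have e4 : β • y = (((β : ZMod m)).val : ℤ) • y + m • (z' • y) := by
      conv_lhs => rw [e2]
      rw [add_smul, mul_smul]
      simp
    rw [e3, e4, smul_add]
    abel
  calc Nat.card (G ⧸ f.range) ≤ Nat.card (ZMod m × ZMod m) := Nat.card_le_card_of_surjective F hF
    _ = m ^ 2 := by simp [pow_two]

end Pool.Agent.Lib.SymNC
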