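import Pool.Agent.Lib.SymNC.Labels

/-!
# Interlacing: solutions of `D w = 0` and of `A z = 0` modulo `N`, `D` a principal block of `A`
-/

set_option autoImplicit false

open scoped Classical Matrix

namespace Pool.Agent.Lib.SymNC

section general

variable {ι : Type*} [Fintype ι]

/-- solutions of `B w = 0` modulo `N`, as a subgroup -/
def kerG (B : Matrix ι ι ℤ) (N : ℕ) : AddSubgroup (ι → ZMod N) where
  carrier := {w | (B.map (fun a : ℤ => (a : ZMod N))) *ᵥ w = 0}
  add_mem' := fun {x y} hx hy => by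
    have hx' : (B.map (fun a : ℤ => (a : ZMod N))) *ᵥ x = 0 := hx
    have hy' : (B.map (fun a : ℤ => (a : ZMod N))) *ᵥ y = 0 := hy
    change (B.map (fun a : ℤ => (a : ZMod N))) *ᵥ (x + y) = 0
    rw [Matrix.mulVec_add, hx', hy', add_zero]
  zero_mem' := Matrix.mulVec_zero _
  neg_mem' := fun {x} hx => by
    have hx' : (B.map (fun a : ℤ => (a : ZMod N))) *ᵥ x = 0 := hx
    change (B.map (fun a : ℤ => (a : ZMod N))) *ᵥ (-x) = 0
    rw [Matrix.mulVec_neg, hx', neg_zero]

theorem mem_kerG {B : Matrix ι ι ℤ} {N : ℕ} {w : ι → ZMod N} :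
    w ∈ kerG B N ↔ (B.map (fun a : ℤ => (a : ZMod N))) *ᵥ w = 0 := Iff.rfl

theorem kerN_eq (B : Matrix ι ι ℤ) (N : ℕ) : kerN B N = Nat.card (kerG B N) := rfl

theorem kerN_pos (B : Matrix ι ι ℤ) (N : ℕ) [NeZero N] : 0 < kerN B N := by
  rw [kerN_eq]
  exact Nat.card_pos

/-- solutions modulo `p^(a+1)` killed by `p^a` are the solutions modulo `p^a` -/
theorem ker_killed (B : Matrix ι ι ℤ) {p : ℕ} (hp : p.Prime) (a : ℕ) :
    Nat.card {w : ι → ZMod (p ^ (a + 1)) // w ∈ kerG B (p ^ (a + 1)) ∧ p ^ a • w = 0}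
      = kerN B (p ^ a) := by
  have := finite_zmod_pow hp a
  have := finite_zmod_pow hp (a + 1)
  have hpa : (p : ℤ) ^ a ≠ 0 := pow_ne_zero _ (int_prime hp).ne_zero
  have hp1 : (p : ℤ) ≠ 0 := (int_prime hp).ne_zero
  refine le_antisymm ?_ ?_
  · have key : ∀ w : {w : ι → ZMod (p ^ (a + 1)) // w ∈ kerG B (p ^ (a + 1)) ∧ p ^ a • w = 0},
        ∃ z : ι → ℤ, (∀ i, ((p * z i : ℤ) : ZMod (p ^ (a + 1))) = w.1 i) ∧
          ∀ i, ((p ^ a : ℕ) : ℤ) ∣ (B *ᵥ z) i := by
      rintro ⟨w, hw1, hw2⟩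
      have h0 : ∀ i, ∃ z : ℤ, ((z : ℤ) : ZMod (p ^ (a + 1))) = w i :=
        fun i => ZMod.intCast_surjective _
      choose y hy using h0
      have h1 : ∀ i, ∃ z : ℤ, y i = p * z := by
        intro i
        have h2 := congrFun hw2 i
        change p ^ a • w i = 0 at h2
        rw [← hy i, nsmul_eq_mul] at h2
        have h3 : (((p : ℤ) ^ a * y i : ℤ) : ZMod (p ^ (a + 1))) = 0 := by
          push_cast; push_cast at h2; exact h2
        rw [zmod_zero_iff] at h3
        have h4 : (p : ℤ) ^ 1 ∣ y i := by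
          apply pow_dvd_of_mul hp 1 a
          rw [add_comm 1 a]
          exact h3
        obtain ⟨z, hz⟩ := h4
        exact ⟨z, by rw [hz, pow_one]⟩
      choose z hz using h1
      refine ⟨z, fun i => by rw [← hz, hy], fun i => ?_⟩
      have h5 : (fun i => ((y i : ℤ) : ZMod (p ^ (a + 1)))) = w := funext hy
      rw [← h5, mem_kerG, ker_lift] at hw1
      have h6 := hw1 i
      have h7 : y = (p : ℤ) • z := by ext i; rw [hz]; rfl
      rw [h7, Matrix.mulVec_smul] at h6
      simp only [Pi.smul_apply, smul_eq_mul] at h6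
      push_cast at h6 ⊢
      apply pow_dvd_of_mul hp a 1
      rw [pow_one]
      exact h6
    choose z hz1 hz2 using key
    refine Nat.card_le_card_of_injective
      (fun w => (⟨fun i => ((z w i : ℤ) : ZMod (p ^ a)), (ker_lift B (p ^ a) (z w)).2 (hz2 w)⟩ :
        {w : ι → ZMod (p ^ a) // (B.map (fun a : ℤ => (a : ZMod _))) *ᵥ w = 0})) ?_
    intro w w' h
    have h1 : (fun i => ((z w i : ℤ) : ZMod (p ^ a))) = fun i => ((z w' i : ℤ) : ZMod (p ^ a)) :=
      congrArg Subtype.val h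
    apply Subtype.ext
    ext i
    rw [← hz1 w i, ← hz1 w' i]
    have h2 : ((z w i : ℤ) : ZMod (p ^ a)) = ((z w' i : ℤ) : ZMod (p ^ a)) := congrFun h1 i
    rw [← sub_eq_zero, ← Int.cast_sub, zmod_zero_iff] at h2 ⊢
    obtain ⟨y, hy⟩ := h2
    exact ⟨y, by rw [← mul_sub, hy, pow_succ]; ring⟩
  · have key : ∀ w : {w : ι → ZMod (p ^ a) // (B.map (fun a : ℤ => (a : ZMod _))) *ᵥ w = 0},
        ∃ z : ι → ℤ, (∀ i, ((z i : ℤ) : ZMod (p ^ a)) = w.1 i) ∧
          ∀ i, ((p ^ a : ℕ) : ℤ) ∣ (B *ᵥ z) i := by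
      intro w
      have h0 : ∀ i, ∃ z : ℤ, ((z : ℤ) : ZMod (p ^ a)) = w.1 i := fun i => ZMod.intCast_surjective _
      choose z hz using h0
      have h1 : (fun i => ((z i : ℤ) : ZMod (p ^ a))) = w.1 := funext hz
      have h2 := w.2
      rw [← h1, ker_lift] at h2
      exact ⟨z, hz, h2⟩
    choose z hz hz2 using key
    refine Nat.card_le_card_of_injective
      (fun w => (⟨fun i => ((p * z w i : ℤ) : ZMod (p ^ (a + 1))), ?_, ?_⟩ :
        {w : ι → ZMod (p ^ (a + 1)) // w ∈ kerG B (p ^ (a + 1)) ∧ p ^ a • w = 0})) ?_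
    · rw [mem_kerG, ker_lift]
      intro i
      have h7 : (fun i => (p : ℤ) * z w i) = (p : ℤ) • z w := by ext i; rfl
      rw [h7, Matrix.mulVec_smul]
      obtain ⟨y, hy⟩ := hz2 w i
      exact ⟨y, by rw [Pi.smul_apply, smul_eq_mul, hy]; push_cast; ring⟩
    · ext i
      change p ^ a • ((p * z w i : ℤ) : ZMod (p ^ (a + 1))) = 0
      rw [nsmul_eq_mul]
      have : (((p : ℤ) ^ a * (p * z w i) : ℤ) : ZMod (p ^ (a + 1))) = 0 := by
        rw [zmod_zero_iff]
        exact ⟨z w i, by ring⟩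
      push_cast at this ⊢
      exact this
    · intro w w' h
      have h1 : (fun i => ((p * z w i : ℤ) : ZMod (p ^ (a + 1))))
          = fun i => ((p * z w' i : ℤ) : ZMod (p ^ (a + 1))) := congrArg Subtype.val h
      apply Subtype.ext
      ext i
      rw [← hz w i, ← hz w' i]
      have h2 : ((p * z w i : ℤ) : ZMod (p ^ (a + 1))) = ((p * z w' i : ℤ) : ZMod (p ^ (a + 1))) :=
        congrFun h1 i
      rw [← sub_eq_zero, ← Int.cast_sub, zmod_zero_iff] at h2 ⊢
      apply pow_dvd_of_mul hp a 1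
      rw [pow_one, mul_sub]
      exact h2

/-- `#ker(B mod p^(a+1)) = #ker(B mod p^a) #(p^a ker(B mod p^(a+1)))` -/
theorem ker_succ (B : Matrix ι ι ℤ) {p : ℕ} (hp : p.Prime) (a : ℕ) :
    kerN B (p ^ (a + 1)) = kerN B (p ^ a)
      * Nat.card (((nsmulAddMonoidHom (p ^ a)).comp (kerG B (p ^ (a + 1))).subtype).range) := by
  have := finite_zmod_pow hp (a + 1)
  set f : kerG B (p ^ (a + 1)) →+ (ι → ZMod (p ^ (a + 1))) :=
    (nsmulAddMonoidHom (p ^ a)).comp (kerG B (p ^ (a + 1))).subtype with hf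
  have h1 := AddSubgroup.card_eq_card_quotient_mul_card_addSubgroup f.ker
  have h2 : Nat.card (kerG B (p ^ (a + 1)) ⧸ f.ker) = Nat.card f.range :=
    Nat.card_congr (QuotientAddGroup.quotientKerEquivRange f).toEquiv
  have h3 : Nat.card f.ker = kerN B (p ^ a) := by
    rw [← ker_killed B hp a]
    refine Nat.card_congr
      { toFun := fun w => ⟨w.1.1, w.1.2, w.2⟩
        invFun := fun w => ⟨⟨w.1, w.2.1⟩, w.2.2⟩
        left_inv := fun w => rfl
        right_inv := fun w => rfl }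
  rw [kerN_eq, h1, h2, h3, mul_comm]

end general

section inter

variable {m : ℕ}

/-- `(A z) (i.succAbove j) = (D w) j + A (i.succAbove j) i * z i` -/
theorem mulVec_succAbove {R : Type*} [CommRing R] (A : Matrix (Fin (m + 1)) (Fin (m + 1)) R)
    (i : Fin (m + 1)) (z : Fin (m + 1) → R) (j : Fin m) :
    (A *ᵥ z) (i.succAbove j)
      = ((A.submatrix i.succAbove i.succAbove) *ᵥ (fun k => z (i.succAbove k))) j
        + A (i.succAbove j) i * z i := by
  simp only [Matrix.mulVec, dotProduct, Matrix.submatrix_apply]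
  rw [Fin.sum_univ_succAbove _ i]
  ring

/-- vectors killed by all rows of `A` but the `i`-th one -/
def kerK (A : Matrix (Fin (m + 1)) (Fin (m + 1)) ℤ) (i : Fin (m + 1)) (N : ℕ) :
    AddSubgroup (Fin (m + 1) → ZMod N) where
  carrier := {z | ∀ j : Fin m, ((A.map (fun a : ℤ => (a : ZMod N))) *ᵥ z) (i.succAbove j) = 0}
  add_mem' := fun {x y} hx hy => by
    intro j
    rw [Matrix.mulVec_add, Pi.add_apply, hx j, hy j, add_zero]
  zero_mem' := by
    intro j
    rw [Matrix.mulVec_zero]; rfl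
  neg_mem' := fun {x} hx => by
    intro j
    rw [Matrix.mulVec_neg, Pi.neg_apply, hx j, neg_zero]

/-- the last row -/
def rowHom (A : Matrix (Fin (m + 1)) (Fin (m + 1)) ℤ) (i : Fin (m + 1)) (N : ℕ) :
    kerK A i N →+ ZMod N where
  toFun z := ((A.map (fun a : ℤ => (a : ZMod N))) *ᵥ z.1) i
  map_zero' := by
    change ((A.map (fun a : ℤ => (a : ZMod N))) *ᵥ (0 : Fin (m + 1) → ZMod N)) i = 0
    rw [Matrix.mulVec_zero]; rfl
  map_add' x y := by
    change ((A.map (fun a : ℤ => (a : ZMod N))) *ᵥ (x.1 + y.1)) i = _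
    rw [Matrix.mulVec_add]; rfl

theorem mem_kerG_iff (A : Matrix (Fin (m + 1)) (Fin (m + 1)) ℤ) (i : Fin (m + 1)) (N : ℕ)
    (z : kerK A i N) : z.1 ∈ kerG A N ↔ rowHom A i N z = 0 := by
  rw [mem_kerG, funext_iff]
  constructor
  · intro h; exact h i
  · intro h j
    rcases Fin.eq_self_or_eq_succAbove i j with hj | ⟨k, hj⟩
    · rw [hj]; exact h
    · rw [hj]; exact z.2 k

theorem kerG_le_kerK (A : Matrix (Fin (m + 1)) (Fin (m + 1)) ℤ) (i : Fin (m + 1)) (N : ℕ) :
    kerG A N ≤ kerK A i N := by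
  intro z hz j
  have hz' : (A.map (fun a : ℤ => (a : ZMod N))) *ᵥ z = 0 := hz
  rw [hz']; rfl

/-- extend by zero at `i` -/
def extZ (i : Fin (m + 1)) (N : ℕ) : (Fin m → ZMod N) →+ (Fin (m + 1) → ZMod N) where
  toFun w := i.insertNth (0 : ZMod N) w
  map_zero' := by
    ext j
    rcases Fin.eq_self_or_eq_succAbove i j with hj | ⟨k, hj⟩
    · rw [hj]; simp
    · rw [hj]; simp
  map_add' x y := by
    ext j
    rcases Fin.eq_self_or_eq_succAbove i j with hj | ⟨k, hj⟩
    · rw [hj]; simp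
    · rw [hj]; simp

theorem extZ_inj (i : Fin (m + 1)) (N : ℕ) : Function.Injective (extZ i N) := by
  intro x y h
  ext k
  have h1 := congrFun h (i.succAbove k)
  change (i.insertNth (0 : ZMod N) x : Fin (m + 1) → ZMod N) (i.succAbove k)
    = (i.insertNth (0 : ZMod N) y : Fin (m + 1) → ZMod N) (i.succAbove k) at h1
  simpa using h1

theorem extZ_mem (A : Matrix (Fin (m + 1)) (Fin (m + 1)) ℤ) (i : Fin (m + 1)) (N : ℕ)
    {w : Fin m → ZMod N} (hw : w ∈ kerG (A.submatrix i.succAbove i.succAbove) N) :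
    extZ i N w ∈ kerK A i N := by
  intro j
  rw [mulVec_succAbove]
  have h1 : extZ i N w i = 0 := by
    change (i.insertNth (0 : ZMod N) w : Fin (m + 1) → ZMod N) i = 0
    simp
  have h2 : (fun k => extZ i N w (i.succAbove k)) = w := by
    ext k
    change (i.insertNth (0 : ZMod N) w : Fin (m + 1) → ZMod N) (i.succAbove k) = w k
    simp
  rw [h1, mul_zero, add_zero, h2]
  have h3 : ((A.map (fun a : ℤ => (a : ZMod N))).submatrix i.succAbove i.succAbove)
      = (A.submatrix i.succAbove i.succAbove).map (fun a : ℤ => (a : ZMod N)) := rfl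
  rw [h3]
  have hw' : ((A.submatrix i.succAbove i.succAbove).map (fun a : ℤ => (a : ZMod N))) *ᵥ w = 0 := hw
  rw [hw']; rfl

/-- **(i1)** `#ker(D mod N) ≤ N #ker(A mod N)` -/
theorem ker_sub_le (A : Matrix (Fin (m + 1)) (Fin (m + 1)) ℤ) (i : Fin (m + 1)) (N : ℕ)
    [NeZero N] : kerN (A.submatrix i.succAbove i.succAbove) N ≤ N * kerN A N := by
  have h1 : kerN (A.submatrix i.succAbove i.succAbove) N ≤ Nat.card (kerK A i N) := by
    refine Nat.card_le_card_of_injective
      (fun w => (⟨extZ i N w.1, extZ_mem A i N w.2⟩ : kerK A i N)) ?_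
    intro x y h
    have h2 : extZ i N x.1 = extZ i N y.1 := congrArg Subtype.val h
    exact Subtype.ext (extZ_inj i N h2)
  have h2 := AddSubgroup.card_eq_card_quotient_mul_card_addSubgroup (rowHom A i N).ker
  have h3 : Nat.card (kerK A i N ⧸ (rowHom A i N).ker) ≤ N := by
    rw [Nat.card_congr (QuotientAddGroup.quotientKerEquivRange (rowHom A i N)).toEquiv]
    calc Nat.card (rowHom A i N).range ≤ Nat.card (ZMod N) := AddSubgroup.card_le_card_addGroup _
      _ = N := Nat.card_zmod N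
  have h4 : Nat.card (rowHom A i N).ker = kerN A N := by
    refine Nat.card_congr
      { toFun := fun w => ⟨w.1.1, (mem_kerG_iff A i N w.1).2 w.2⟩
        invFun := fun w => ⟨⟨w.1, kerG_le_kerK A i N w.2⟩, (mem_kerG_iff A i N _).1 w.2⟩
        left_inv := fun w => rfl
        right_inv := fun w => rfl }
  rw [h4] at h2
  calc _ ≤ Nat.card (kerK A i N) := h1
    _ ≤ N * kerN A N := by rw [h2]; exact Nat.mul_le_mul_right _ h3

/-- **(i2)** the number of invariant factors divisible by `p^(a+1)` drops by at most one -/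
theorem ratio_sub_le (A : Matrix (Fin (m + 1)) (Fin (m + 1)) ℤ) (i : Fin (m + 1)) {p : ℕ}
    (hp : p.Prime) (a : ℕ) :
    kerN (A.submatrix i.succAbove i.succAbove) (p ^ (a + 1)) * kerN A (p ^ a)
      ≤ p * kerN A (p ^ (a + 1)) * kerN (A.submatrix i.succAbove i.succAbove) (p ^ a) := by
  have := finite_zmod_pow hp (a + 1)
  have : NeZero p := ⟨hp.pos.ne'⟩
  set D := A.submatrix i.succAbove i.succAbove with hD
  set N := p ^ (a + 1) with hN
  rw [ker_succ D hp a, ker_succ A hp a, ← hN]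
  -- `p^a K` for `K = kerK`
  set f : kerK A i N →+ (Fin (m + 1) → ZMod N) :=
    (nsmulAddMonoidHom (p ^ a)).comp (kerK A i N).subtype with hf
  have h1 : Nat.card (((nsmulAddMonoidHom (p ^ a)).comp (kerG D N).subtype).range)
      ≤ Nat.card f.range := by
    refine Nat.card_le_card_of_injective (fun w => (⟨extZ i N w.1, ?_⟩ : f.range)) ?_
    · obtain ⟨z, hz⟩ := w.2
      refine ⟨⟨extZ i N z.1, extZ_mem A i N z.2⟩, ?_⟩
      rw [← hz]
      change p ^ a • extZ i N z.1 = extZ i N (p ^ a • z.1)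
      rw [map_nsmul]
    · intro x y h
      have h2 : extZ i N x.1 = extZ i N y.1 := congrArg Subtype.val h
      exact Subtype.ext (extZ_inj i N h2)
  have h2 : Nat.card f.range
      ≤ p * Nat.card (((nsmulAddMonoidHom (p ^ a)).comp (kerG A N).subtype).range) := by
    -- a generator of the values of the last row
    obtain ⟨⟨c, g, hg⟩, hc⟩ := IsAddCyclic.exists_generator (α := (rowHom A i N).range)
    have hgen : ∀ z : kerK A i N, ∃ n : ℤ, z.1 - n • g.1 ∈ kerG A N := by
      intro z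
      obtain ⟨n, hn⟩ := AddSubgroup.mem_zmultiples_iff.1 (hc ⟨rowHom A i N z, z, rfl⟩)
      refine ⟨n, ?_⟩
      have h3 : n • c = rowHom A i N z := congrArg Subtype.val hn
      have h4 := (mem_kerG_iff A i N (z - n • g)).2 (by
        rw [map_sub, map_zsmul, hg, h3, sub_self])
      exact h4
    let F : ZMod p × (((nsmulAddMonoidHom (p ^ a)).comp (kerG A N).subtype).range) → f.range :=
      fun ny => ⟨(ny.1.val : ℤ) • (p ^ a • g.1) + ny.2.1, by
        obtain ⟨w, hw⟩ := ny.2.2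
        refine ⟨(ny.1.val : ℤ) • g + ⟨w.1, kerG_le_kerK A i N w.2⟩, ?_⟩
        rw [← hw]
        change p ^ a • ((ny.1.val : ℤ) • g.1 + w.1) = (ny.1.val : ℤ) • (p ^ a • g.1) + p ^ a • w.1
        rw [smul_add, smul_comm]⟩
    have hF : Function.Surjective F := by
      rintro ⟨y, z, hz⟩
      obtain ⟨n, hn⟩ := hgen z
      refine ⟨((n : ZMod p), ⟨p ^ a • (z.1 - n • g.1), ⟨⟨_, hn⟩, rfl⟩⟩), ?_⟩
      apply Subtype.ext
      change (((n : ZMod p)).val : ℤ) • (p ^ a • g.1) + p ^ a • (z.1 - n • g.1) = y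
      rw [← hz]
      change _ = p ^ a • z.1
      have h5 : ((((n : ZMod p)).val : ℤ) : ZMod p) = (n : ZMod p) := by simp
      obtain ⟨r, hr⟩ := (ZMod.intCast_eq_intCast_iff_dvd_sub _ _ _).1 h5
      have h6 : n = (((n : ZMod p)).val : ℤ) + p * r := by linarith
      have h7 : n • (p ^ a • g.1) = (((n : ZMod p)).val : ℤ) • (p ^ a • g.1) := by
        conv_lhs => rw [h6]
        rw [add_smul]
        have h8 : ((p : ℤ) * r) • (p ^ a • g.1) = 0 := by
          ext j
          change ((p : ℤ) * r) • (p ^ a • g.1 j) = 0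
          rw [nsmul_eq_mul, zsmul_eq_mul]
          obtain ⟨t, ht⟩ := ZMod.intCast_surjective (g.1 j)
          rw [← ht]
          have h9 : ((((p : ℤ) * r) * ((p : ℤ) ^ a * t) : ℤ) : ZMod (p ^ (a + 1))) = 0 := by
            rw [zmod_zero_iff]
            exact ⟨r * t, by ring⟩
          push_cast at h9 ⊢
          exact h9
        rw [h8, add_zero]
      rw [smul_sub, smul_comm (p ^ a) n, h7]
      abel
    calc Nat.card f.range ≤ Nat.card (ZMod p × (((nsmulAddMonoidHom (p ^ a)).comp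
          (kerG A N).subtype).range)) := Nat.card_le_card_of_surjective F hF
      _ = _ := by rw [Nat.card_prod, Nat.card_zmod]
  have h3 := h1.trans h2
  calc kerN D (p ^ a) * Nat.card (((nsmulAddMonoidHom (p ^ a)).comp (kerG D N).subtype).range)
        * kerN A (p ^ a)
      ≤ kerN D (p ^ a) * (p * Nat.card (((nsmulAddMonoidHom (p ^ a)).comp
          (kerG A N).subtype).range)) * kerN A (p ^ a) :=
        Nat.mul_le_mul_right _ (Nat.mul_le_mul_left _ h3)
    _ = _ := by ring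

/-- if `D` has three invariant factors divisible by `p^(a+1)`, then `A` has two -/
theorem two_of_three (A : Matrix (Fin (m + 1)) (Fin (m + 1)) ℤ) (i : Fin (m + 1)) {p : ℕ}
    (hp : p.Prime) (a : ℕ)
    (h : p ^ 3 * kerN (A.submatrix i.succAbove i.succAbove) (p ^ a)
      ≤ kerN (A.submatrix i.succAbove i.succAbove) (p ^ (a + 1))) :
    p ^ 2 * kerN A (p ^ a) ≤ kerN A (p ^ (a + 1)) := by
  have := finite_zmod_pow hp a
  have h1 := ratio_sub_le A i hp a
  have h2 : 0 < kerN (A.submatrix i.succAbove i.succAbove) (p ^ a) := kerN_pos _ _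
  have h3 : p * kerN (A.submatrix i.succAbove i.succAbove) (p ^ a) * (p ^ 2 * kerN A (p ^ a))
      ≤ p * kerN (A.submatrix i.succAbove i.succAbove) (p ^ a) * kerN A (p ^ (a + 1)) := by
    calc p * kerN (A.submatrix i.succAbove i.succAbove) (p ^ a) * (p ^ 2 * kerN A (p ^ a))
        = p ^ 3 * kerN (A.submatrix i.succAbove i.succAbove) (p ^ a) * kerN A (p ^ a) := by ring
      _ ≤ kerN (A.submatrix i.succAbove i.succAbove) (p ^ (a + 1)) * kerN A (p ^ a) :=
          Nat.mul_le_mul_right _ h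
      _ ≤ _ := h1
      _ = _ := by ring
  exact Nat.le_of_mul_le_mul_left h3 (Nat.mul_pos hp.pos h2)

end inter

end Pool.Agent.Lib.SymNC
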