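import Pool.Agent.Lib.SymNC.Abs

/-!
# Labels for the isotropic vectors of a nonsingular symmetric integer matrix at a prime

`D` symmetric integer, `p^k` exactly divides `det D`. `intP D p k u v` says that `uᵀ D⁻¹ v` is
`p`-integral, `ordP D p k β u` that `p^β D⁻¹ u` is `p`-integral, `kerN D N` is the number of solutions of
`D w = 0` modulo `N`.
-/

set_option autoImplicit false

open scoped Classical Matrix

namespace Pool.Agent.Lib.SymNC

variable {ι : Type*} [Fintype ι] [DecidableEq ι]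

/-- number of solutions of `D w = 0` modulo `N` -/
noncomputable def kerN (D : Matrix ι ι ℤ) (N : ℕ) : ℕ :=
  Nat.card {w : ι → ZMod N // (D.map (fun a : ℤ => (a : ZMod N))) *ᵥ w = 0}

/-- `uᵀ D⁻¹ v` is `p`-integral -/
def intP (D : Matrix ι ι ℤ) (p k : ℕ) (u v : ι → ℤ) : Prop :=
  (p : ℤ) ^ k ∣ u ⬝ᵥ (D.adjugate *ᵥ v)

/-- `p^β D⁻¹ u` is `p`-integral -/
def ordP (D : Matrix ι ι ℤ) (p k β : ℕ) (u : ι → ℤ) : Prop :=
  ∀ i, (p : ℤ) ^ k ∣ (p : ℤ) ^ β * (D.adjugate *ᵥ u) i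

/-- `u ↦ adj(D) u` modulo `p^k` -/
def piP (D : Matrix ι ι ℤ) (p k : ℕ) : (ι → ℤ) →+ (ι → ZMod (p ^ k)) where
  toFun u := fun i => (((D.adjugate *ᵥ u) i : ℤ) : ZMod (p ^ k))
  map_zero' := by ext i; simp
  map_add' u v := by ext i; simp [Matrix.mulVec_add]

/-- evaluation -/
def evP (p k : ℕ) : (ι → ZMod (p ^ k)) →+ (ι → ℤ) →+ ZMod (p ^ k) where
  toFun w :=
    { toFun := fun u => ∑ i, ((u i : ℤ) : ZMod (p ^ k)) * w i
      map_zero' := by simp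
      map_add' := fun u v => by
        rw [← Finset.sum_add_distrib]
        refine Finset.sum_congr rfl fun i _ => ?_
        rw [Pi.add_apply]; push_cast; ring }
  map_zero' := by
    refine AddMonoidHom.ext fun u => ?_
    change ∑ i, ((u i : ℤ) : ZMod (p ^ k)) * (0 : ι → ZMod (p ^ k)) i = 0
    simp
  map_add' w w' := by
    refine AddMonoidHom.ext fun u => ?_
    change ∑ i, ((u i : ℤ) : ZMod (p ^ k)) * (w + w') i
      = ∑ i, ((u i : ℤ) : ZMod (p ^ k)) * w i + ∑ i, ((u i : ℤ) : ZMod (p ^ k)) * w' i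
    rw [← Finset.sum_add_distrib]
    refine Finset.sum_congr rfl fun i _ => ?_
    rw [Pi.add_apply]; ring

theorem evP_piP (D : Matrix ι ι ℤ) (p k : ℕ) (u v : ι → ℤ) :
    evP p k (piP D p k u) v = ((v ⬝ᵥ (D.adjugate *ᵥ u) : ℤ) : ZMod (p ^ k)) := by
  change ∑ i, ((v i : ℤ) : ZMod (p ^ k)) * (((D.adjugate *ᵥ u) i : ℤ) : ZMod (p ^ k)) = _
  rw [dotProduct]
  push_cast
  rfl

theorem adj_symm {D : Matrix ι ι ℤ} (hD : D.IsSymm) (u v : ι → ℤ) :
    u ⬝ᵥ (D.adjugate *ᵥ v) = v ⬝ᵥ (D.adjugate *ᵥ u) := by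
  have h1 : D.adjugateᵀ = D.adjugate := by
    rw [Matrix.adjugate_transpose, hD.eq]
  rw [Matrix.dotProduct_mulVec, ← Matrix.mulVec_transpose, h1, dotProduct_comm]

theorem evP_sym {D : Matrix ι ι ℤ} (hD : D.IsSymm) (p k : ℕ) (u v : ι → ℤ) :
    evP p k (piP D p k u) v = evP p k (piP D p k v) u := by
  rw [evP_piP, evP_piP, adj_symm hD]

theorem evP_zero_iff {D : Matrix ι ι ℤ} (hD : D.IsSymm) (p k : ℕ) (u v : ι → ℤ) :
    evP p k (piP D p k u) v = 0 ↔ intP D p k u v := by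
  rw [evP_piP, zmod_zero_iff, intP, adj_symm hD]

theorem evP_inj (p k : ℕ) (w : ι → ZMod (p ^ k)) (h : ∀ v, evP p k w v = 0) : w = 0 := by
  ext i
  have h1 := h (Pi.single i 1)
  change ∑ j, (((Pi.single i (1 : ℤ) : ι → ℤ) j : ℤ) : ZMod (p ^ k)) * w j = 0 at h1
  rw [Finset.sum_eq_single i] at h1
  · simpa using h1
  · intro j _ hj
    rw [Pi.single_eq_of_ne hj]; simp
  · intro h; exact absurd (Finset.mem_univ i) h

theorem ordP_iff (D : Matrix ι ι ℤ) (p k β : ℕ) (u : ι → ℤ) :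
    p ^ β • piP D p k u = 0 ↔ ordP D p k β u := by
  rw [funext_iff]
  refine forall_congr' fun i => ?_
  rw [← zmod_zero_iff]
  change p ^ β • (((D.adjugate *ᵥ u) i : ℤ) : ZMod (p ^ k)) = 0 ↔ _
  rw [nsmul_eq_mul]
  push_cast
  rfl

theorem finite_zmod_pow {p : ℕ} (hp : p.Prime) (k : ℕ) : NeZero (p ^ k) :=
  ⟨(pow_pos hp.pos k).ne'⟩

omit [DecidableEq ι] in
/-- the kernel condition in terms of an integer lift -/
theorem ker_lift (D : Matrix ι ι ℤ) (N : ℕ) (z : ι → ℤ) :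
    (D.map (fun a : ℤ => (a : ZMod N))) *ᵥ (fun i => ((z i : ℤ) : ZMod N)) = 0
      ↔ ∀ i, (N : ℤ) ∣ (D *ᵥ z) i := by
  rw [funext_iff]
  refine forall_congr' fun i => ?_
  rw [← ZMod.intCast_zmod_eq_zero_iff_dvd]
  simp only [Matrix.mulVec, dotProduct, Matrix.map_apply, Pi.zero_apply]
  push_cast
  rfl

theorem tors_le_ker {D : Matrix ι ι ℤ} {p k β : ℕ} (hp : p.Prime) (hk : (p : ℤ) ^ k ∣ D.det)
    (hβ : β ≤ k) : tors (piP D p k) p β ≤ kerN D (p ^ β) := by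
  have := finite_zmod_pow hp k
  have := finite_zmod_pow hp β
  obtain ⟨d, hd⟩ := hk
  have hpk : (p : ℤ) ^ k = (p : ℤ) ^ (k - β) * (p : ℤ) ^ β := by
    rw [← pow_add]; congr 1; omega
  have hne : (p : ℤ) ^ (k - β) ≠ 0 := pow_ne_zero _ (int_prime hp).ne_zero
  have hne' : (p : ℤ) ^ β ≠ 0 := pow_ne_zero _ (int_prime hp).ne_zero
  have key : ∀ w : {w : ι → ZMod (p ^ k) // w ∈ (piP D p k).range ∧ p ^ β • w = 0},
      ∃ z : ι → ℤ, (∀ i, (((p : ℤ) ^ (k - β) * z i : ℤ) : ZMod (p ^ k)) = w.1 i) ∧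
        ∀ i, ((p ^ β : ℕ) : ℤ) ∣ (D *ᵥ z) i := by
    rintro ⟨w, ⟨u, rfl⟩, hw⟩
    rw [ordP_iff] at hw
    have h1 : ∀ i, ∃ z : ℤ, (D.adjugate *ᵥ u) i = (p : ℤ) ^ (k - β) * z := by
      intro i
      have h2 := hw i
      rw [hpk, mul_comm ((p : ℤ) ^ (k - β))] at h2
      exact (mul_dvd_mul_iff_left hne').1 h2
    choose z hz using h1
    refine ⟨z, fun i => ?_, fun i => ?_⟩
    · rw [← hz]; rfl
    · have h3 : D *ᵥ (D.adjugate *ᵥ u) = D.det • u := by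
        rw [Matrix.mulVec_mulVec, Matrix.mul_adjugate, Matrix.smul_mulVec, Matrix.one_mulVec]
      have h4 : D.adjugate *ᵥ u = (p : ℤ) ^ (k - β) • z := by
        ext i; rw [hz]; rfl
      rw [h4, Matrix.mulVec_smul] at h3
      have h5 := congrFun h3 i
      simp only [Pi.smul_apply, smul_eq_mul] at h5
      rw [hd, hpk, mul_assoc, mul_assoc] at h5
      have h6 := mul_left_cancel₀ hne h5
      push_cast
      exact ⟨d * u i, h6⟩
  choose z hz1 hz2 using key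
  let F : {w : ι → ZMod (p ^ k) // w ∈ (piP D p k).range ∧ p ^ β • w = 0} →
      {w : ι → ZMod (p ^ β) // (D.map (fun a : ℤ => (a : ZMod (p ^ β)))) *ᵥ w = 0} :=
    fun w => ⟨fun i => ((z w i : ℤ) : ZMod (p ^ β)), (ker_lift D (p ^ β) (z w)).2 (hz2 w)⟩
  refine Nat.card_le_card_of_injective F ?_
  intro w w' h
  have h1 : (fun i => ((z w i : ℤ) : ZMod (p ^ β))) = fun i => ((z w' i : ℤ) : ZMod (p ^ β)) :=
    congrArg Subtype.val h
  apply Subtype.ext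
  ext i
  rw [← hz1 w i, ← hz1 w' i]
  have h2 : ((z w i : ℤ) : ZMod (p ^ β)) = ((z w' i : ℤ) : ZMod (p ^ β)) := congrFun h1 i
  rw [← sub_eq_zero, ← Int.cast_sub, zmod_zero_iff] at h2 ⊢
  obtain ⟨y, hy⟩ := h2
  exact ⟨y, by rw [← mul_sub, hy, hpk]; ring⟩

theorem ker_le_tors {D : Matrix ι ι ℤ} {p k β : ℕ} (hp : p.Prime) (hk : (p : ℤ) ^ k ∣ D.det)
    (hk' : ¬ (p : ℤ) ^ (k + 1) ∣ D.det) (hβ : β ≤ k) :
    kerN D (p ^ β) ≤ tors (piP D p k) p β := by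
  have := finite_zmod_pow hp k
  have := finite_zmod_pow hp β
  obtain ⟨d, hd⟩ := hk
  have hd' : ¬ (p : ℤ) ∣ d := by
    rintro ⟨y, rfl⟩
    exact hk' ⟨y, by rw [hd, pow_succ]; ring⟩
  have hpk : (p : ℤ) ^ k = (p : ℤ) ^ β * (p : ℤ) ^ (k - β) := by
    rw [← pow_add]; congr 1; omega
  have hne' : (p : ℤ) ^ β ≠ 0 := pow_ne_zero _ (int_prime hp).ne_zero
  have key : ∀ w : {w : ι → ZMod (p ^ β) // (D.map (fun a : ℤ => (a : ZMod (p ^ β)))) *ᵥ w = 0},
      ∃ (z : ι → ℤ) (u : ι → ℤ), (∀ i, ((z i : ℤ) : ZMod (p ^ β)) = w.1 i) ∧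
        ∀ i, (D.adjugate *ᵥ u) i = (p : ℤ) ^ (k - β) * d * z i := by
    intro w
    have h0 : ∀ i, ∃ z : ℤ, ((z : ℤ) : ZMod (p ^ β)) = w.1 i := fun i => ZMod.intCast_surjective _
    choose z hz using h0
    have h1 : (fun i => ((z i : ℤ) : ZMod (p ^ β))) = w.1 := funext hz
    have h2 := w.2
    rw [← h1, ker_lift] at h2
    choose u hu using h2
    refine ⟨z, u, hz, fun i => ?_⟩
    have h3 : D.adjugate *ᵥ (D *ᵥ z) = D.det • z := by
      rw [Matrix.mulVec_mulVec, Matrix.adjugate_mul, Matrix.smul_mulVec, Matrix.one_mulVec]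
    have h4 : D *ᵥ z = ((p ^ β : ℕ) : ℤ) • u := by
      ext i; rw [hu]; rfl
    rw [h4, Matrix.mulVec_smul] at h3
    have h5 := congrFun h3 i
    simp only [Pi.smul_apply, smul_eq_mul] at h5
    push_cast at h5
    rw [hd, hpk, mul_assoc, mul_assoc] at h5
    have h6 := mul_left_cancel₀ hne' h5
    rw [h6]; ring
  choose z u hz hu using key
  let F : {w : ι → ZMod (p ^ β) // (D.map (fun a : ℤ => (a : ZMod (p ^ β)))) *ᵥ w = 0} →
      {w : ι → ZMod (p ^ k) // w ∈ (piP D p k).range ∧ p ^ β • w = 0} :=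
    fun w => ⟨piP D p k (u w), ⟨u w, rfl⟩, by
      rw [ordP_iff]
      intro i
      rw [hu, hpk]
      exact ⟨d * z w i, by ring⟩⟩
  refine Nat.card_le_card_of_injective F ?_
  intro w w' h
  have h1 : piP D p k (u w) = piP D p k (u w') := congrArg Subtype.val h
  apply Subtype.ext
  ext i
  rw [← hz w i, ← hz w' i]
  have h2 := congrFun h1 i
  change (((D.adjugate *ᵥ (u w)) i : ℤ) : ZMod (p ^ k))
    = (((D.adjugate *ᵥ (u w')) i : ℤ) : ZMod (p ^ k)) at h2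
  rw [hu, hu] at h2
  rw [← sub_eq_zero, ← Int.cast_sub, zmod_zero_iff] at h2 ⊢
  have h3 : (p : ℤ) ^ (k - β) * d * z w i - (p : ℤ) ^ (k - β) * d * z w' i
      = (p : ℤ) ^ (k - β) * (d * (z w i - z w' i)) := by ring
  rw [h3] at h2
  apply pow_dvd_cancel hp β hd'
  apply pow_dvd_of_mul hp β (k - β)
  have h4 : β + (k - β) = k := by omega
  rw [h4]
  exact h2

/-- **Labels at a prime.** -/
theorem labels {D : Matrix ι ι ℤ} (hD : D.IsSymm) {p : ℕ} (hp : p.Prime) (k : ℕ)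
    (hk : (p : ℤ) ^ k ∣ D.det) (hk' : ¬ (p : ℤ) ^ (k + 1) ∣ D.det) :
    ∃ (s : ℕ) (lab : (ι → ℤ) → ℕ), s ≤ k ∧
      (∀ u v, intP D p k u u → intP D p k v v → lab u = lab v → intP D p k u v) ∧
      (∀ u v, ordP D p k 0 (u - v) → lab u = lab v) ∧
      (∀ β : ℕ, (lab '' {u | intP D p k u u ∧ ordP D p k β u}).ncard
        ≤ 4 * (k + 2) * kerN D (p ^ (min β s))) ∧
      (∀ β < s, p ^ 3 * kerN D (p ^ β) ≤ kerN D (p ^ (β + 1))) ∧
      (s = 0 → p ≠ 2 → ∃ e ≤ k, (∀ u, lab u ≤ e) ∧ p ^ (2 * e) ≤ kerN D (p ^ e)) := by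
  have := finite_zmod_pow hp k
  obtain ⟨s, lab, hsk, h1, h2, h3, h4⟩ :=
    labels_abs hp k (piP D p k) (evP p k) (evP_sym hD p k) (evP_inj p k)
  refine ⟨s, fun u => lab (piP D p k u), hsk, ?_, ?_, ?_, ?_, ?_⟩
  · intro u v hu hv h
    rw [← evP_zero_iff hD] at hu hv ⊢
    exact h1 u v hu hv h
  · intro u v h
    rw [← ordP_iff, pow_zero, one_smul, map_sub, sub_eq_zero] at h
    change lab _ = lab _
    rw [h]
  · intro β
    have h5 := h2 β
    have h6 : {u | intP D p k u u ∧ ordP D p k β u}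
        = {u | evP p k (piP D p k u) u = 0 ∧ p ^ β • piP D p k u = 0} := by
      refine Set.ext fun u => ?_
      exact and_congr (evP_zero_iff hD p k u u).symm (ordP_iff D p k β u).symm
    rw [h6]
    exact h5.trans (Nat.mul_le_mul_left _ (tors_le_ker hp hk (by omega)))
  · intro β hβ
    calc p ^ 3 * kerN D (p ^ β) ≤ p ^ 3 * tors (piP D p k) p β :=
          Nat.mul_le_mul_left _ (ker_le_tors hp hk hk' (by omega))
      _ ≤ tors (piP D p k) p (β + 1) := h3 β hβ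
      _ ≤ _ := tors_le_ker hp hk (by omega)
  · intro hs hp2
    obtain ⟨e, hek, he1, he2⟩ := h4 hs hp2
    exact ⟨e, hek, fun u => he1 _, he2.trans (tors_le_ker hp hk hek)⟩

end Pool.Agent.Lib.SymNC
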