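import Mathlib

/-!
# Many large pivots

`many_pivots`: outside a set of graphs of relative size `2^(-(1-e)n)`, every real kernel vector of the
adjacency matrix has more than `g n` coordinates of size at least `n^(-4)` times the largest one.
The proof is deterministic: among the rows of the block outside the large coordinates one takes the
square block of maximal determinant.
-/

set_option autoImplicit false

open scoped Classical

namespace Pool.Agent.Lib.SymNC

/-! ## The slab lemma -/

/-- if all rows have small product with a vector with a coordinate of modulus one, then fewer than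
`card κ` rows force small products with every bounded vector orthogonal to them -/
theorem slab {κ I : Type} [Fintype κ] [Fintype I] (r : I → κ → ℝ) (x : κ → ℝ)
    (k0 : κ) (hx : |x k0| = 1) (δ : ℝ) (hδ : 0 < δ) (h : ∀ i, |∑ k, r i k * x k| ≤ δ) :
    ∃ R : Finset I, R.card < Fintype.card κ ∧
      ∀ w : κ → ℝ, (∀ i ∈ R, ∑ k, r i k * w k = 0) → (∀ k, |w k| ≤ 1) →
        ∀ i, |∑ k, r i k * w k| ≤ Fintype.card κ * δ := by
  have hcard : 0 < Fintype.card κ := Fintype.card_pos_iff.2 ⟨k0⟩
  obtain ⟨J, a, ha, hspan, hli⟩ := exists_linearIndependent' ℝ r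
  have hJfin : Finite J := Finite.of_injective a ha
  have : Fintype J := Fintype.ofFinite J
  have hJle : Fintype.card J ≤ Fintype.card κ := by
    have := hli.fintype_card_le_finrank
    simpa using this
  rcases lt_or_eq_of_le hJle with hlt | heq
  · -- the rows do not span
    refine ⟨Finset.univ.image a, ?_, ?_⟩
    · rw [Finset.card_image_of_injective _ ha]
      simpa using hlt
    · intro w hw _ i
      have h1 : r i ∈ Submodule.span ℝ (Set.range (r ∘ a)) := by
        rw [hspan]
        exact Submodule.subset_span ⟨i, rfl⟩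
      have h2 : ∀ v ∈ Submodule.span ℝ (Set.range (r ∘ a)), ∑ k, v k * w k = 0 := by
        intro v hv
        induction hv using Submodule.span_induction with
        | mem v hv =>
          obtain ⟨j, rfl⟩ := hv
          exact hw (a j) (Finset.mem_image_of_mem a (Finset.mem_univ j))
        | zero => simp
        | add u v _ _ hu hv =>
          simp only [Pi.add_apply, add_mul, Finset.sum_add_distrib, hu, hv, add_zero]
        | smul c v _ hv =>
          simp only [Pi.smul_apply, smul_eq_mul, mul_assoc, ← Finset.mul_sum, hv, mul_zero]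
      rw [h2 _ h1]
      simp only [abs_zero]
      positivity
  · -- a square block of maximal determinant
    have hne : Nonempty (κ → I) := by
      have : Nonempty J := by
        have : 0 < Fintype.card J := by omega
        exact Fintype.card_pos_iff.1 this
      exact ⟨fun _ => a (Classical.arbitrary J)⟩
    obtain ⟨e, he⟩ := Finite.exists_max (fun e : κ → I => |(Matrix.of fun p q => r (e p) q).det|)
    have hdet : (Matrix.of fun p q => r (e p) q).det ≠ 0 := by
      have eq : κ ≃ J := Fintype.equivOfCardEq heq.symm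
      have h3 : (Matrix.of fun p q => r (a (eq p)) q).det ≠ 0 := by
        have h4 : LinearIndependent ℝ (Matrix.of fun p q => r (a (eq p)) q).row := by
          have := hli.comp eq eq.injective
          exact this
        have h5 := Matrix.linearIndependent_rows_iff_isUnit.1 h4
        exact ((Matrix.isUnit_iff_isUnit_det _).1 h5).ne_zero
      have h4 := he (fun p => a (eq p))
      intro h5
      rw [h5, abs_zero] at h4
      exact h3 (abs_eq_zero.1 (le_antisymm h4 (abs_nonneg _)))
    set M : Matrix κ κ ℝ := Matrix.of fun p q => r (e p) q with hM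
    have hMu : IsUnit M.det := isUnit_iff_ne_zero.2 hdet
    -- the coordinate j0
    have hxM : x = M⁻¹.mulVec (M.mulVec x) := by
      rw [Matrix.mulVec_mulVec, Matrix.nonsing_inv_mul _ hMu, Matrix.one_mulVec]
    have hMx : ∀ p, |M.mulVec x p| ≤ δ := by
      intro p
      exact h (e p)
    have hj : ∃ j0 : κ, 1 / (Fintype.card κ * δ) ≤ |M⁻¹ k0 j0| := by
      by_contra hcon
      push Not at hcon
      have h6 : |x k0| < 1 := by
        calc |x k0| = |∑ p, M⁻¹ k0 p * M.mulVec x p| := by
              conv_lhs => rw [hxM]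
              rfl
          _ ≤ ∑ p, |M⁻¹ k0 p * M.mulVec x p| := Finset.abs_sum_le_sum_abs _ _
          _ ≤ ∑ p, |M⁻¹ k0 p| * δ := by
              apply Finset.sum_le_sum
              intro p _
              rw [abs_mul]
              exact mul_le_mul_of_nonneg_left (hMx p) (abs_nonneg _)
          _ < ∑ p : κ, 1 / (Fintype.card κ * δ) * δ := by
              apply Finset.sum_lt_sum_of_nonempty ⟨k0, Finset.mem_univ _⟩
              intro p _
              exact mul_lt_mul_of_pos_right (hcon p) hδ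
          _ = 1 := by
              rw [Finset.sum_const, Finset.card_univ, nsmul_eq_mul]
              have : (Fintype.card κ : ℝ) ≠ 0 := by positivity
              field_simp
      linarith
    obtain ⟨j0, hj0⟩ := hj
    refine ⟨(Finset.univ.erase j0).image e, ?_, ?_⟩
    · refine lt_of_le_of_lt Finset.card_image_le ?_
      rw [Finset.card_erase_of_mem (Finset.mem_univ _), Finset.card_univ]
      omega
    · intro w hw hw1 i
      set t : ℝ := M.mulVec w j0 with ht
      have hMw : M.mulVec w = Pi.single j0 t := by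
        funext p
        by_cases hp : p = j0
        · subst hp
          simp [ht]
        · rw [Pi.single_eq_of_ne hp]
          exact hw (e p) (Finset.mem_image_of_mem e (Finset.mem_erase.2 ⟨hp, Finset.mem_univ _⟩))
      have hwk : w k0 = M⁻¹ k0 j0 * t := by
        have h7 : w = M⁻¹.mulVec (M.mulVec w) := by
          rw [Matrix.mulVec_mulVec, Matrix.nonsing_inv_mul _ hMu, Matrix.one_mulVec]
        rw [hMw] at h7
        have h8 := congrFun h7 k0
        rw [h8]
        simp [Matrix.mulVec_single]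
      have ht1 : |t| ≤ Fintype.card κ * δ := by
        have h9 := hw1 k0
        rw [hwk, abs_mul] at h9
        have hpos : 0 < (Fintype.card κ : ℝ) * δ := by positivity
        have h10 : 1 / (Fintype.card κ * δ) * |t| ≤ 1 :=
          le_trans (mul_le_mul_of_nonneg_right hj0 (abs_nonneg t)) h9
        rw [div_mul_eq_mul_div, one_mul, div_le_one hpos] at h10
        exact h10
      -- Cramer coefficients
      set c : κ → ℝ := (M.det)⁻¹ • M.transpose.cramer (r i) with hc
      have hcM : M.transpose.mulVec c = r i := by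
        rw [hc, Matrix.mulVec_smul, Matrix.mulVec_cramer, Matrix.det_transpose, smul_smul,
          inv_mul_cancel₀ hdet, one_smul]
      have hc1 : |c j0| ≤ 1 := by
        rw [hc, Pi.smul_apply, Matrix.cramer_transpose_apply, smul_eq_mul, abs_mul, abs_inv]
        have h11 : (M.updateRow j0 (r i)) = Matrix.of fun p q => r (Function.update e j0 i p) q := by
          ext p q
          by_cases hp : p = j0
          · subst hp
            simp
          · simp [hp, hM]
        rw [h11]
        have h12 := he (Function.update e j0 i)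
        have hpos : 0 < |M.det| := abs_pos.2 hdet
        rw [inv_mul_le_iff₀ hpos, mul_one]
        exact h12
      have h13 : ∑ k, r i k * w k = c j0 * t := by
        have h14 : ∑ k, r i k * w k = ∑ p, c p * M.mulVec w p := by
          calc ∑ k, r i k * w k = (M.transpose.mulVec c) ⬝ᵥ w := by
                rw [hcM]; rfl
            _ = c ⬝ᵥ M.mulVec w := by
                rw [Matrix.mulVec_transpose, Matrix.dotProduct_mulVec]
            _ = ∑ p, c p * M.mulVec w p := rfl
        rw [h14, hMw]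
        simp [Pi.single_apply]
      rw [h13, abs_mul]
      calc |c j0| * |t| ≤ 1 * (Fintype.card κ * δ) :=
            mul_le_mul hc1 ht1 (abs_nonneg _) (by norm_num)
        _ = _ := one_mul _


/-! ## Counting -/

theorem exists_half_inj {X : Type} [Fintype X] [Nonempty X] (T : Finset X)
    (hT : 2 * T.card ≤ Fintype.card X) :
    ∃ φ : X × Bool → X, ∀ p q : X × Bool, p.1 ∈ T → q.1 ∈ T → φ p = φ q → p = q := by
  have h1 : Fintype.card {p : X × Bool // p.1 ∈ T} ≤ Fintype.card X := by
    rw [Fintype.card_subtype]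
    have h2 : (Finset.univ.filter fun p : X × Bool => p.1 ∈ T) = T ×ˢ Finset.univ := by
      ext p
      simp
    rw [h2, Finset.card_product]
    simp only [Finset.card_univ, Fintype.card_bool]
    omega
  obtain ⟨ι⟩ := Function.Embedding.nonempty_of_card_le h1
  refine ⟨fun p => if h : p.1 ∈ T then ι ⟨p, h⟩ else Classical.arbitrary X, ?_⟩
  intro p q hp hq h
  simp only [hp, hq, dif_pos] at h
  exact congrArg Subtype.val (ι.injective h)

/-- if outside `R` every value lies in a set of at most half the size which depends only on the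
values on `R`, then the number of functions drops by `2^(-|Rᶜ|)` -/
theorem fiber_count {I X : Type} [Fintype I] [Fintype X] [Nonempty X] (R : Finset I)
    (T : (I → X) → Finset X) (hT : ∀ f g : I → X, (∀ i ∈ R, f i = g i) → T f = T g)
    (h2 : ∀ f, 2 * (T f).card ≤ Fintype.card X) :
    Nat.card {f : I → X // ∀ i, i ∉ R → f i ∈ T f} * 2 ^ Fintype.card I ≤
      2 ^ R.card * Fintype.card X ^ Fintype.card I := by
  choose! φ hφ using fun S : Finset X => fun hS : 2 * S.card ≤ Fintype.card X =>
    exists_half_inj S hS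
  have key : Nat.card {f : I → X // ∀ i, i ∉ R → f i ∈ T f} * Nat.card ({i // i ∉ R} → Bool) ≤
      Nat.card (I → X) := by
    rw [← Nat.card_prod]
    refine Nat.card_le_card_of_injective
      (fun p : {f : I → X // ∀ i, i ∉ R → f i ∈ T f} × ({i // i ∉ R} → Bool) =>
        (fun i => if h : i ∈ R then p.1.1 i else φ (T p.1.1) (p.1.1 i, p.2 ⟨i, h⟩) : I → X)) ?_
    rintro ⟨⟨f, hf⟩, b⟩ ⟨⟨g, hg⟩, c⟩ h
    simp only at h
    have hR : ∀ i ∈ R, f i = g i := by
      intro i hi
      have := congrFun h i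
      simpa [hi] using this
    have hTT := hT f g hR
    have hout : ∀ i (hi : i ∉ R), (f i, b ⟨i, hi⟩) = (g i, c ⟨i, hi⟩) := by
      intro i hi
      have := congrFun h i
      simp only [hi, dif_neg, not_false_eq_true] at this
      rw [hTT] at this
      exact hφ (T g) (h2 g) _ _ (by rw [← hTT]; exact hf i hi) (hg i hi) this
    have hfg : f = g := by
      funext i
      by_cases hi : i ∈ R
      · exact hR i hi
      · exact congrArg Prod.fst (hout i hi)
    have hbc : b = c := by
      funext i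
      exact congrArg Prod.snd (hout i.1 i.2)
    subst hfg
    subst hbc
    rfl
  have e1 : Nat.card ({i // i ∉ R} → Bool) * 2 ^ R.card = 2 ^ Fintype.card I := by
    rw [Nat.card_eq_fintype_card, Fintype.card_fun, Fintype.card_bool, ← pow_add]
    congr 1
    have h3 : Fintype.card {i // i ∉ R} = Fintype.card I - R.card := by
      rw [Fintype.card_subtype_compl]
      simp
    rw [h3]
    have := Finset.card_le_univ R
    omega
  have e2 : Nat.card (I → X) = Fintype.card X ^ Fintype.card I := by
    rw [Nat.card_eq_fintype_card, Fintype.card_fun]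
  rw [e2] at key
  calc _ = (Nat.card {f : I → X // ∀ i, i ∉ R → f i ∈ T f} * Nat.card ({i // i ∉ R} → Bool)) *
        2 ^ R.card := by rw [← e1, mul_assoc]
    _ ≤ Fintype.card X ^ Fintype.card I * 2 ^ R.card := Nat.mul_le_mul_right _ key
    _ = _ := mul_comm _ _

/-- the real value of a bit -/
noncomputable def bit (b : Bool) : ℝ := if b then 1 else 0

theorem half_rows {κ : Type} [Fintype κ] (w : κ → ℝ) (k : κ) (hk : |w k| = 1) :
    2 * (Finset.univ.filter fun r : κ → Bool => |∑ j, bit (r j) * w j| < 1 / 2).card ≤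
      Fintype.card (κ → Bool) := by
  set A := Finset.univ.filter fun r : κ → Bool => |∑ j, bit (r j) * w j| < 1 / 2 with hA
  let σ : (κ → Bool) → (κ → Bool) := fun r => Function.update r k (!(r k))
  have hσ : Function.Injective σ := by
    intro r r' h
    have h1 : r k = r' k := by
      have := congrFun h k
      simp only [σ, Function.update_self] at this
      exact Bool.not_inj this
    funext j
    by_cases hj : j = k
    · rw [hj, h1]
    · have := congrFun h j
      simpa [σ, hj] using this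
  have hdiff : ∀ r : κ → Bool, |(∑ j, bit (σ r j) * w j) - ∑ j, bit (r j) * w j| = 1 := by
    intro r
    rw [← Finset.sum_sub_distrib]
    rw [Finset.sum_eq_single k]
    · rw [← sub_mul, abs_mul, hk, mul_one]
      simp only [σ, Function.update_self]
      cases r k <;> simp [bit]
    · intro j _ hj
      simp [σ, hj]
    · intro h
      exact absurd (Finset.mem_univ k) h
  have hdisj : Disjoint A (A.image σ) := by
    rw [Finset.disjoint_left]
    intro r hr hr'
    obtain ⟨r', hr'', rfl⟩ := Finset.mem_image.1 hr'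
    rw [hA, Finset.mem_filter] at hr hr''
    have h1 := hdiff r'
    have h2 := abs_sub (∑ j, bit (σ r' j) * w j) (∑ j, bit (r' j) * w j)
    linarith [hr.2, hr''.2]
  have h3 : (A ∪ A.image σ).card = 2 * A.card := by
    rw [Finset.card_union_of_disjoint hdisj, Finset.card_image_of_injective _ hσ]
    ring
  rw [← h3]
  exact Finset.card_le_univ _

/-- a bounded vector of sup norm one orthogonal to fewer than `card κ` rows -/
theorem exists_orth {κ I : Type} [Fintype κ] (R : Finset I) (hR : R.card < Fintype.card κ)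
    (r : I → κ → ℝ) :
    ∃ w : κ → ℝ, (∀ i ∈ R, ∑ k, r i k * w k = 0) ∧ (∀ k, |w k| ≤ 1) ∧ ∃ k, |w k| = 1 := by
  let L : (κ → ℝ) →ₗ[ℝ] (R → ℝ) :=
    { toFun := fun w i => ∑ k, r i k * w k
      map_add' := by
        intro u v
        funext i
        simp only [Pi.add_apply, mul_add, Finset.sum_add_distrib]
      map_smul' := by
        intro c v
        funext i
        simp only [Pi.smul_apply, smul_eq_mul, RingHom.id_apply, Finset.mul_sum]
        exact Finset.sum_congr rfl fun k _ => by ring }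
  have hker : ∃ v : κ → ℝ, v ≠ 0 ∧ L v = 0 := by
    have h1 : LinearMap.ker L ≠ ⊥ := by
      apply LinearMap.ker_ne_bot_of_finrank_lt
      simpa using hR
    obtain ⟨v, hv, hv0⟩ := Submodule.exists_mem_ne_zero_of_ne_bot h1
    exact ⟨v, hv0, hv⟩
  obtain ⟨v, hv0, hv⟩ := hker
  have hne : Nonempty κ := by
    have : 0 < Fintype.card κ := by omega
    exact Fintype.card_pos_iff.1 this
  obtain ⟨k, hk⟩ := Finite.exists_max fun k => |v k|
  have hk0 : 0 < |v k| := by
    rw [abs_pos]
    intro h
    apply hv0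
    funext j
    have := hk j
    rw [h, abs_zero] at this
    exact abs_eq_zero.1 (le_antisymm this (abs_nonneg _))
  refine ⟨fun j => v j / |v k|, ?_, ?_, k, ?_⟩
  · intro i hi
    have h1 : ∑ j, r i j * v j = 0 := congrFun hv ⟨i, hi⟩
    simp only [mul_div_assoc', ← Finset.sum_div, h1, zero_div]
  · intro j
    rw [abs_div, abs_abs, div_le_one hk0]
    exact hk j
  · rw [abs_div, abs_abs, div_self hk0.ne']

/-- number of 0/1 blocks with a bounded near kernel vector -/
theorem block_count {κ I : Type} [Fintype κ] [Fintype I] (δ : ℝ) (hδ : 0 < δ)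
    (hs : Fintype.card κ * δ < 1 / 2) :
    Nat.card {M : I → κ → Bool // ∃ x : κ → ℝ, (∃ k, |x k| = 1) ∧
        ∀ i, |∑ k, bit (M i k) * x k| ≤ δ} * 2 ^ Fintype.card I ≤
      (Finset.univ.filter fun R : Finset I => R.card < Fintype.card κ).card *
        (2 ^ Fintype.card κ * Nat.card (I → κ → Bool)) := by
  have hNat : Nat.card (I → κ → Bool) = Fintype.card (κ → Bool) ^ Fintype.card I := by
    rw [Nat.card_eq_fintype_card, Fintype.card_fun]
  rw [hNat]
  -- the chosen orthogonal vector
  have hw : ∀ (R : Finset I) (M : I → κ → Bool), ∃ w : κ → ℝ, R.card < Fintype.card κ →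
      (∀ i ∈ R, ∑ k, bit (M i k) * w k = 0) ∧ (∀ k, |w k| ≤ 1) ∧ ∃ k, |w k| = 1 := by
    intro R M
    by_cases hR : R.card < Fintype.card κ
    · obtain ⟨w, hw⟩ := exists_orth R hR fun i k => bit (M i k)
      exact ⟨w, fun _ => hw⟩
    · exact ⟨0, fun h => absurd h hR⟩
  choose W hW using hw
  -- it should depend on the rows in `R` only
  let trunc : Finset I → (I → κ → Bool) → (I → κ → Bool) :=
    fun R M i => if i ∈ R then M i else fun _ => false
  let T : Finset I → (I → κ → Bool) → Finset (κ → Bool) := fun R M =>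
    Finset.univ.filter fun r : κ → Bool => |∑ j, bit (r j) * W R (trunc R M) j| < 1 / 2
  have hcount : ∀ R ∈ (Finset.univ.filter fun R : Finset I => R.card < Fintype.card κ),
      Nat.card {M : I → κ → Bool // ∀ i, i ∉ R → M i ∈ T R M} * 2 ^ Fintype.card I ≤
        2 ^ Fintype.card κ * Fintype.card (κ → Bool) ^ Fintype.card I := by
    intro R hR
    have hR' := (Finset.mem_filter.1 hR).2
    refine le_trans (fiber_count R (T R) ?_ ?_) ?_
    · intro f g hfg
      have : trunc R f = trunc R g := by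
        funext i
        by_cases hi : i ∈ R
        · simp [trunc, hi, hfg i hi]
        · simp [trunc, hi]
      simp only [T, this]
    · intro f
      obtain ⟨_, _, k, hk⟩ := hW R (trunc R f) hR'
      exact half_rows _ k hk
    · exact Nat.mul_le_mul_right _ (Nat.pow_le_pow_right (by norm_num) hR'.le)
  -- the cover
  have hcover : (Finset.univ.filter fun M : I → κ → Bool => ∃ x : κ → ℝ, (∃ k, |x k| = 1) ∧
      ∀ i, |∑ k, bit (M i k) * x k| ≤ δ) ⊆
      (Finset.univ.filter fun R : Finset I => R.card < Fintype.card κ).biUnion fun R =>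
        Finset.univ.filter fun M : I → κ → Bool => ∀ i, i ∉ R → M i ∈ T R M := by
    intro M hM
    obtain ⟨x, ⟨k0, hk0⟩, hx⟩ := (Finset.mem_filter.1 hM).2
    obtain ⟨R, hR, hRw⟩ := slab (fun i k => bit (M i k)) x k0 hk0 δ hδ hx
    refine Finset.mem_biUnion.2 ⟨R, Finset.mem_filter.2 ⟨Finset.mem_univ _, hR⟩, ?_⟩
    refine Finset.mem_filter.2 ⟨Finset.mem_univ _, fun i _ => ?_⟩
    obtain ⟨h1, h2, _⟩ := hW R (trunc R M) hR
    refine Finset.mem_filter.2 ⟨Finset.mem_univ _, ?_⟩
    refine lt_of_le_of_lt (hRw (W R (trunc R M)) ?_ h2 i) hs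
    intro j hj
    have := h1 j hj
    simpa [trunc, hj] using this
  have h5 : Nat.card {M : I → κ → Bool // ∃ x : κ → ℝ, (∃ k, |x k| = 1) ∧
        ∀ i, |∑ k, bit (M i k) * x k| ≤ δ} ≤
      ∑ R ∈ (Finset.univ.filter fun R : Finset I => R.card < Fintype.card κ),
        Nat.card {M : I → κ → Bool // ∀ i, i ∉ R → M i ∈ T R M} := by
    rw [Nat.card_eq_fintype_card, Fintype.card_subtype]
    refine le_trans (Finset.card_le_card hcover) (le_trans Finset.card_biUnion_le ?_)
    apply Finset.sum_le_sum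
    intro R _
    rw [Nat.card_eq_fintype_card, Fintype.card_subtype]
  calc _ ≤ (∑ R ∈ (Finset.univ.filter fun R : Finset I => R.card < Fintype.card κ),
        Nat.card {M : I → κ → Bool // ∀ i, i ∉ R → M i ∈ T R M}) * 2 ^ Fintype.card I :=
        Nat.mul_le_mul_right _ h5
    _ = ∑ R ∈ (Finset.univ.filter fun R : Finset I => R.card < Fintype.card κ),
        Nat.card {M : I → κ → Bool // ∀ i, i ∉ R → M i ∈ T R M} * 2 ^ Fintype.card I := by
        rw [Finset.sum_mul]
    _ ≤ ∑ R ∈ (Finset.univ.filter fun R : Finset I => R.card < Fintype.card κ),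
        2 ^ Fintype.card κ * Fintype.card (κ → Bool) ^ Fintype.card I :=
        Finset.sum_le_sum hcount
    _ = _ := by rw [Finset.sum_const, smul_eq_mul]


/-! ## Graphs -/

variable {n : ℕ}

/-- the block of the adjacency matrix with rows outside `S` and columns in `S` -/
noncomputable def blk (S : Finset (Fin n)) (G : SimpleGraph (Fin n)) :
    {i // i ∉ S} → {i // i ∈ S} → Bool := fun i k => decide (G.Adj i.1 k.1)

/-- replace this block -/
def repl (S : Finset (Fin n)) (G : SimpleGraph (Fin n))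
    (M : {i // i ∉ S} → {i // i ∈ S} → Bool) : SimpleGraph (Fin n) where
  Adj a b := (((a ∈ S ∧ b ∈ S) ∨ (a ∉ S ∧ b ∉ S)) ∧ G.Adj a b) ∨
    (∃ (ha : a ∉ S) (hb : b ∈ S), M ⟨a, ha⟩ ⟨b, hb⟩ = true) ∨
    (∃ (ha : a ∈ S) (hb : b ∉ S), M ⟨b, hb⟩ ⟨a, ha⟩ = true)
  symm := ⟨by
    rintro a b (⟨h1, h2⟩ | ⟨ha, hb, h⟩ | ⟨ha, hb, h⟩)
    · exact Or.inl ⟨h1.imp (fun h => ⟨h.2, h.1⟩) (fun h => ⟨h.2, h.1⟩), h2.symm⟩
    · exact Or.inr (Or.inr ⟨hb, ha, h⟩)
    · exact Or.inr (Or.inl ⟨hb, ha, h⟩)⟩
  loopless := ⟨by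
    rintro a (⟨_, h⟩ | ⟨ha, hb, _⟩ | ⟨ha, hb, _⟩)
    · exact G.loopless.irrefl a h
    · exact ha hb
    · exact hb ha⟩

/-- the block is uniformly distributed -/
theorem block_uniform (S : Finset (Fin n))
    (P : ({i // i ∉ S} → {i // i ∈ S} → Bool) → Prop) :
    Nat.card {G : SimpleGraph (Fin n) // P (blk S G)} *
        Nat.card ({i // i ∉ S} → {i // i ∈ S} → Bool) ≤
      Nat.card {M : {i // i ∉ S} → {i // i ∈ S} → Bool // P M} *
        Nat.card (SimpleGraph (Fin n)) := by
  rw [← Nat.card_prod, ← Nat.card_prod]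
  refine Nat.card_le_card_of_injective
    (fun p : {G : SimpleGraph (Fin n) // P (blk S G)} ×
        ({i // i ∉ S} → {i // i ∈ S} → Bool) =>
      ((⟨blk S p.1.1, p.1.2⟩, repl S p.1.1 p.2) :
        {M : {i // i ∉ S} → {i // i ∈ S} → Bool // P M} × SimpleGraph (Fin n))) ?_
  rintro ⟨⟨G, hG⟩, M⟩ ⟨⟨G', hG'⟩, M'⟩ h
  have h1 : blk S G = blk S G' := congrArg (fun q => q.1.1) h
  have h2 : repl S G M = repl S G' M' := congrArg (fun q => q.2) h
  have h3 : M = M' := by
    funext i k
    have h4 : (repl S G M).Adj i.1 k.1 ↔ (repl S G' M').Adj i.1 k.1 := by rw [h2]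
    have h5 : ∀ (H : SimpleGraph (Fin n)) (N : {i // i ∉ S} → {i // i ∈ S} → Bool),
        (repl S H N).Adj i.1 k.1 ↔ N i k = true := by
      intro H N
      constructor
      · rintro (⟨h6 | h6, _⟩ | ⟨_, _, h⟩ | ⟨ha, _, _⟩)
        · exact absurd h6.1 i.2
        · exact absurd k.2 h6.2
        · exact h
        · exact absurd ha i.2
      · intro h
        exact Or.inr (Or.inl ⟨i.2, k.2, h⟩)
    rw [h5, h5] at h4
    exact Bool.eq_iff_iff.2 h4
  have h6 : G = G' := by
    ext a b
    have h4 : (repl S G M).Adj a b ↔ (repl S G' M').Adj a b := by rw [h2]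
    by_cases ha : a ∈ S <;> by_cases hb : b ∈ S
    · have h5 : ∀ (H : SimpleGraph (Fin n)) (N : {i // i ∉ S} → {i // i ∈ S} → Bool),
          (repl S H N).Adj a b ↔ H.Adj a b := by
        intro H N
        constructor
        · rintro (⟨_, h⟩ | ⟨ha', _, _⟩ | ⟨_, hb', _⟩)
          · exact h
          · exact absurd ha ha'
          · exact absurd hb hb'
        · intro h
          exact Or.inl ⟨Or.inl ⟨ha, hb⟩, h⟩
      rw [h5, h5] at h4
      exact h4
    · have := congrFun (congrFun h1 ⟨b, hb⟩) ⟨a, ha⟩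
      simp only [blk, decide_eq_decide] at this
      rw [G.adj_comm, this, G'.adj_comm]
    · have := congrFun (congrFun h1 ⟨a, ha⟩) ⟨b, hb⟩
      simpa only [blk, decide_eq_decide] using this
    · have h5 : ∀ (H : SimpleGraph (Fin n)) (N : {i // i ∉ S} → {i // i ∈ S} → Bool),
          (repl S H N).Adj a b ↔ H.Adj a b := by
        intro H N
        constructor
        · rintro (⟨_, h⟩ | ⟨_, hb', _⟩ | ⟨ha', _, _⟩)
          · exact h
          · exact absurd hb' hb
          · exact absurd ha' ha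
        · intro h
          exact Or.inl ⟨Or.inr ⟨ha, hb⟩, h⟩
      rw [h5, h5] at h4
      exact h4
  subst h3
  subst h6
  rfl

/-- the large coordinates -/
noncomputable def large (x : Fin n → ℝ) : Finset (Fin n) :=
  Finset.univ.filter fun i => ∀ j, |x j| ≤ (n : ℝ) ^ 4 * |x i|

theorem near_kernel (hn : 2 ≤ n) (G : SimpleGraph (Fin n)) (x : Fin n → ℝ) (hx : x ≠ 0)
    (hA : (G.adjMatrix ℝ).mulVec x = 0) :
    ∃ y : {i // i ∈ large x} → ℝ, (∃ k, |y k| = 1) ∧
      ∀ i, |∑ k, bit (blk (large x) G i k) * y k| ≤ ((n : ℝ) ^ 3)⁻¹ := by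
  have hn0 : (1 : ℝ) ≤ n := by exact_mod_cast (by omega : 1 ≤ n)
  have hne : Nonempty (Fin n) := ⟨⟨0, by omega⟩⟩
  obtain ⟨k, hk⟩ := Finite.exists_max fun k => |x k|
  have hk0 : 0 < |x k| := by
    rw [abs_pos]
    intro h
    apply hx
    funext j
    have := hk j
    rw [h, abs_zero] at this
    exact abs_eq_zero.1 (le_antisymm this (abs_nonneg _))
  have hkS : k ∈ large x := by
    refine Finset.mem_filter.2 ⟨Finset.mem_univ _, fun j => ?_⟩
    have h1 : (1 : ℝ) ≤ (n : ℝ) ^ 4 := one_le_pow₀ hn0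
    nlinarith [hk j, abs_nonneg (x k)]
  refine ⟨fun i => x i.1 / |x k|, ⟨⟨k, hkS⟩, ?_⟩, ?_⟩
  · rw [abs_div, abs_abs, div_self hk0.ne']
  · intro i
    have h1 : ∑ j, (G.adjMatrix ℝ) i.1 j * x j = 0 := congrFun hA i.1
    have h2 : ∑ j ∈ large x, (G.adjMatrix ℝ) i.1 j * x j =
        -∑ j ∈ (large x)ᶜ, (G.adjMatrix ℝ) i.1 j * x j := by
      rw [← Finset.sum_add_sum_compl (large x)] at h1
      linarith
    have h3 : ∑ k', bit (blk (large x) G i k') * (x k'.1 / |x k|) =
        (∑ j ∈ large x, (G.adjMatrix ℝ) i.1 j * x j) / |x k| := by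
      rw [Finset.sum_div, ← Finset.sum_coe_sort (large x)]
      apply Finset.sum_congr rfl
      intro k' _
      simp only [blk, bit, SimpleGraph.adjMatrix_apply]
      by_cases h : G.Adj i.1 k'.1 <;> simp [h]
    rw [h3, h2, abs_div, abs_neg, abs_abs, div_le_iff₀ hk0]
    have hsmall : ∀ j ∈ (large x)ᶜ, |(G.adjMatrix ℝ) i.1 j * x j| ≤ ((n : ℝ) ^ 4)⁻¹ * |x k| := by
      intro j hj
      have hj' : j ∉ large x := Finset.mem_compl.1 hj
      have hj2 : ∃ l, (n : ℝ) ^ 4 * |x j| < |x l| := by
        by_contra hcon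
        push Not at hcon
        exact hj' (Finset.mem_filter.2 ⟨Finset.mem_univ _, hcon⟩)
      obtain ⟨l, hl⟩ := hj2
      have hpos : 0 < (n : ℝ) ^ 4 := by positivity
      have h4 : |x j| ≤ ((n : ℝ) ^ 4)⁻¹ * |x k| := by
        rw [inv_mul_eq_div, le_div_iff₀ hpos]
        have := hk l
        linarith [mul_comm |x j| ((n : ℝ) ^ 4)]
      rw [abs_mul]
      have h5 : |(G.adjMatrix ℝ) i.1 j| ≤ 1 := by
        rw [SimpleGraph.adjMatrix_apply]
        split_ifs <;> simp
      calc |(G.adjMatrix ℝ) i.1 j| * |x j| ≤ 1 * |x j| :=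
            mul_le_mul_of_nonneg_right h5 (abs_nonneg _)
        _ ≤ _ := by rw [one_mul]; exact h4
    calc |∑ j ∈ (large x)ᶜ, (G.adjMatrix ℝ) i.1 j * x j|
        ≤ ∑ j ∈ (large x)ᶜ, |(G.adjMatrix ℝ) i.1 j * x j| := Finset.abs_sum_le_sum_abs _ _
      _ ≤ ∑ j ∈ (large x)ᶜ, ((n : ℝ) ^ 4)⁻¹ * |x k| := Finset.sum_le_sum hsmall
      _ = (large x)ᶜ.card * (((n : ℝ) ^ 4)⁻¹ * |x k|) := by
          rw [Finset.sum_const, nsmul_eq_mul]
      _ ≤ n * (((n : ℝ) ^ 4)⁻¹ * |x k|) := by
          apply mul_le_mul_of_nonneg_right _ (by positivity)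
          have := Finset.card_le_univ (large x)ᶜ
          rw [Fintype.card_fin] at this
          exact_mod_cast this
      _ = ((n : ℝ) ^ 3)⁻¹ * |x k| := by
          have : (n : ℝ) ≠ 0 := by positivity
          field_simp

/-- number of sets of at most `m` points -/
noncomputable def few (n m : ℕ) : ℕ :=
  (Finset.univ.filter fun S : Finset (Fin n) => S.card ≤ m).card

theorem few_le (m : ℕ) (t : ℝ) (ht : 0 < t) (ht1 : t ≤ 1) :
    (few n m : ℝ) * t ^ m ≤ (1 + t) ^ n := by
  have h1 : (1 + t) ^ n = ∑ S : Finset (Fin n), t ^ S.card := by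
    have := Finset.sum_pow_mul_eq_add_pow t 1 (Finset.univ : Finset (Fin n))
    simp only [Finset.powerset_univ, one_pow, mul_one, Finset.card_univ, Fintype.card_fin] at this
    rw [this, add_comm]
  rw [h1]
  calc (few n m : ℝ) * t ^ m = ∑ S ∈ Finset.univ.filter fun S : Finset (Fin n) => S.card ≤ m,
        t ^ m := by rw [Finset.sum_const, nsmul_eq_mul]; rfl
    _ ≤ ∑ S ∈ Finset.univ.filter fun S : Finset (Fin n) => S.card ≤ m, t ^ S.card := by
        apply Finset.sum_le_sum
        intro S hS
        exact pow_le_pow_of_le_one ht.le ht1 (Finset.mem_filter.1 hS).2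
    _ ≤ ∑ S : Finset (Fin n), t ^ S.card :=
        Finset.sum_le_sum_of_subset_of_nonneg (Finset.filter_subset _ _)
          fun _ _ _ => by positivity

/-- the exact count -/
theorem count_few (hn : 2 ≤ n) (m : ℕ) :
    Nat.card {G : SimpleGraph (Fin n) // ∃ x : Fin n → ℝ, x ≠ 0 ∧
        (G.adjMatrix ℝ).mulVec x = 0 ∧ (large x).card ≤ m} * 2 ^ n ≤
      few n m * (few n m * 4 ^ m) * Nat.card (SimpleGraph (Fin n)) := by
  set δ : ℝ := ((n : ℝ) ^ 3)⁻¹ with hδd
  have hn2 : (2 : ℝ) ≤ n := by exact_mod_cast hn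
  have hδ : 0 < δ := by rw [hδd]; positivity
  let P : (S : Finset (Fin n)) → ({i // i ∉ S} → {i // i ∈ S} → Bool) → Prop := fun S M =>
    ∃ y : {i // i ∈ S} → ℝ, (∃ k, |y k| = 1) ∧ ∀ i, |∑ k, bit (M i k) * y k| ≤ δ
  have hS : ∀ S ∈ (Finset.univ.filter fun S : Finset (Fin n) => S.card ≤ m),
      Nat.card {G : SimpleGraph (Fin n) // P S (blk S G)} * 2 ^ n ≤
        (few n m * 4 ^ m) * Nat.card (SimpleGraph (Fin n)) := by
    intro S hS
    have hSm := (Finset.mem_filter.1 hS).2
    have hc1 : Fintype.card {i // i ∈ S} = S.card := by simp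
    have hc2 : Fintype.card {i // i ∉ S} = n - S.card := by
      rw [Fintype.card_subtype_compl]
      simp
    have hSn : S.card ≤ n := by
      have := Finset.card_le_univ S
      simpa using this
    have h1 : (Fintype.card {i // i ∈ S} : ℝ) * δ < 1 / 2 := by
      rw [hc1]
      have h2 : (S.card : ℝ) ≤ n := by exact_mod_cast hSn
      have h3 : (S.card : ℝ) * δ ≤ n * δ := mul_le_mul_of_nonneg_right h2 hδ.le
      have h4 : (n : ℝ) * δ = ((n : ℝ) ^ 2)⁻¹ := by
        rw [hδd]
        have : (n : ℝ) ≠ 0 := by positivity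
        field_simp
      have h5 : ((n : ℝ) ^ 2)⁻¹ ≤ (4 : ℝ)⁻¹ := by
        apply inv_anti₀ (by norm_num)
        nlinarith
      linarith
    have h2 := block_count (I := {i // i ∉ S}) δ hδ h1
    have h3 := block_uniform S (P S)
    have h4 : (Finset.univ.filter fun R : Finset {i // i ∉ S} =>
        R.card < Fintype.card {i // i ∈ S}).card ≤ few n m := by
      unfold few
      refine Finset.card_le_card_of_injOn (fun R => R.map (Function.Embedding.subtype _)) ?_ ?_
      · intro R hR
        have := (Finset.mem_filter.1 hR).2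
        refine Finset.mem_filter.2 ⟨Finset.mem_univ _, ?_⟩
        rw [Finset.card_map]
        omega
      · intro R _ R' _ h
        exact Finset.map_injective _ h
    have hpos : 0 < Nat.card ({i // i ∉ S} → {i // i ∈ S} → Bool) := Nat.card_pos
    rw [hc2, hc1] at h2
    rw [hc1] at h4
    -- combine
    have h5 : Nat.card {G : SimpleGraph (Fin n) // P S (blk S G)} * 2 ^ (n - S.card) *
        Nat.card ({i // i ∉ S} → {i // i ∈ S} → Bool) ≤
        few n m * 2 ^ S.card * Nat.card (SimpleGraph (Fin n)) *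
          Nat.card ({i // i ∉ S} → {i // i ∈ S} → Bool) := by
      calc _ = (Nat.card {G : SimpleGraph (Fin n) // P S (blk S G)} *
            Nat.card ({i // i ∉ S} → {i // i ∈ S} → Bool)) * 2 ^ (n - S.card) := by ring
        _ ≤ (Nat.card {M : {i // i ∉ S} → {i // i ∈ S} → Bool // P S M} *
            Nat.card (SimpleGraph (Fin n))) * 2 ^ (n - S.card) := Nat.mul_le_mul_right _ h3
        _ = (Nat.card {M : {i // i ∉ S} → {i // i ∈ S} → Bool // P S M} * 2 ^ (n - S.card)) *
            Nat.card (SimpleGraph (Fin n)) := by ring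
        _ ≤ _ := Nat.mul_le_mul_right _ h2
        _ ≤ (few n m * (2 ^ S.card * Nat.card ({i // i ∉ S} → {i // i ∈ S} → Bool))) *
            Nat.card (SimpleGraph (Fin n)) :=
            Nat.mul_le_mul_right _ (Nat.mul_le_mul_right _ h4)
        _ = _ := by ring
    have h6 := Nat.le_of_mul_le_mul_right h5 hpos
    calc Nat.card {G : SimpleGraph (Fin n) // P S (blk S G)} * 2 ^ n
        = Nat.card {G : SimpleGraph (Fin n) // P S (blk S G)} * 2 ^ (n - S.card) *
            2 ^ S.card := by
          rw [mul_assoc, ← pow_add]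
          congr 2
          omega
      _ ≤ few n m * 2 ^ S.card * Nat.card (SimpleGraph (Fin n)) * 2 ^ S.card :=
          Nat.mul_le_mul_right _ h6
      _ = few n m * 4 ^ S.card * Nat.card (SimpleGraph (Fin n)) := by
          rw [show (4 : ℕ) = 2 * 2 by norm_num, mul_pow]
          ring
      _ ≤ few n m * 4 ^ m * Nat.card (SimpleGraph (Fin n)) :=
          Nat.mul_le_mul_right _ (Nat.mul_le_mul_left _ (Nat.pow_le_pow_right (by norm_num) hSm))
  have hcover : (Finset.univ.filter fun G : SimpleGraph (Fin n) => ∃ x : Fin n → ℝ, x ≠ 0 ∧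
        (G.adjMatrix ℝ).mulVec x = 0 ∧ (large x).card ≤ m) ⊆
      (Finset.univ.filter fun S : Finset (Fin n) => S.card ≤ m).biUnion fun S =>
        Finset.univ.filter fun G : SimpleGraph (Fin n) => P S (blk S G) := by
    intro G hG
    obtain ⟨x, hx, hA, hl⟩ := (Finset.mem_filter.1 hG).2
    exact Finset.mem_biUnion.2 ⟨large x, Finset.mem_filter.2 ⟨Finset.mem_univ _, hl⟩,
      Finset.mem_filter.2 ⟨Finset.mem_univ _, near_kernel hn G x hx hA⟩⟩
  have h7 : Nat.card {G : SimpleGraph (Fin n) // ∃ x : Fin n → ℝ, x ≠ 0 ∧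
        (G.adjMatrix ℝ).mulVec x = 0 ∧ (large x).card ≤ m} ≤
      ∑ S ∈ (Finset.univ.filter fun S : Finset (Fin n) => S.card ≤ m),
        Nat.card {G : SimpleGraph (Fin n) // P S (blk S G)} := by
    rw [Nat.card_eq_fintype_card, Fintype.card_subtype]
    refine le_trans (Finset.card_le_card hcover) (le_trans Finset.card_biUnion_le ?_)
    apply Finset.sum_le_sum
    intro S _
    rw [Nat.card_eq_fintype_card, Fintype.card_subtype]
  calc _ ≤ (∑ S ∈ (Finset.univ.filter fun S : Finset (Fin n) => S.card ≤ m),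
        Nat.card {G : SimpleGraph (Fin n) // P S (blk S G)}) * 2 ^ n := Nat.mul_le_mul_right _ h7
    _ = ∑ S ∈ (Finset.univ.filter fun S : Finset (Fin n) => S.card ≤ m),
        Nat.card {G : SimpleGraph (Fin n) // P S (blk S G)} * 2 ^ n := by rw [Finset.sum_mul]
    _ ≤ ∑ S ∈ (Finset.univ.filter fun S : Finset (Fin n) => S.card ≤ m),
        (few n m * 4 ^ m) * Nat.card (SimpleGraph (Fin n)) := Finset.sum_le_sum hS
    _ = few n m * ((few n m * 4 ^ m) * Nat.card (SimpleGraph (Fin n))) := by
        rw [Finset.sum_const, smul_eq_mul]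
        rfl
    _ = _ := by ring

/-- **Many large pivots.** -/
theorem many_pivots (e : ℝ) (he : 0 < e) : ∃ g : ℝ, 0 < g ∧ ∀ n : ℕ, 2 ≤ n →
    (Nat.card {G : SimpleGraph (Fin n) // ∃ x : Fin n → ℝ, x ≠ 0 ∧
        (G.adjMatrix ℝ).mulVec x = 0 ∧ ((large x).card : ℝ) ≤ g * n} : ℝ) ≤
      (2 : ℝ) ^ (-(1 - e) * n) * Nat.card (SimpleGraph (Fin n)) := by
  -- choose t
  have h2e : (1 : ℝ) < 2 ^ (e / 4) := Real.one_lt_rpow (by norm_num) (by linarith)
  set t : ℝ := min 1 ((2 : ℝ) ^ (e / 4) - 1) with ht
  have ht0 : 0 < t := lt_min one_pos (by linarith)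
  have ht1 : t ≤ 1 := min_le_left _ _
  have ht2 : 1 + t ≤ 2 ^ (e / 4) := by
    have := min_le_right 1 ((2 : ℝ) ^ (e / 4) - 1)
    rw [← ht] at this
    linarith
  set q : ℝ := 4 / (t * t) with hq
  have hq1 : 4 ≤ q := by
    rw [hq, le_div_iff₀ (by positivity)]
    nlinarith
  have hlogq : 0 < Real.logb 2 q := Real.logb_pos (by norm_num) (by linarith)
  refine ⟨e / 2 / Real.logb 2 q, by positivity, ?_⟩
  intro n hn
  set g : ℝ := e / 2 / Real.logb 2 q with hg
  have hg0 : 0 < g := by positivity
  set m : ℕ := ⌊g * n⌋₊ with hm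
  have hmle : (m : ℝ) ≤ g * n := Nat.floor_le (by positivity)
  have h1 := count_few hn m
  have hsub : Nat.card {G : SimpleGraph (Fin n) // ∃ x : Fin n → ℝ, x ≠ 0 ∧
        (G.adjMatrix ℝ).mulVec x = 0 ∧ ((large x).card : ℝ) ≤ g * n} ≤
      Nat.card {G : SimpleGraph (Fin n) // ∃ x : Fin n → ℝ, x ≠ 0 ∧
        (G.adjMatrix ℝ).mulVec x = 0 ∧ (large x).card ≤ m} := by
    refine Nat.card_le_card_of_injective
      (fun p => ⟨p.1, ?_⟩) ?_
    · obtain ⟨x, hx, hA, hl⟩ := p.2
      exact ⟨x, hx, hA, Nat.le_floor hl⟩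
    · intro p p' h
      exact Subtype.ext (congrArg (fun q => q.1) h)
  set N : ℕ := Nat.card {G : SimpleGraph (Fin n) // ∃ x : Fin n → ℝ, x ≠ 0 ∧
        (G.adjMatrix ℝ).mulVec x = 0 ∧ (large x).card ≤ m} with hN
  set W : ℕ := Nat.card (SimpleGraph (Fin n)) with hW
  have h3 : (N : ℝ) * 2 ^ n ≤ (few n m : ℝ) * (few n m * 4 ^ m) * W := by exact_mod_cast h1
  have hf := few_le (n := n) m t ht0 ht1
  have htm : 0 < t ^ m := by positivity
  have hf' : (few n m : ℝ) ≤ (1 + t) ^ n / t ^ m := by
    rw [le_div_iff₀ htm]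
    exact hf
  have hfew : (few n m : ℝ) * (few n m * 4 ^ m) ≤ ((1 + t) ^ n) ^ 2 * q ^ m := by
    have h0 : (0 : ℝ) ≤ few n m := Nat.cast_nonneg _
    calc (few n m : ℝ) * (few n m * 4 ^ m)
        ≤ ((1 + t) ^ n / t ^ m) * ((1 + t) ^ n / t ^ m * 4 ^ m) := by
          apply mul_le_mul hf' _ (by positivity) (by positivity)
          exact mul_le_mul_of_nonneg_right hf' (by positivity)
      _ = ((1 + t) ^ n) ^ 2 * q ^ m := by
          rw [hq, div_pow, mul_pow]
          field_simp
  have hpow1 : ((1 + t) ^ n) ^ 2 ≤ (2 : ℝ) ^ (e / 2 * n) := by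
    have h5 : (1 + t) ^ n ≤ ((2 : ℝ) ^ (e / 4)) ^ n := pow_le_pow_left₀ (by linarith) ht2 n
    calc ((1 + t) ^ n) ^ 2 ≤ (((2 : ℝ) ^ (e / 4)) ^ n) ^ 2 :=
          pow_le_pow_left₀ (by positivity) h5 2
      _ = (2 : ℝ) ^ (e / 2 * n) := by
          rw [← Real.rpow_natCast, ← Real.rpow_natCast,
            ← Real.rpow_mul (by norm_num : (0 : ℝ) ≤ 2),
            ← Real.rpow_mul (by norm_num : (0 : ℝ) ≤ 2)]
          congr 1
          push_cast
          ring
  have hpow2 : q ^ m ≤ (2 : ℝ) ^ (e / 2 * n) := by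
    have hq0 : (0 : ℝ) < q := by linarith
    calc q ^ m = q ^ (m : ℝ) := (Real.rpow_natCast _ _).symm
      _ ≤ q ^ (g * n) := Real.rpow_le_rpow_of_exponent_le (by linarith) hmle
      _ = (2 : ℝ) ^ (Real.logb 2 q * (g * n)) := by
          rw [Real.rpow_mul (by norm_num : (0 : ℝ) ≤ 2) (Real.logb 2 q) (g * n),
            Real.rpow_logb (by norm_num) (by norm_num) hq0]
      _ = (2 : ℝ) ^ (e / 2 * n) := by
          congr 1
          rw [hg]
          field_simp
  have h6 : (N : ℝ) * 2 ^ n ≤ (2 : ℝ) ^ (e * n) * W := by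
    refine le_trans h3 (mul_le_mul_of_nonneg_right ?_ (Nat.cast_nonneg _))
    refine le_trans hfew ?_
    calc ((1 + t) ^ n) ^ 2 * q ^ m ≤ (2 : ℝ) ^ (e / 2 * n) * (2 : ℝ) ^ (e / 2 * n) :=
          mul_le_mul hpow1 hpow2 (by positivity) (by positivity)
      _ = (2 : ℝ) ^ (e * n) := by
          rw [← Real.rpow_add (by norm_num)]
          congr 1
          ring
  have h7 : (N : ℝ) ≤ (2 : ℝ) ^ (-(1 - e) * n) * W := by
    have h8 : (2 : ℝ) ^ (-(1 - e) * n) = (2 : ℝ) ^ (e * n) / 2 ^ n := by
      rw [← Real.rpow_natCast 2 n, ← Real.rpow_sub (by norm_num)]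
      congr 1
      ring
    rw [h8, div_mul_eq_mul_div, le_div_iff₀ (by positivity)]
    exact h6
  refine le_trans ?_ h7
  exact_mod_cast hsub

end Pool.Agent.Lib.SymNC
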