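import Pool.Agent.Lib.SymNC.Bin
import Pool.Agent.Lib.SymNC.Grp

/-!
# Labels for isotropic vectors of a symmetric pairing whose image has two generators
-/

set_option autoImplicit false

open scoped Classical

namespace Pool.Agent.Lib.SymNC

variable {P W : Type*} [AddCommGroup P] [AddCommGroup W]

/-- cast criterion -/
theorem zmod_zero_iff (p k : ℕ) (a : ℤ) : ((a : ℤ) : ZMod (p ^ k)) = 0 ↔ (p : ℤ) ^ k ∣ a := by
  rw [ZMod.intCast_zmod_eq_zero_iff_dvd]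
  push_cast
  rfl

/-- **Rank two labels.** `b (u, v) = ev (π u) v` symmetric, values in `ZMod (p^k)`, `π` has two
generators. -/
theorem rank_two [Finite W] {p : ℕ} (hp : p.Prime) (k : ℕ) (π : P →+ W)
    (ev : W →+ P →+ ZMod (p ^ k)) (hsym : ∀ u v, ev (π u) v = ev (π v) u)
    (hinj : ∀ w, (∀ v, ev w v = 0) → w = 0) (x y : P)
    (hgen : ∀ u, ∃ α β : ℤ, π u = α • π x + β • π y) :
    ∃ (e : ℕ) (lab : W → ℕ), e ≤ k ∧ (∀ w, lab w ≤ e) ∧
      (∀ u v, ev (π u) u = 0 → ev (π v) v = 0 → lab (π u) = lab (π v) →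
        (2 : ℤ) • ev (π u) v = 0) ∧
      p ^ (2 * e) ≤ Nat.card {w : W // w ∈ π.range ∧ p ^ e • w = 0} := by
  -- Gram entries
  obtain ⟨S, hS⟩ := ZMod.intCast_surjective (ev (π x) x)
  obtain ⟨T, hT⟩ := ZMod.intCast_surjective (ev (π x) y)
  obtain ⟨S', hS'⟩ := ZMod.intCast_surjective (ev (π y) y)
  have hT' : ev (π y) x = ((T : ℤ) : ZMod (p ^ k)) := by rw [hT, hsym]
  have expand : ∀ (u v : P) (α β α' β' : ℤ), π u = α • π x + β • π y →
      π v = α' • π x + β' • π y →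
      ev (π u) v = ((S * (α * α') + T * (α * β' + α' * β) + S' * (β * β') : ℤ) : ZMod (p ^ k)) := by
    intro u v α β α' β' hu hv
    have h1 : ∀ z : P, ev (π z) v = ev (π v) z := fun z => hsym z v
    have h2 : ev (π u) v = α • ev (π x) v + β • ev (π y) v := by
      rw [hu]; simp
    rw [h2, h1 x, h1 y, hv]
    simp only [map_add, map_zsmul, AddMonoidHom.add_apply, AddMonoidHom.coe_smul, Pi.smul_apply]
    rw [← hS, ← hS', ← hT, hT']
    simp only [zsmul_eq_mul]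
    push_cast
    ring
  -- extract the content
  set σ := Nat.findGreatest (fun j => (p : ℤ) ^ j ∣ S ∧ (p : ℤ) ^ j ∣ T ∧ (p : ℤ) ^ j ∣ S') k with hσ
  have hσk : σ ≤ k := Nat.findGreatest_le k
  obtain ⟨⟨a, ha⟩, ⟨t, ht⟩, ⟨c, hc⟩⟩ : (p : ℤ) ^ σ ∣ S ∧ (p : ℤ) ^ σ ∣ T ∧ (p : ℤ) ^ σ ∣ S' :=
    Nat.findGreatest_spec (P := fun j => (p : ℤ) ^ j ∣ S ∧ (p : ℤ) ^ j ∣ T ∧ (p : ℤ) ^ j ∣ S')
      (Nat.zero_le k) (by simp)
  have hprim : k - σ ≠ 0 → ¬ ((p : ℤ) ∣ a ∧ (p : ℤ) ∣ t ∧ (p : ℤ) ∣ c) := by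
    rintro h ⟨⟨a1, h1⟩, ⟨t1, h2⟩, ⟨c1, h3⟩⟩
    have h4 := Nat.le_findGreatest
      (P := fun j => (p : ℤ) ^ j ∣ S ∧ (p : ℤ) ^ j ∣ T ∧ (p : ℤ) ^ j ∣ S') (n := k) (m := σ + 1)
      (by omega)
      ⟨⟨a1, by rw [ha, h1, pow_succ]; ring⟩, ⟨t1, by rw [ht, h2, pow_succ]; ring⟩,
        ⟨c1, by rw [hc, h3, pow_succ]; ring⟩⟩
    omega
  obtain ⟨e, lab, g1, g2, g3, g4, heK, hlab, H, ⟨s1, s2, s3, s4⟩, hind⟩ :=
    bin_label hp (k - σ) a t c hprim
  -- divisibility by `p^k` of `p^σ z`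
  have hdiv : ∀ z : ℤ, (p : ℤ) ^ (k - σ) ∣ z ↔ (p : ℤ) ^ k ∣ (p : ℤ) ^ σ * z := by
    intro z
    have h1 : (p : ℤ) ^ k = (p : ℤ) ^ σ * (p : ℤ) ^ (k - σ) := by
      rw [← pow_add]; congr 1; omega
    rw [h1]
    exact (mul_dvd_mul_iff_left (pow_ne_zero _ (int_prime hp).ne_zero)).symm
  -- coordinates
  have hco : ∀ w : W, ∃ ab : ℤ × ℤ, (∃ u, π u = w) → w = ab.1 • π x + ab.2 • π y := by
    intro w
    by_cases h : ∃ u, π u = w
    · obtain ⟨u, rfl⟩ := h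
      obtain ⟨α, β, h⟩ := hgen u
      exact ⟨(α, β), fun _ => h⟩
    · exact ⟨(0, 0), fun h' => absurd h' h⟩
  choose co hco using hco
  have hcou : ∀ u, π u = (co (π u)).1 • π x + (co (π u)).2 • π y := fun u => hco _ ⟨u, rfl⟩
  refine ⟨e, fun w => lab (co w).1 (co w).2, by omega, fun w => hlab _ _, ?_, ?_⟩
  · intro u v hu hv h
    have e1 := expand u u _ _ _ _ (hcou u) (hcou u)
    have e2 := expand v v _ _ _ _ (hcou v) (hcou v)
    have e3 := expand u v _ _ _ _ (hcou u) (hcou v)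
    rw [e1, zmod_zero_iff] at hu
    rw [e2, zmod_zero_iff] at hv
    have k1 := H (co (π u)).1 (co (π u)).2 (co (π v)).1 (co (π v)).2
      ((hdiv _).2 (by
        have : (p : ℤ) ^ σ * (a * ((co (π u)).1 * (co (π u)).1)
            + t * ((co (π u)).1 * (co (π u)).2 + (co (π u)).1 * (co (π u)).2)
            + c * ((co (π u)).2 * (co (π u)).2))
            = S * ((co (π u)).1 * (co (π u)).1)
              + T * ((co (π u)).1 * (co (π u)).2 + (co (π u)).1 * (co (π u)).2)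
              + S' * ((co (π u)).2 * (co (π u)).2) := by
          rw [ha, ht, hc]; ring
        rw [this]; exact hu))
      ((hdiv _).2 (by
        have : (p : ℤ) ^ σ * (a * ((co (π v)).1 * (co (π v)).1)
            + t * ((co (π v)).1 * (co (π v)).2 + (co (π v)).1 * (co (π v)).2)
            + c * ((co (π v)).2 * (co (π v)).2))
            = S * ((co (π v)).1 * (co (π v)).1)
              + T * ((co (π v)).1 * (co (π v)).2 + (co (π v)).1 * (co (π v)).2)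
              + S' * ((co (π v)).2 * (co (π v)).2) := by
          rw [ha, ht, hc]; ring
        rw [this]; exact hv)) h
    rw [hdiv] at k1
    rw [e3, zsmul_eq_mul, ← Int.cast_mul, zmod_zero_iff]
    have : 2 * (S * ((co (π u)).1 * (co (π v)).1)
        + T * ((co (π u)).1 * (co (π v)).2 + (co (π v)).1 * (co (π u)).2)
        + S' * ((co (π u)).2 * (co (π v)).2))
        = (p : ℤ) ^ σ * (2 * (a * ((co (π u)).1 * (co (π v)).1)
            + t * ((co (π u)).1 * (co (π v)).2 + (co (π v)).1 * (co (π u)).2)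
            + c * ((co (π u)).2 * (co (π v)).2))) := by
      rw [ha, ht, hc]; ring
    rw [this]
    exact k1
  · -- many vectors killed by `p^e`
    have evx : ∀ i l : ℤ, ev (i • π x + l • π y) x = ((S * i + T * l : ℤ) : ZMod (p ^ k)) := by
      intro i l
      simp only [map_add, map_zsmul, AddMonoidHom.add_apply, AddMonoidHom.coe_smul, Pi.smul_apply]
      rw [← hS, hT']
      simp only [zsmul_eq_mul]
      push_cast
      ring
    have evy : ∀ i l : ℤ, ev (i • π x + l • π y) y = ((T * i + S' * l : ℤ) : ZMod (p ^ k)) := by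
      intro i l
      simp only [map_add, map_zsmul, AddMonoidHom.add_apply, AddMonoidHom.coe_smul, Pi.smul_apply]
      rw [← hT, ← hS']
      simp only [zsmul_eq_mul]
      push_cast
      ring
    have evz : ∀ i l : ℤ, (p : ℤ) ^ k ∣ S * i + T * l → (p : ℤ) ^ k ∣ T * i + S' * l →
        i • π x + l • π y = 0 := by
      intro i l h1 h2
      apply hinj
      intro v
      obtain ⟨α, β, hv⟩ := hgen v
      have h3 : ev (i • π x + l • π y) v = ev (π v) (i • x + l • y) := by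
        rw [← hsym]; simp
      rw [h3, hv]
      have h4 : ev (α • π x + β • π y) (i • x + l • y)
          = α • ev (π x) (i • x + l • y) + β • ev (π y) (i • x + l • y) := by simp
      have h5 : ev (π x) (i • x + l • y) = ev (i • π x + l • π y) x := by
        rw [hsym]; simp
      have h6 : ev (π y) (i • x + l • y) = ev (i • π x + l • π y) y := by
        rw [hsym]; simp
      rw [h4, h5, h6, evx, evy, (zmod_zero_iff p k _).2 h1, (zmod_zero_iff p k _).2 h2]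
      simp
    have : NeZero (p ^ e) := ⟨(pow_pos hp.pos e).ne'⟩
    let F : Fin (p ^ e) × Fin (p ^ e) → {w : W // w ∈ π.range ∧ p ^ e • w = 0} := fun il =>
      ⟨((il.1 : ℕ) * g1 + (il.2 : ℕ) * g3 : ℤ) • π x + ((il.1 : ℕ) * g2 + (il.2 : ℕ) * g4 : ℤ) • π y,
        ⟨((il.1 : ℕ) * g1 + (il.2 : ℕ) * g3 : ℤ) • x + ((il.1 : ℕ) * g2 + (il.2 : ℕ) * g4 : ℤ) • y,
          by simp⟩, by
          have h1 : ∀ i l : ℤ, p ^ e • (i • π x + l • π y)
              = ((p : ℤ) ^ e * i) • π x + ((p : ℤ) ^ e * l) • π y := by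
            intro i l
            rw [← natCast_zsmul, smul_add, ← mul_smul, ← mul_smul]
            push_cast
            rfl
          rw [h1]
          apply evz
          · have : S * ((p : ℤ) ^ e * ((il.1 : ℕ) * g1 + (il.2 : ℕ) * g3))
                + T * ((p : ℤ) ^ e * ((il.1 : ℕ) * g2 + (il.2 : ℕ) * g4))
                = (p : ℤ) ^ σ * ((p : ℤ) ^ e * (a * g1 + t * g2) * (il.1 : ℕ)
                  + (p : ℤ) ^ e * (a * g3 + t * g4) * (il.2 : ℕ)) := by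
              rw [ha, ht]; ring
            rw [this, ← hdiv]
            exact dvd_add (s1.mul_right _) (s3.mul_right _)
          · have : T * ((p : ℤ) ^ e * ((il.1 : ℕ) * g1 + (il.2 : ℕ) * g3))
                + S' * ((p : ℤ) ^ e * ((il.1 : ℕ) * g2 + (il.2 : ℕ) * g4))
                = (p : ℤ) ^ σ * ((p : ℤ) ^ e * (t * g1 + c * g2) * (il.1 : ℕ)
                  + (p : ℤ) ^ e * (t * g3 + c * g4) * (il.2 : ℕ)) := by
              rw [ht, hc]; ring
            rw [this, ← hdiv]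
            exact dvd_add (s2.mul_right _) (s4.mul_right _)⟩
    have hF : Function.Injective F := by
      rintro ⟨i, l⟩ ⟨i', l'⟩ h
      have h1 : ((i : ℕ) * g1 + (l : ℕ) * g3 : ℤ) • π x + ((i : ℕ) * g2 + (l : ℕ) * g4 : ℤ) • π y
          = ((i' : ℕ) * g1 + (l' : ℕ) * g3 : ℤ) • π x + ((i' : ℕ) * g2 + (l' : ℕ) * g4 : ℤ) • π y :=
        congrArg Subtype.val h
      have h2 : ((((i : ℕ) : ℤ) - ((i' : ℕ) : ℤ)) * g1 + (((l : ℕ) : ℤ) - ((l' : ℕ) : ℤ)) * g3) • π x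
          + ((((i : ℕ) : ℤ) - ((i' : ℕ) : ℤ)) * g2 + (((l : ℕ) : ℤ) - ((l' : ℕ) : ℤ)) * g4) • π y
          = 0 := by
        have h3 : (((((i : ℕ) : ℤ) - ((i' : ℕ) : ℤ)) * g1 + (((l : ℕ) : ℤ) - ((l' : ℕ) : ℤ)) * g3) • π x
          + ((((i : ℕ) : ℤ) - ((i' : ℕ) : ℤ)) * g2 + (((l : ℕ) : ℤ) - ((l' : ℕ) : ℤ)) * g4) • π y)
          = (((i : ℕ) * g1 + (l : ℕ) * g3 : ℤ) • π x + ((i : ℕ) * g2 + (l : ℕ) * g4 : ℤ) • π y)
            - (((i' : ℕ) * g1 + (l' : ℕ) * g3 : ℤ) • π x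
              + ((i' : ℕ) * g2 + (l' : ℕ) * g4 : ℤ) • π y) := by
          module
        rw [h3, h1, sub_self]
      have k1 := evx ((((i : ℕ) : ℤ) - ((i' : ℕ) : ℤ)) * g1 + (((l : ℕ) : ℤ) - ((l' : ℕ) : ℤ)) * g3)
        ((((i : ℕ) : ℤ) - ((i' : ℕ) : ℤ)) * g2 + (((l : ℕ) : ℤ) - ((l' : ℕ) : ℤ)) * g4)
      have k2 := evy ((((i : ℕ) : ℤ) - ((i' : ℕ) : ℤ)) * g1 + (((l : ℕ) : ℤ) - ((l' : ℕ) : ℤ)) * g3)
        ((((i : ℕ) : ℤ) - ((i' : ℕ) : ℤ)) * g2 + (((l : ℕ) : ℤ) - ((l' : ℕ) : ℤ)) * g4)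
      rw [h2] at k1 k2
      simp only [map_zero, AddMonoidHom.zero_apply] at k1 k2
      have k1' := (zmod_zero_iff p k _).1 k1.symm
      have k2' := (zmod_zero_iff p k _).1 k2.symm
      have m1 : (p : ℤ) ^ (k - σ) ∣ a * ((((i : ℕ) : ℤ) - ((i' : ℕ) : ℤ)) * g1
          + (((l : ℕ) : ℤ) - ((l' : ℕ) : ℤ)) * g3)
          + t * ((((i : ℕ) : ℤ) - ((i' : ℕ) : ℤ)) * g2 + (((l : ℕ) : ℤ) - ((l' : ℕ) : ℤ)) * g4) := by
        rw [hdiv]
        refine dvd_trans k1' (dvd_of_eq ?_)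
        rw [ha, ht]; ring
      have m2 : (p : ℤ) ^ (k - σ) ∣ t * ((((i : ℕ) : ℤ) - ((i' : ℕ) : ℤ)) * g1
          + (((l : ℕ) : ℤ) - ((l' : ℕ) : ℤ)) * g3)
          + c * ((((i : ℕ) : ℤ) - ((i' : ℕ) : ℤ)) * g2 + (((l : ℕ) : ℤ) - ((l' : ℕ) : ℤ)) * g4) := by
        rw [hdiv]
        refine dvd_trans k2' (dvd_of_eq ?_)
        rw [ht, hc]; ring
      obtain ⟨q1, q2⟩ := hind _ _ m1 m2
      have fin : ∀ r s : Fin (p ^ e), (p : ℤ) ^ e ∣ ((r : ℕ) : ℤ) - ((s : ℕ) : ℤ) → r = s := by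
        intro r s h
        have h1 : (((p ^ e : ℕ) : ℤ)) ∣ ((r : ℕ) : ℤ) - ((s : ℕ) : ℤ) := by exact_mod_cast h
        have h2 : ((s : ℕ)) ≡ (r : ℕ) [MOD p ^ e] := (Nat.modEq_iff_dvd).2 h1
        have h3 := Nat.ModEq.eq_of_lt_of_lt h2 s.2 r.2
        exact Fin.ext h3.symm
      rw [fin _ _ q1, fin _ _ q2]
    have h3 : Nat.card (Fin (p ^ e) × Fin (p ^ e)) ≤ Nat.card {w : W // w ∈ π.range ∧ p ^ e • w = 0} :=
      Nat.card_le_card_of_injective F hF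
    calc p ^ (2 * e) = Nat.card (Fin (p ^ e) × Fin (p ^ e)) := by
          rw [Nat.card_prod, Nat.card_fin, two_mul, pow_add]
      _ ≤ _ := h3

end Pool.Agent.Lib.SymNC
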