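import Pool.Agent.Lib.SymNC.SpRow

/-!
# The number of vectors modulo `M` with a large spectrum; kernel probability of one vector
-/

set_option autoImplicit false

open scoped Classical

namespace Pool.Agent.Lib.SymNC

open Finset Matrix Pool.Agent.Lib.ThmG

noncomputable section

variable {M : ℕ} [NeZero M]

/-- kernel probability of one vector -/
theorem kernel_bound (n : ℕ) (hn : 1 ≤ n) (x : Fin n → ZMod M) (s : ℕ) (hs1 : 1 ≤ s) (T : ℝ)
    (hT : (M : ℝ) * Real.exp (-(4 / s * T)) ≤ 1) :
    (Nat.card {G : SimpleGraph (Fin n) // (G.adjMatrix (ZMod M)) *ᵥ x = 0} : ℝ) ≤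
      (((ST x T).card + 1) / M) ^ (n - ((n - 1) / s + 1)) * Nat.card (SimpleGraph (Fin n)) := by
  set N := (n - 1) / s + 1 with hN
  have hlt : ∀ j : Fin n, (j : ℕ) / s < N := by
    intro j
    have h1 : (j : ℕ) / s ≤ (n - 1) / s := Nat.div_le_div_right (by have := j.2; omega)
    omega
  set g : Fin n → Fin N := fun j => ⟨(j : ℕ) / s, hlt j⟩ with hg
  have hgs : Function.Surjective g := by
    intro k
    have hk : (k : ℕ) * s ≤ n - 1 := by
      have h1 : (k : ℕ) ≤ (n - 1) / s := by have := k.2; omega
      calc (k : ℕ) * s ≤ (n - 1) / s * s := Nat.mul_le_mul_right _ h1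
        _ ≤ n - 1 := Nat.div_mul_le_self _ _
    refine ⟨⟨(k : ℕ) * s, by omega⟩, ?_⟩
    apply Fin.ext
    show (k : ℕ) * s / s = k
    exact Nat.mul_div_cancel _ hs1
  have hfib : ∀ k, (Finset.univ.filter fun j => g j = k).card ≤ s := by
    intro k
    have h1 : (Finset.univ.filter fun j => g j = k).card ≤ (Finset.Ico ((k : ℕ) * s) ((k : ℕ) * s + s)).card := by
      refine Finset.card_le_card_of_injOn (fun j => (j : ℕ)) ?_ ?_
      · intro j hj
        have h2 : g j = k := (Finset.mem_filter.1 hj).2
        have h3 : (j : ℕ) / s = k := congrArg Fin.val h2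
        have h4 := Nat.div_add_mod (j : ℕ) s
        have h5 := Nat.mod_lt (j : ℕ) hs1
        rw [h3] at h4
        simp only [Finset.coe_Ico, Set.mem_Ico]
        constructor
        · rw [mul_comm]; omega
        · rw [mul_comm]; omega
      · intro j _ j' _ hjj
        exact Fin.ext hjj
    rw [Nat.card_Ico] at h1
    omega
  obtain ⟨f, hf, hsum⟩ := exists_transversal x g hgs s hs1 (fun k => by convert hfib k) T hT
  have hfi : Function.Injective f := by
    intro k k' hk
    rw [← hf k, ← hf k', hk]
  have h1 := rows_bound (⟨f, hfi⟩ : Fin N ↪ Fin n) x (((ST x T).card + 1) / M) (by positivity)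
    (fun t => atoms_le x f T hsum t)
  have h2 : Nat.card (Out (⟨f, hfi⟩ : Fin N ↪ Fin n)) = n - N := by
    rw [Nat.card_eq_fintype_card]
    have h3 := Fintype.card_subtype_compl (fun w : Fin n => w ∈ Set.range (⟨f, hfi⟩ : Fin N ↪ Fin n))
    rw [h3, Fintype.card_fin]
    congr 1
    have h4 : Fintype.card (Set.range (⟨f, hfi⟩ : Fin N ↪ Fin n)) = Fintype.card (Fin N) :=
      Set.card_range_of_injective hfi
    rw [Fintype.card_fin] at h4
    exact h4
  rw [h2] at h1
  exact h1

/-- vectors with a large spectrum -/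
theorem count_spectrum (n L : ℕ) (hL1 : 1 ≤ L) (hL : (M : ℝ) * Real.exp (-(L / 80 : ℝ)) ≤ 1) (T σ : ℝ) (hT : 0 ≤ T)
    (hσ : 0 < σ) (hσM : σ ≤ M) :
    ((Finset.univ.filter fun x : Fin n → ZMod M => σ ≤ (ST x T).card).card : ℝ) ≤
      (M : ℝ) ^ L * 2 ^ n * (M : ℝ) ^ ⌊320 * T⌋₊ * (3 * M / σ) ^ n := by
  have hM := M_pos (M := M)
  have hM1 : (1 : ℝ) ≤ M := by
    have := NeZero.pos M
    exact_mod_cast this
  set t := ⌊320 * T⌋₊ with ht
  set B : (Fin L → ZMod M) → Finset (ZMod M) :=
    fun a => Finset.univ.filter fun y : ZMod M => ∑ i, nd (a i * y) ^ 2 ≤ (L : ℝ) / 320 with hB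
  set A : Finset (Fin L → ZMod M) := Finset.univ.filter fun a => ((B a).card : ℝ) ≤ 3 * M / σ with hA
  set U : Finset (Finset (Fin n)) := Finset.univ.filter fun E => E.card ≤ t with hU
  have hsub : (Finset.univ.filter fun x : Fin n → ZMod M => σ ≤ (ST x T).card) ⊆
      (A ×ˢ U).biUnion fun p => Fintype.piFinset fun j => if j ∈ p.2 then Finset.univ else B p.1 := by
    intro x hx
    have hx1 : σ ≤ (ST x T).card := (Finset.mem_filter.1 hx).2
    obtain ⟨a, haS, hac⟩ := exists_sample (ST x T) ⟨0, zero_mem_ST hT⟩ L hL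
    have hc0 : (0 : ℝ) < (ST x T).card := lt_of_lt_of_le hσ hx1
    rw [Finset.mem_biUnion]
    refine ⟨(a, Finset.univ.filter fun j => x j ∉ B a), ?_, ?_⟩
    · rw [Finset.mem_product]
      constructor
      · refine Finset.mem_filter.2 ⟨Finset.mem_univ _, ?_⟩
        rw [le_div_iff₀ hσ]
        calc ((B a).card : ℝ) * σ ≤ (B a).card * (ST x T).card := mul_le_mul_of_nonneg_left hx1 (Nat.cast_nonneg _)
          _ = (ST x T).card * (B a).card := mul_comm _ _
          _ ≤ 3 * M := hac
      · refine Finset.mem_filter.2 ⟨Finset.mem_univ _, ?_⟩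
        rw [ht]
        refine Nat.le_floor ?_
        have hLpos : (0 : ℝ) < L := by exact_mod_cast hL1
        have h1 : ∑ j, ∑ i, nd (a i * x j) ^ 2 ≤ L * T := by
          rw [Finset.sum_comm]
          calc ∑ i, ∑ j, nd (a i * x j) ^ 2 ≤ ∑ _i : Fin L, T :=
                Finset.sum_le_sum fun i _ => mem_ST.1 (haS i)
            _ = L * T := by rw [Finset.sum_const, Finset.card_univ, Fintype.card_fin, nsmul_eq_mul]
        have h2 : ((Finset.univ.filter fun j => x j ∉ B a).card : ℝ) * (L / 320) ≤ L * T := by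
          calc ((Finset.univ.filter fun j => x j ∉ B a).card : ℝ) * (L / 320)
              = ∑ _j ∈ (Finset.univ.filter fun j => x j ∉ B a), ((L : ℝ) / 320) := by
                rw [Finset.sum_const, nsmul_eq_mul]
            _ ≤ ∑ j ∈ (Finset.univ.filter fun j => x j ∉ B a), ∑ i, nd (a i * x j) ^ 2 := by
                refine Finset.sum_le_sum fun j hj => ?_
                have h3 := (Finset.mem_filter.1 hj).2
                by_contra h4
                push Not at h4
                exact h3 (Finset.mem_filter.2 ⟨Finset.mem_univ _, h4.le⟩)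
            _ ≤ ∑ j, ∑ i, nd (a i * x j) ^ 2 :=
                Finset.sum_le_sum_of_subset_of_nonneg (Finset.subset_univ _) fun _ _ _ =>
                  Finset.sum_nonneg fun _ _ => sq_nonneg _
            _ ≤ _ := h1
        have h5 : (L : ℝ) * (((Finset.univ.filter fun j => x j ∉ B a).card : ℝ) / 320) ≤ L * T := by
          calc (L : ℝ) * (((Finset.univ.filter fun j => x j ∉ B a).card : ℝ) / 320)
              = ((Finset.univ.filter fun j => x j ∉ B a).card : ℝ) * (L / 320) := by ring
            _ ≤ _ := h2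
        have h6 := le_of_mul_le_mul_left h5 hLpos
        linarith
    · rw [Fintype.mem_piFinset]
      intro j
      by_cases hj : x j ∈ B a
      · have : j ∉ (Finset.univ.filter fun j => x j ∉ B a) := fun h => (Finset.mem_filter.1 h).2 hj
        simp only [this, if_false]
        exact hj
      · have : j ∈ (Finset.univ.filter fun j => x j ∉ B a) := Finset.mem_filter.2 ⟨Finset.mem_univ _, hj⟩
        simp only [this, if_true]
        exact Finset.mem_univ _
  have h3M : (1 : ℝ) ≤ 3 * M / σ := by
    rw [le_div_iff₀ hσ]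
    linarith
  have hterm : ∀ p ∈ A ×ˢ U, ((Fintype.piFinset fun j => if j ∈ p.2 then Finset.univ else B p.1).card : ℝ) ≤
      (M : ℝ) ^ t * (3 * M / σ) ^ n := by
    intro p hp
    obtain ⟨hp1, hp2⟩ := Finset.mem_product.1 hp
    have h1 := (Finset.mem_filter.1 hp1).2
    have h2 := (Finset.mem_filter.1 hp2).2
    rw [Fintype.card_piFinset]
    push_cast
    calc ∏ j, (((if j ∈ p.2 then (Finset.univ : Finset (ZMod M)) else B p.1).card : ℕ) : ℝ)
        ≤ ∏ j, ((if j ∈ p.2 then (M : ℝ) else 1) * (3 * M / σ)) := by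
          refine Finset.prod_le_prod (fun _ _ => Nat.cast_nonneg _) fun j _ => ?_
          by_cases hj : j ∈ p.2
          · simp only [hj, if_true]
            rw [Finset.card_univ, ZMod.card]
            nlinarith
          · simp only [hj, if_false, one_mul]
            exact h1
      _ = (M : ℝ) ^ p.2.card * (3 * M / σ) ^ n := by
          rw [Finset.prod_mul_distrib, Finset.prod_const, Finset.card_univ, Fintype.card_fin]
          congr 1
          rw [Finset.prod_ite_mem, Finset.univ_inter, Finset.prod_const]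
      _ ≤ (M : ℝ) ^ t * (3 * M / σ) ^ n := by
          refine mul_le_mul_of_nonneg_right ?_ (by positivity)
          exact pow_le_pow_right₀ hM1 h2
  calc ((Finset.univ.filter fun x : Fin n → ZMod M => σ ≤ (ST x T).card).card : ℝ)
      ≤ ((A ×ˢ U).biUnion fun p => Fintype.piFinset fun j => if j ∈ p.2 then Finset.univ else B p.1).card := by
        exact_mod_cast Finset.card_le_card hsub
    _ ≤ ∑ p ∈ A ×ˢ U, ((Fintype.piFinset fun j => if j ∈ p.2 then Finset.univ else B p.1).card : ℝ) := by
        exact_mod_cast Finset.card_biUnion_le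
    _ ≤ ∑ _p ∈ A ×ˢ U, (M : ℝ) ^ t * (3 * M / σ) ^ n := Finset.sum_le_sum hterm
    _ = (A.card * U.card : ℝ) * ((M : ℝ) ^ t * (3 * M / σ) ^ n) := by
        rw [Finset.sum_const, Finset.card_product, nsmul_eq_mul]
        push_cast
        ring
    _ ≤ ((M : ℝ) ^ L * 2 ^ n) * ((M : ℝ) ^ t * (3 * M / σ) ^ n) := by
        refine mul_le_mul_of_nonneg_right ?_ (by positivity)
        refine mul_le_mul ?_ ?_ (Nat.cast_nonneg _) (by positivity)
        · have : A.card ≤ M ^ L := by
            refine (Finset.card_le_univ A).trans ?_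
            rw [Fintype.card_fun, ZMod.card, Fintype.card_fin]
          exact_mod_cast this
        · have : U.card ≤ 2 ^ n := by
            refine (Finset.card_le_univ U).trans ?_
            rw [Fintype.card_finset, Fintype.card_fin]
          exact_mod_cast this
    _ = _ := by ring

end

end Pool.Agent.Lib.SymNC
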