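import Pool.Agent.Lib.SymNC.SpSample
import Pool.Agent.Lib.ThmG.GraphCount

/-!
# Rows of the adjacency matrix outside a transversal (spread theorem)
-/

set_option autoImplicit false

open scoped Classical

namespace Pool.Agent.Lib.SymNC

open Finset Matrix Pool.Agent.Lib.ThmG

noncomputable section

section rows

variable {V W : Type*} [Fintype V] [Fintype W] {R : Type*} [CommRing R]

/-- the row of a vertex outside -/
theorem row_split (s : V ↪ W) (G : SimpleGraph W) (x : W → R) (u : Out s) :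
    ((G.adjMatrix R) *ᵥ x) u = ∑ v, (if cols s G u v then x (s v) else 0) +
      ∑ u' : Out s, (if (G.comap (Subtype.val : Out s → W)).Adj u u' then x u' else 0) := by
  have h1 : ((G.adjMatrix R) *ᵥ x) u = ∑ w, (if G.Adj u w then x w else 0) := by
    rw [Matrix.mulVec, dotProduct]
    refine Finset.sum_congr rfl fun w _ => ?_
    rw [SimpleGraph.adjMatrix_apply]
    by_cases h : G.Adj u w
    · simp [h]
    · simp [h]
  rw [h1, ← (vert s).sum_comp, Fintype.sum_sum_type]
  congr 1
  refine Finset.sum_congr rfl fun v _ => ?_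
  rw [vert_inl]
  have h2 : cols s G u v = true ↔ G.Adj u (s v) := by
    rw [cols, decide_eq_true_iff, SimpleGraph.adj_comm]
  by_cases h : G.Adj u (s v)
  · rw [if_pos h, if_pos (h2.2 h)]
  · rw [if_neg h, if_neg (fun h3 => h (h2.1 h3))]

/-- rows outside of the image of `s` are independent -/
theorem rows_bound (s : V ↪ W) (x : W → R) (ρ : ℝ) (hρ : 0 ≤ ρ)
    (h : ∀ t : R, (Nat.card {b : V → Bool // ∑ v, (if b v then x (s v) else 0) = t} : ℝ)
      ≤ ρ * 2 ^ Fintype.card V) :
    (Nat.card {G : SimpleGraph W // (G.adjMatrix R) *ᵥ x = 0} : ℝ) ≤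
      ρ ^ Nat.card (Out s) * Nat.card (SimpleGraph W) := by
  set t : SimpleGraph (Out s) → Out s → R :=
    fun K u => -∑ u' : Out s, (if K.Adj u u' then x u' else 0) with ht
  -- injection
  let Z := SimpleGraph V × (Σ K : SimpleGraph (Out s),
    ((u : Out s) → {b : V → Bool // ∑ v, (if b v then x (s v) else 0) = t K u}))
  have hle : Nat.card {G : SimpleGraph W // (G.adjMatrix R) *ᵥ x = 0} ≤ Nat.card Z := by
    refine Nat.card_le_card_of_injective
      (fun G => (G.1.comap s, ⟨G.1.comap (Subtype.val : Out s → W), fun u => ⟨cols s G.1 u, ?_⟩⟩)) ?_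
    · have h1 := congrFun G.2 u
      rw [row_split] at h1
      rw [ht]
      exact eq_neg_of_add_eq_zero_left h1
    · intro G G' hGG
      have h1 : G.1.comap s = G'.1.comap s := congrArg Prod.fst hGG
      have h2 := congrArg Prod.snd hGG
      have h3 : G.1.comap (Subtype.val : Out s → W) = G'.1.comap (Subtype.val : Out s → W) :=
        congrArg Sigma.fst h2
      have h4 : cols s G.1 = cols s G'.1 := by
        have h5 : ∀ z z' : Z, z = z' → ∀ u, (z.2.2 u).1 = (z'.2.2 u).1 := by
          rintro z z' rfl u; rfl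
        funext u
        exact h5 _ _ hGG u
      apply Subtype.ext
      apply (exch s).injective
      rw [exch_apply, exch_apply, h1, h3, h4]
  have hZ : (Nat.card Z : ℝ) ≤ Nat.card (SimpleGraph V) * (Nat.card (SimpleGraph (Out s)) *
      (ρ * 2 ^ Fintype.card V) ^ Nat.card (Out s)) := by
    have h1 : Nat.card Z = Nat.card (SimpleGraph V) * ∑ K : SimpleGraph (Out s), ∏ u : Out s,
        Nat.card {b : V → Bool // ∑ v, (if b v then x (s v) else 0) = t K u} := by
      rw [Nat.card_prod, Nat.card_sigma]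
      congr 1
      refine Finset.sum_congr rfl fun K _ => ?_
      rw [Nat.card_pi]
    rw [h1]
    push_cast
    refine mul_le_mul_of_nonneg_left ?_ (Nat.cast_nonneg _)
    calc ∑ K : SimpleGraph (Out s), ∏ u : Out s,
          (Nat.card {b : V → Bool // ∑ v, (if b v then x (s v) else 0) = t K u} : ℝ)
        ≤ ∑ _K : SimpleGraph (Out s), ∏ _u : Out s, (ρ * 2 ^ Fintype.card V) := by
          refine Finset.sum_le_sum fun K _ => Finset.prod_le_prod (fun _ _ => Nat.cast_nonneg _) fun u _ => h _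
      _ = _ := by
          rw [Finset.sum_const, Finset.prod_const, nsmul_eq_mul, Finset.card_univ, Finset.card_univ,
            Nat.card_eq_fintype_card, Nat.card_eq_fintype_card]
  have hW : (Nat.card (SimpleGraph W) : ℝ) = Nat.card (SimpleGraph V) * (2 ^ Fintype.card V) ^ Nat.card (Out s) *
      Nat.card (SimpleGraph (Out s)) := by
    rw [card_exch s]
    push_cast
    congr 2
    rw [Nat.card_pi]
    push_cast
    rw [Finset.prod_const, Nat.card_pi]
    simp
  calc (Nat.card {G : SimpleGraph W // (G.adjMatrix R) *ᵥ x = 0} : ℝ) ≤ Nat.card Z := by exact_mod_cast hle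
    _ ≤ _ := hZ
    _ = _ := by rw [hW, mul_pow]; ring

end rows

section transversal

variable {M : ℕ} [NeZero M] {J K : Type*} [Fintype J] [Fintype K]

theorem factor_nonneg (y : ZMod M) : 0 ≤ 1 - 4 * nd y ^ 2 := by
  have := nd_sq_le y
  linarith

theorem factor_le_one (y : ZMod M) : 1 - 4 * nd y ^ 2 ≤ 1 := by
  have := sq_nonneg (nd y)
  linarith

theorem exists_transversal (x : J → ZMod M) (g : J → K) (hg : Function.Surjective g) (s : ℕ) (hs1 : 1 ≤ s)
    (hs : ∀ k, (Finset.univ.filter fun j => g j = k).card ≤ s) (T : ℝ)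
    (hT : (M : ℝ) * Real.exp (-(4 / s * T)) ≤ 1) :
    ∃ f : K → J, (∀ k, g (f k) = k) ∧
      ∑ a ∈ (Finset.univ.filter fun a => a ∉ ST x T), ∏ k, (1 - 4 * nd (a * x (f k)) ^ 2) ≤ 1 := by
  have hs0 : (0 : ℝ) < s := by exact_mod_cast hs1
  set F : K → Finset J := fun k => Finset.univ.filter fun j => g j = k with hF
  set P := Fintype.piFinset F with hP
  have hPc : (P.card : ℝ) = ∏ k, ((F k).card : ℝ) := by
    rw [hP, Fintype.card_piFinset]
    push_cast
    rfl
  have hPne : P.Nonempty := by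
    rw [hP, Fintype.piFinset_nonempty]
    intro k
    obtain ⟨j, hj⟩ := hg k
    exact ⟨j, Finset.mem_filter.2 ⟨Finset.mem_univ _, hj⟩⟩
  have hone : ∀ a : ZMod M, ∑ f ∈ P, ∏ k, (1 - 4 * nd (a * x (f k)) ^ 2) ≤ (P.card : ℝ) * Real.exp (-(4 / s * sg x a)) := by
    intro a
    calc ∑ f ∈ P, ∏ k, (1 - 4 * nd (a * x (f k)) ^ 2)
        = ∏ k, ∑ j ∈ F k, (1 - 4 * nd (a * x j) ^ 2) := by
          rw [hP, ← Finset.prod_univ_sum F (fun _ j => 1 - 4 * nd (a * x j) ^ 2)]
      _ ≤ ∏ k, ((F k).card * Real.exp (-(4 / s * ∑ j ∈ F k, nd (a * x j) ^ 2))) := by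
          refine Finset.prod_le_prod (fun k _ => Finset.sum_nonneg fun j _ => factor_nonneg _) fun k _ => ?_
          have hc0 : (0 : ℝ) < (F k).card := by
            obtain ⟨j, hj⟩ := hg k
            have : 0 < (F k).card := Finset.card_pos.2 ⟨j, Finset.mem_filter.2 ⟨Finset.mem_univ _, hj⟩⟩
            exact_mod_cast this
          have hcs : ((F k).card : ℝ) ≤ s := by exact_mod_cast hs k
          have hS0 : 0 ≤ ∑ j ∈ F k, nd (a * x j) ^ 2 := Finset.sum_nonneg fun _ _ => sq_nonneg _
          rw [Finset.sum_sub_distrib, ← Finset.mul_sum, Finset.sum_const, nsmul_eq_mul, mul_one]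
          have h1 : (1 : ℝ) - 4 / s * ∑ j ∈ F k, nd (a * x j) ^ 2 ≤ Real.exp (-(4 / s * ∑ j ∈ F k, nd (a * x j) ^ 2)) := by
            have := Real.add_one_le_exp (-(4 / s * ∑ j ∈ F k, nd (a * x j) ^ 2))
            linarith
          have h2 : ((F k).card : ℝ) * (1 - 4 / s * ∑ j ∈ F k, nd (a * x j) ^ 2)
              ≤ (F k).card * Real.exp (-(4 / s * ∑ j ∈ F k, nd (a * x j) ^ 2)) :=
            mul_le_mul_of_nonneg_left h1 hc0.le
          refine le_trans ?_ h2
          have h3 : ((F k).card : ℝ) * (4 / s) ≤ 4 := by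
            rw [mul_div_assoc', div_le_iff₀ hs0]
            linarith
          have h4 : ((F k).card : ℝ) * (4 / s) * ∑ j ∈ F k, nd (a * x j) ^ 2 ≤ 4 * ∑ j ∈ F k, nd (a * x j) ^ 2 :=
            mul_le_mul_of_nonneg_right h3 hS0
          linarith
      _ = P.card * Real.exp (-(4 / s * sg x a)) := by
          rw [Finset.prod_mul_distrib, hPc, ← Real.exp_sum]
          congr 2
          rw [Finset.sum_neg_distrib, ← Finset.mul_sum]
          congr 2
          rw [sg, ← Finset.sum_fiberwise Finset.univ g]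
  have htot : ∑ f ∈ P, ∑ a ∈ (Finset.univ.filter fun a => a ∉ ST x T), ∏ k, (1 - 4 * nd (a * x (f k)) ^ 2) ≤ (P.card : ℝ) := by
    rw [Finset.sum_comm]
    calc ∑ a ∈ (Finset.univ.filter fun a => a ∉ ST x T), ∑ f ∈ P, ∏ k, (1 - 4 * nd (a * x (f k)) ^ 2)
        ≤ ∑ a ∈ (Finset.univ.filter fun a => a ∉ ST x T), (P.card : ℝ) * Real.exp (-(4 / s * T)) := by
          refine Finset.sum_le_sum fun a ha => (hone a).trans ?_
          refine mul_le_mul_of_nonneg_left ?_ (Nat.cast_nonneg _)
          have h1 : ¬ sg x a ≤ T := fun h => (Finset.mem_filter.1 ha).2 (mem_ST.2 h)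
          push Not at h1
          refine Real.exp_le_exp.2 (neg_le_neg ?_)
          exact mul_le_mul_of_nonneg_left h1.le (by positivity)
      _ ≤ ∑ _a : ZMod M, (P.card : ℝ) * Real.exp (-(4 / s * T)) :=
          Finset.sum_le_sum_of_subset_of_nonneg (Finset.subset_univ _) fun _ _ _ => by positivity
      _ = P.card * (M * Real.exp (-(4 / s * T))) := by
          rw [Finset.sum_const, Finset.card_univ, ZMod.card, nsmul_eq_mul]; ring
      _ ≤ P.card * 1 := mul_le_mul_of_nonneg_left hT (Nat.cast_nonneg _)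
      _ = P.card := mul_one _
  obtain ⟨f, hf, hle⟩ : ∃ f ∈ P, ∑ a ∈ (Finset.univ.filter fun a => a ∉ ST x T),
      ∏ k, (1 - 4 * nd (a * x (f k)) ^ 2) ≤ 1 := by
    by_contra hcon
    push Not at hcon
    have := Finset.sum_lt_sum_of_nonempty hPne fun f hf => hcon f hf
    rw [Finset.sum_const, nsmul_eq_mul, mul_one] at this
    linarith
  exact ⟨f, fun k => (Finset.mem_filter.1 (Fintype.mem_piFinset.1 hf k)).2, hle⟩

theorem atoms_le (x : J → ZMod M) (f : K → J) (T : ℝ)
    (h : ∑ a ∈ (Finset.univ.filter fun a => a ∉ ST x T), ∏ k, (1 - 4 * nd (a * x (f k)) ^ 2) ≤ 1) (t : ZMod M) :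
    (Nat.card {b : K → Bool // ∑ k, (if b k then x (f k) else 0) = t} : ℝ) ≤
      ((ST x T).card + 1) / M * 2 ^ Fintype.card K := by
  have h1 := card_le_fourier (fun k => x (f k)) t
  have h2 : (Nat.card {b : K → Bool // ∑ k, (if b k then x (f k) else 0) = t} : ℝ)
      = ((Finset.univ.filter fun b : K → Bool => ∑ k, (if b k then x (f k) else 0) = t).card : ℝ) := by
    rw [Nat.card_eq_fintype_card, Fintype.card_subtype]
  rw [h2]
  have h3 : ∑ a : ZMod M, ∏ k, (1 - 4 * nd (a * x (f k)) ^ 2) ≤ ((ST x T).card : ℝ) + 1 := by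
    rw [← Finset.sum_filter_add_sum_filter_not Finset.univ (fun a => a ∈ ST x T)]
    refine add_le_add ?_ h
    calc ∑ a ∈ (Finset.univ.filter fun a => a ∈ ST x T), ∏ k, (1 - 4 * nd (a * x (f k)) ^ 2)
        ≤ ∑ _a ∈ (Finset.univ.filter fun a => a ∈ ST x T), (1 : ℝ) :=
          Finset.sum_le_sum fun a _ => Finset.prod_le_one (fun _ _ => factor_nonneg _) (fun _ _ => factor_le_one _)
      _ = (ST x T).card := by
          rw [Finset.sum_const, nsmul_eq_mul, mul_one]
          congr 2
          ext a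
          simp
  calc ((Finset.univ.filter fun b : K → Bool => ∑ k, (if b k then x (f k) else 0) = t).card : ℝ)
      ≤ 2 ^ Fintype.card K / M * ∑ a : ZMod M, ∏ k, (1 - 4 * nd (a * x (f k)) ^ 2) := h1
    _ ≤ 2 ^ Fintype.card K / M * ((ST x T).card + 1) := mul_le_mul_of_nonneg_left h3 (by positivity)
    _ = _ := by ring

end transversal

end

end Pool.Agent.Lib.SymNC
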