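import Pool.Agent.Lib.SymNC.SpTorus

/-!
# Sampling characters, and the doubling alternative (spread theorem)
-/

set_option autoImplicit false

namespace Pool.Agent.Lib.SymNC

open Finset

noncomputable section

variable {M : ℕ} [NeZero M]

/-- `e^{-4u} ≤ 1 - 2u` on `[0, 1/4]` -/
theorem exp_neg_four_le {u : ℝ} (h0 : 0 ≤ u) (h1 : u ≤ 1 / 4) : Real.exp (-(4 * u)) ≤ 1 - 2 * u := by
  -- convexity between `0` and `1/4`
  have hconv := convexOn_exp
  have h := hconv.2 (Set.mem_univ (0 : ℝ)) (Set.mem_univ (-1 : ℝ)) (show (0 : ℝ) ≤ 1 - 4 * u by linarith)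
    (show (0 : ℝ) ≤ 4 * u by linarith) (by ring)
  simp only [smul_eq_mul, mul_zero, zero_add, Real.exp_zero, mul_one, mul_neg] at h
  have h2 : Real.exp (-1) ≤ 1 / 2 := by
    have := Real.exp_neg_one_lt_half
    linarith
  have h3 : 4 * u * Real.exp (-1) ≤ 4 * u * (1 / 2) := mul_le_mul_of_nonneg_left h2 (by linarith)
  linarith

theorem exists_sample (S : Finset (ZMod M)) (hS : S.Nonempty) (L : ℕ)
    (hL : (M : ℝ) * Real.exp (-(L / 80 : ℝ)) ≤ 1) :
    ∃ a : Fin L → ZMod M, (∀ i, a i ∈ S) ∧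
      (S.card : ℝ) * (Finset.univ.filter fun y : ZMod M => ∑ i, nd (a i * y) ^ 2 ≤ (L : ℝ) / 320).card ≤ 3 * M := by
  classical
  set Y : Finset (ZMod M) := Finset.univ.filter fun y => ∑ a ∈ S, nd (a * y) ^ 2 ≤ 1 / 80 * S.card with hY
  have hYc := card_mul_card_le S Y (1 / 80) (by norm_num) (fun y hy => (Finset.mem_filter.1 hy).2)
  have hSM : (S.card : ℝ) ≤ M := by
    have := Finset.card_le_univ S
    rw [ZMod.card] at this
    exact_mod_cast this
  set P := Fintype.piFinset (fun _ : Fin L => S) with hP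
  have hPc : (P.card : ℝ) = (S.card : ℝ) ^ L := by
    rw [hP, Fintype.card_piFinset]
    simp
  have hPne : P.Nonempty := by
    rw [hP, Fintype.piFinset_nonempty]
    exact fun _ => hS
  set B : (Fin L → ZMod M) → Finset (ZMod M) :=
    fun a => Finset.univ.filter fun y : ZMod M => ∑ i, nd (a i * y) ^ 2 ≤ (L : ℝ) / 320 with hB
  -- the bound for one `y`
  have hone : ∀ y ∉ Y, ∑ a ∈ P, (if y ∈ B a then (1 : ℝ) else 0) ≤ (S.card : ℝ) ^ L * Real.exp (-(L / 80 : ℝ)) := by
    intro y hy
    have hy' : 1 / 80 * (S.card : ℝ) < ∑ a ∈ S, nd (a * y) ^ 2 := by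
      by_contra hcon
      push Not at hcon
      exact hy (Finset.mem_filter.2 ⟨Finset.mem_univ _, hcon⟩)
    calc ∑ a ∈ P, (if y ∈ B a then (1 : ℝ) else 0)
        ≤ ∑ a ∈ P, ∏ i, Real.exp (1 / 80 - 4 * nd (a i * y) ^ 2) := by
          refine Finset.sum_le_sum fun a _ => ?_
          rw [← Real.exp_sum]
          by_cases h : y ∈ B a
          · rw [if_pos h]
            refine Real.one_le_exp ?_
            rw [Finset.sum_sub_distrib, ← Finset.mul_sum, Finset.sum_const, Finset.card_univ, Fintype.card_fin,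
              nsmul_eq_mul]
            have := (Finset.mem_filter.1 h).2
            linarith
          · rw [if_neg h]
            positivity
      _ = (∑ a ∈ S, Real.exp (1 / 80 - 4 * nd (a * y) ^ 2)) ^ L := by
          rw [hP]
          rw [← Finset.prod_univ_sum (fun _ : Fin L => S) (fun _ a => Real.exp (1 / 80 - 4 * nd (a * y) ^ 2))]
          rw [Finset.prod_const, Finset.card_univ, Fintype.card_fin]
      _ ≤ (S.card * Real.exp (-(1 / 80))) ^ L := by
          refine pow_le_pow_left₀ (Finset.sum_nonneg fun _ _ => (Real.exp_pos _).le) ?_ L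
          have h1 : ∀ a ∈ S, Real.exp (1 / 80 - 4 * nd (a * y) ^ 2) ≤ Real.exp (1 / 80) * (1 - 2 * nd (a * y) ^ 2) := by
            intro a _
            rw [sub_eq_add_neg, Real.exp_add]
            exact mul_le_mul_of_nonneg_left (exp_neg_four_le (sq_nonneg _) (nd_sq_le _)) (Real.exp_pos _).le
          refine (Finset.sum_le_sum h1).trans ?_
          rw [← Finset.mul_sum, Finset.sum_sub_distrib, ← Finset.mul_sum, Finset.sum_const, nsmul_eq_mul, mul_one]
          have h2 : (S.card : ℝ) - 2 * ∑ a ∈ S, nd (a * y) ^ 2 ≤ S.card * Real.exp (-(1 / 40)) := by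
            have h3 : (1 : ℝ) - 1 / 40 ≤ Real.exp (-(1 / 40)) := by
              have := Real.add_one_le_exp (-(1 / 40 : ℝ))
              linarith
            have h4 : (S.card : ℝ) * (1 - 1 / 40) ≤ S.card * Real.exp (-(1 / 40)) :=
              mul_le_mul_of_nonneg_left h3 (Nat.cast_nonneg _)
            linarith
          calc Real.exp (1 / 80) * ((S.card : ℝ) - 2 * ∑ a ∈ S, nd (a * y) ^ 2)
              ≤ Real.exp (1 / 80) * (S.card * Real.exp (-(1 / 40))) :=
                mul_le_mul_of_nonneg_left h2 (Real.exp_pos _).le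
            _ = S.card * Real.exp (-(1 / 80)) := by
                rw [mul_left_comm, ← Real.exp_add]
                norm_num
      _ = (S.card : ℝ) ^ L * Real.exp (-(L / 80 : ℝ)) := by
          rw [mul_pow, ← Real.exp_nat_mul]
          congr 2
          ring
  have htot : ∑ a ∈ P, ((B a).card : ℝ) ≤ P.card * (Y.card + 1) := by
    have h1 : ∀ a, ((B a).card : ℝ) = ∑ y : ZMod M, (if y ∈ B a then (1 : ℝ) else 0) := by
      intro a
      simp
    simp only [h1]
    rw [Finset.sum_comm, ← Finset.sum_filter_add_sum_filter_not Finset.univ (fun y => y ∈ Y)]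
    have h2 : ∑ y ∈ Finset.univ.filter (fun y => y ∈ Y), ∑ a ∈ P, (if y ∈ B a then (1 : ℝ) else 0)
        ≤ P.card * Y.card := by
      have : Finset.univ.filter (fun y => y ∈ Y) = Y := by ext; simp
      rw [this]
      calc ∑ y ∈ Y, ∑ a ∈ P, (if y ∈ B a then (1 : ℝ) else 0) ≤ ∑ _y ∈ Y, ∑ _a ∈ P, (1 : ℝ) := by
            refine Finset.sum_le_sum fun y _ => Finset.sum_le_sum fun a _ => ?_
            split_ifs <;> norm_num
        _ = _ := by
            rw [Finset.sum_const, Finset.sum_const, nsmul_eq_mul, nsmul_eq_mul]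
            ring
    have h3 : ∑ y ∈ Finset.univ.filter (fun y => ¬ y ∈ Y), ∑ a ∈ P, (if y ∈ B a then (1 : ℝ) else 0)
        ≤ P.card := by
      calc ∑ y ∈ Finset.univ.filter (fun y => ¬ y ∈ Y), ∑ a ∈ P, (if y ∈ B a then (1 : ℝ) else 0)
          ≤ ∑ _y ∈ Finset.univ.filter (fun y => ¬ y ∈ Y), (S.card : ℝ) ^ L * Real.exp (-(L / 80 : ℝ)) :=
            Finset.sum_le_sum fun y hy => hone y (Finset.mem_filter.1 hy).2
        _ ≤ ∑ _y : ZMod M, (S.card : ℝ) ^ L * Real.exp (-(L / 80 : ℝ)) :=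
            Finset.sum_le_sum_of_subset_of_nonneg (Finset.subset_univ _) fun _ _ _ => by positivity
        _ = (S.card : ℝ) ^ L * (M * Real.exp (-(L / 80 : ℝ))) := by
            rw [Finset.sum_const, Finset.card_univ, ZMod.card, nsmul_eq_mul]
            ring
        _ ≤ (S.card : ℝ) ^ L * 1 := mul_le_mul_of_nonneg_left hL (by positivity)
        _ = P.card := by rw [hPc, mul_one]
    linarith
  obtain ⟨a, ha, hle⟩ : ∃ a ∈ P, ((B a).card : ℝ) ≤ Y.card + 1 := by
    by_contra hcon
    push Not at hcon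
    have : ∑ _a ∈ P, ((Y.card : ℝ) + 1) < ∑ a ∈ P, ((B a).card : ℝ) :=
      Finset.sum_lt_sum_of_nonempty hPne fun a ha => hcon a ha
    rw [Finset.sum_const, nsmul_eq_mul] at this
    linarith
  refine ⟨a, fun i => Fintype.mem_piFinset.1 ha i, ?_⟩
  have h1 : (S.card : ℝ) * (B a).card ≤ S.card * (Y.card + 1) :=
    mul_le_mul_of_nonneg_left hle (Nat.cast_nonneg _)
  have h2 : (1 - 20 * (1 / 80 : ℝ)) ^ 2 = 9 / 16 := by norm_num
  rw [h2] at hYc
  have hM := M_pos (M := M)
  show (S.card : ℝ) * (B a).card ≤ 3 * M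
  nlinarith

/-! ### The spectrum of a vector -/

variable {J : Type*} [Fintype J]

/-- `∑ ‖a x_j / M‖²` -/
def sg (x : J → ZMod M) (a : ZMod M) : ℝ := ∑ j, nd (a * x j) ^ 2

theorem sg_nonneg (x : J → ZMod M) (a : ZMod M) : 0 ≤ sg x a :=
  Finset.sum_nonneg fun _ _ => sq_nonneg _

@[simp] theorem sg_zero (x : J → ZMod M) : sg x 0 = 0 := by simp [sg]

theorem sg_neg (x : J → ZMod M) (a : ZMod M) : sg x (-a) = sg x a := by
  unfold sg
  refine Finset.sum_congr rfl fun j _ => ?_
  rw [neg_mul, nd_neg]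

theorem sg_add_le (x : J → ZMod M) (a b : ZMod M) : sg x (a + b) ≤ 2 * sg x a + 2 * sg x b := by
  unfold sg
  rw [Finset.mul_sum, Finset.mul_sum, ← Finset.sum_add_distrib]
  refine Finset.sum_le_sum fun j _ => ?_
  have h := nd_add_le (a * x j) (b * x j)
  rw [← add_mul] at h
  have h1 := nd_nonneg (a * x j)
  have h2 := nd_nonneg (b * x j)
  have h3 := nd_nonneg ((a + b) * x j)
  nlinarith [sq_nonneg (nd (a * x j) - nd (b * x j))]

/-- the spectrum -/
def ST (x : J → ZMod M) (T : ℝ) : Finset (ZMod M) := Finset.univ.filter fun a => sg x a ≤ T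

theorem mem_ST {x : J → ZMod M} {T : ℝ} {a : ZMod M} : a ∈ ST x T ↔ sg x a ≤ T := by
  simp [ST]

theorem zero_mem_ST {x : J → ZMod M} {T : ℝ} (hT : 0 ≤ T) : (0 : ZMod M) ∈ ST x T := by
  rw [mem_ST, sg_zero]; exact hT

/-- a subgroup in the spectrum: most coordinates vanish modulo a prime -/
theorem sparse_of_subgroup (x : J → ZMod M) (H : AddSubgroup (ZMod M)) (T : ℝ) (hH : ∃ a ∈ H, a ≠ 0)
    (h : ∀ a ∈ H, sg x a ≤ T) :
    ∃ p : ℕ, p.Prime ∧ p ∣ M ∧ ((Finset.univ.filter fun j => ¬ p ∣ (x j).val).card : ℝ) ≤ 20 * T := by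
  classical
  obtain ⟨a, haH, ha0⟩ := hH
  have hMpos : 0 < M := NeZero.pos M
  set g := Nat.gcd a.val M with hg
  have hgpos : 0 < g := Nat.gcd_pos_of_pos_right _ hMpos
  have hgM : g ∣ M := Nat.gcd_dvd_right _ _
  have hga : g ∣ a.val := Nat.gcd_dvd_left _ _
  have haval : 0 < a.val := Nat.pos_of_ne_zero fun h0 => ha0 ((ZMod.val_eq_zero a).1 h0)
  have hglt : g < M := lt_of_le_of_lt (Nat.le_of_dvd haval hga) (ZMod.val_lt a)
  obtain ⟨M', hM'⟩ := hgM
  obtain ⟨a', ha'⟩ := hga
  have hM'1 : M' ≠ 1 := by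
    intro h1
    rw [h1, mul_one] at hM'
    omega
  have hcop : Nat.Coprime M' a' := by
    have h1 : g = Nat.gcd (g * a') (g * M') := by
      rw [← ha', ← hM']
    rw [Nat.gcd_mul_left] at h1
    have h2 : Nat.gcd a' M' = 1 := by
      have h3 : g * 1 = g * Nat.gcd a' M' := by rw [mul_one]; exact h1
      exact (Nat.eq_of_mul_eq_mul_left hgpos h3).symm
    exact (Nat.coprime_comm.1 h2)
  have hp := Nat.minFac_prime hM'1
  refine ⟨M'.minFac, hp, (Nat.minFac_dvd M').trans ⟨g, by rw [hM']; ring⟩, ?_⟩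
  -- coordinates not divisible by `p` are not killed by `a`
  have hne : ∀ y : ZMod M, ¬ M'.minFac ∣ y.val → a * y ≠ 0 := by
    intro y hy h0
    apply hy
    refine (Nat.minFac_dvd M').trans ?_
    have h1 : M ∣ a.val * y.val := by
      rw [← ZMod.natCast_eq_zero_iff]
      push_cast
      rw [ZMod.natCast_val, ZMod.natCast_val, ZMod.cast_id, ZMod.cast_id]
      exact h0
    have h1' : g * M' ∣ g * (a' * y.val) := by
      have e : g * (a' * y.val) = a.val * y.val := by
        rw [← mul_assoc]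
        exact congrArg (fun w => w * y.val) ha'.symm
      rw [e]
      exact (dvd_of_eq hM'.symm).trans h1
    have h2 : M' ∣ a' * y.val := Nat.dvd_of_mul_dvd_mul_left hgpos h1'
    exact hcop.dvd_of_dvd_mul_left h2
  set Hf : Finset (ZMod M) := Finset.univ.filter fun b => b ∈ H with hHf
  have hHfpos : (0 : ℝ) < Hf.card := by
    have : 0 < Hf.card := Finset.card_pos.2 ⟨a, Finset.mem_filter.2 ⟨Finset.mem_univ _, haH⟩⟩
    exact_mod_cast this
  have hsum : ∀ y : ZMod M, a * y ≠ 0 → (Hf.card : ℝ) / 20 ≤ ∑ b ∈ Hf, nd (b * y) ^ 2 := by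
    intro y hy
    have h1 : ∑ b ∈ Hf, ch (b * y) = 0 := by
      have h2 : ∑ b ∈ Hf, ch (b * y) = ∑ b ∈ Hf, ch ((b + a) * y) := by
        refine (Finset.sum_bij (fun b _ => b + a) ?_ ?_ ?_ ?_).symm
        · intro b hb
          exact Finset.mem_filter.2 ⟨Finset.mem_univ _, H.add_mem (Finset.mem_filter.1 hb).2 haH⟩
        · intro b _ c _ hbc
          exact add_right_cancel hbc
        · intro b hb
          exact ⟨b - a, Finset.mem_filter.2 ⟨Finset.mem_univ _, H.sub_mem (Finset.mem_filter.1 hb).2 haH⟩,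
            sub_add_cancel b a⟩
        · intro b _
          rfl
      have h3 : ∀ b, ch ((b + a) * y) = ch (b * y) * ch (a * y) := by
        intro b
        rw [add_mul, ch_add]
      simp only [h3] at h2
      rw [← Finset.sum_mul] at h2
      have h4 : ch (a * y) ≠ 1 := by
        intro h5
        rw [← ch_zero (M := M)] at h5
        exact hy (ZMod.injective_stdAddChar h5)
      by_contra h6
      apply h4
      have h7 : (∑ b ∈ Hf, ch (b * y)) * 1 = (∑ b ∈ Hf, ch (b * y)) * ch (a * y) := by rw [mul_one]; exact h2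
      exact (mul_left_cancel₀ h6 h7).symm
    have h8 : ∑ b ∈ Hf, (1 - 20 * nd (b * y) ^ 2) ≤ 0 := by
      calc ∑ b ∈ Hf, (1 - 20 * nd (b * y) ^ 2) ≤ ∑ b ∈ Hf, (ch (b * y)).re :=
            Finset.sum_le_sum fun b _ => ch_re_ge _
        _ = (∑ b ∈ Hf, ch (b * y)).re := by rw [Complex.re_sum]
        _ = 0 := by rw [h1]; rfl
    rw [Finset.sum_sub_distrib, ← Finset.mul_sum, Finset.sum_const, nsmul_eq_mul, mul_one] at h8
    linarith
  set E : Finset J := Finset.univ.filter fun j => ¬ M'.minFac ∣ (x j).val with hE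
  have hlow : (E.card : ℝ) * (Hf.card / 20) ≤ Hf.card * T := by
    calc (E.card : ℝ) * (Hf.card / 20) = ∑ _j ∈ E, ((Hf.card : ℝ) / 20) := by
          rw [Finset.sum_const, nsmul_eq_mul]
      _ ≤ ∑ j ∈ E, ∑ b ∈ Hf, nd (b * x j) ^ 2 :=
          Finset.sum_le_sum fun j hj => hsum _ (hne _ (Finset.mem_filter.1 hj).2)
      _ ≤ ∑ j, ∑ b ∈ Hf, nd (b * x j) ^ 2 :=
          Finset.sum_le_sum_of_subset_of_nonneg (Finset.subset_univ _) fun _ _ _ =>
            Finset.sum_nonneg fun _ _ => sq_nonneg _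
      _ = ∑ b ∈ Hf, sg x b := by rw [Finset.sum_comm]; rfl
      _ ≤ ∑ _b ∈ Hf, T := Finset.sum_le_sum fun b hb => h b (Finset.mem_filter.1 hb).2
      _ = Hf.card * T := by rw [Finset.sum_const, nsmul_eq_mul]
  have h9 : (Hf.card : ℝ) * (E.card / 20) ≤ Hf.card * T := by
    calc (Hf.card : ℝ) * (E.card / 20) = (E.card : ℝ) * (Hf.card / 20) := by ring
      _ ≤ _ := hlow
  have h10 := le_of_mul_le_mul_left h9 hHfpos
  linarith

/-- very small doubling: the difference set is a subgroup -/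
theorem subgroup_of_small_doubling {G : Type*} [AddCommGroup G] [DecidableEq G] (A : Finset G)
    (hne : A.Nonempty) (h : 2 * (A.image₂ (· + ·) A).card < 3 * A.card) :
    ∃ H : AddSubgroup G, (∀ g ∈ H, ∃ a ∈ A, ∃ b ∈ A, g = a - b) ∧ (∀ a ∈ A, ∀ b ∈ A, a - b ∈ H) := by
  classical
  set B := A.image₂ (· + ·) A with hB
  -- translates
  have hint : ∀ a ∈ A, ∀ b ∈ A, A.card < 2 * (A ∩ A.image (fun y => a - b + y)).card := by
    intro a ha b hb
    have h1 : (A.image (fun y => a + y)) ∪ (A.image (fun y => b + y)) ⊆ B := by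
      intro z hz
      rcases Finset.mem_union.1 hz with hz | hz
      · obtain ⟨y, hy, rfl⟩ := Finset.mem_image.1 hz
        exact Finset.mem_image₂_of_mem ha hy
      · obtain ⟨y, hy, rfl⟩ := Finset.mem_image.1 hz
        exact Finset.mem_image₂_of_mem hb hy
    have h2 := Finset.card_le_card h1
    have h3 := Finset.card_union_add_card_inter (A.image (fun y => a + y)) (A.image (fun y => b + y))
    rw [Finset.card_image_of_injective _ (add_right_injective a),
      Finset.card_image_of_injective _ (add_right_injective b)] at h3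
    have h4 : ((A.image (fun y => a + y)) ∩ (A.image (fun y => b + y))).card
        = (A ∩ A.image (fun y => a - b + y)).card := by
      refine Finset.card_bij (fun z _ => z - b) ?_ ?_ ?_
      · intro z hz
        obtain ⟨hz1, hz2⟩ := Finset.mem_inter.1 hz
        obtain ⟨y, hy, rfl⟩ := Finset.mem_image.1 hz1
        obtain ⟨w, hw, hw2⟩ := Finset.mem_image.1 hz2
        refine Finset.mem_inter.2 ⟨?_, ?_⟩
        · have : a + y - b = w := by rw [← hw2]; abel
          rw [this]; exact hw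
        · exact Finset.mem_image.2 ⟨y, hy, by abel⟩
      · intro z _ w _ hzw
        exact sub_left_injective hzw
      · intro z hz
        obtain ⟨hz1, hz2⟩ := Finset.mem_inter.1 hz
        obtain ⟨y, hy, hy2⟩ := Finset.mem_image.1 hz2
        refine ⟨z + b, Finset.mem_inter.2 ⟨?_, ?_⟩, by abel⟩
        · exact Finset.mem_image.2 ⟨y, hy, by rw [← hy2]; abel⟩
        · exact Finset.mem_image.2 ⟨z, hz1, by abel⟩
    omega
  refine ⟨{ carrier := {g | ∃ a ∈ A, ∃ b ∈ A, g = a - b}, zero_mem' := ?_, add_mem' := ?_, neg_mem' := ?_ },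
    fun g hg => hg, fun a ha b hb => ⟨a, ha, b, hb, rfl⟩⟩
  · rintro _ _ ⟨a, ha, b, hb, rfl⟩ ⟨c, hc, d, hd, rfl⟩
    have h1 := hint a ha b hb
    have h2 := hint d hd c hc
    set X := A ∩ A.image (fun y => a - b + y) with hX
    set Y := A ∩ A.image (fun y => d - c + y) with hY
    have h3 : (X ∪ Y).card ≤ A.card :=
      Finset.card_le_card (Finset.union_subset Finset.inter_subset_left Finset.inter_subset_left)
    have h4 := Finset.card_union_add_card_inter X Y
    have h5 : 0 < (X ∩ Y).card := by omega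
    obtain ⟨t, ht⟩ := Finset.card_pos.1 h5
    obtain ⟨htX, htY⟩ := Finset.mem_inter.1 ht
    obtain ⟨s, hs, hs2⟩ := Finset.mem_image.1 (Finset.mem_inter.1 htX).2
    obtain ⟨u, hu, hu2⟩ := Finset.mem_image.1 (Finset.mem_inter.1 htY).2
    refine ⟨u, hu, s, hs, ?_⟩
    have h6 : a - b + s = d - c + u := hs2.trans hu2.symm
    have h7 : u = (a - b) + (c - d) + s := by
      calc u = (d - c + u) + (c - d) := by abel
        _ = (a - b + s) + (c - d) := by rw [h6]
        _ = _ := by abel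
    rw [h7]; abel
  · obtain ⟨a, ha⟩ := hne
    exact ⟨a, ha, a, ha, by abel⟩
  · rintro _ ⟨a, ha, b, hb, rfl⟩
    exact ⟨b, hb, a, ha, by abel⟩

/-- the doubling alternative -/
theorem doubling_alt (x : J → ZMod M) (r : ℕ) (T : ℝ) (hT : 0 ≤ T) (A : Finset (ZMod M)) (hA : A ⊆ ST x T)
    (h0 : (0 : ZMod M) ∈ A) (h2 : 2 ≤ A.card) :
    (∃ p : ℕ, p.Prime ∧ p ∣ M ∧ ((Finset.univ.filter fun j => ¬ p ∣ (x j).val).card : ℝ) ≤ 20 * (4 ^ r * T)) ∨
      (3 / 2 : ℝ) ^ r * A.card ≤ (ST x (4 ^ r * T)).card := by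
  classical
  induction r generalizing T A with
  | zero =>
    right
    simp only [pow_zero, one_mul]
    exact_mod_cast Finset.card_le_card hA
  | succ r ih =>
    set B := A.image₂ (· + ·) A with hB
    have hBT : B ⊆ ST x (4 * T) := by
      intro z hz
      obtain ⟨a, ha, b, hb, rfl⟩ := Finset.mem_image₂.1 hz
      rw [mem_ST]
      have h1 := mem_ST.1 (hA ha)
      have h3 := mem_ST.1 (hA hb)
      have := sg_add_le x a b
      linarith
    by_cases hs : 2 * B.card < 3 * A.card
    · left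
      obtain ⟨H, hH1, hH2⟩ := subgroup_of_small_doubling A ⟨0, h0⟩ hs
      have hT' : ∀ a ∈ H, sg x a ≤ 4 * T := by
        intro g hg
        obtain ⟨a, ha, b, hb, rfl⟩ := hH1 g hg
        have h1 := mem_ST.1 (hA ha)
        have h3 := mem_ST.1 (hA hb)
        have h4 := sg_add_le x a (-b)
        rw [sg_neg] at h4
        rw [sub_eq_add_neg]
        linarith
      have hne : ∃ a ∈ H, a ≠ 0 := by
        obtain ⟨a, ha, ha0⟩ : ∃ a ∈ A, a ≠ 0 := by
          by_contra hcon
          push Not at hcon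
          have : A ⊆ {0} := fun a ha => Finset.mem_singleton.2 (hcon a ha)
          have := Finset.card_le_card this
          simp at this
          omega
        exact ⟨a, by simpa using hH2 a ha 0 h0, ha0⟩
      obtain ⟨p, hp, hpM, hc⟩ := sparse_of_subgroup x H (4 * T) hne hT'
      refine ⟨p, hp, hpM, hc.trans ?_⟩
      have h5 : (1 : ℝ) ≤ 4 ^ r := one_le_pow₀ (by norm_num)
      have h6 : 4 * T ≤ 4 ^ r * (4 * T) := by nlinarith
      calc 20 * (4 * T) ≤ 20 * (4 ^ r * (4 * T)) := by linarith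
        _ = _ := by ring
    · push Not at hs
      have hB0 : (0 : ZMod M) ∈ B := Finset.mem_image₂.2 ⟨0, h0, 0, h0, add_zero 0⟩
      have hB2 : 2 ≤ B.card := by omega
      have h7 := ih (4 * T) (by linarith) B hBT hB0 hB2
      have e : (4 : ℝ) ^ r * (4 * T) = 4 ^ (r + 1) * T := by ring
      rw [e] at h7
      rcases h7 with h7 | h7
      · exact Or.inl h7
      · right
        refine le_trans ?_ h7
        have h8 : (3 : ℝ) / 2 * A.card ≤ B.card := by
          have : (3 : ℝ) * A.card ≤ 2 * B.card := by exact_mod_cast hs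
          linarith
        calc (3 / 2 : ℝ) ^ (r + 1) * A.card = (3 / 2) ^ r * (3 / 2 * A.card) := by ring
          _ ≤ (3 / 2) ^ r * B.card := mul_le_mul_of_nonneg_left h8 (by positivity)

end

end Pool.Agent.Lib.SymNC
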