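import Pool.Agent.Lib.SymNC.Spread

/-!
# Sparse kernel vectors modulo all primes `p` with `log p ≤ n^(1/4)` (complement of the spread theorem)
-/

set_option autoImplicit false

open scoped Classical

namespace Pool.Agent.Lib.SymNC

open Finset Matrix Pool.Agent.Lib.ThmG

noncomputable section

/-- kernel probability of a nonzero vector over a domain -/
theorem kernel_ne_zero {n : ℕ} {R : Type*} [CommRing R] (y : Fin n → R) (hy : y ≠ 0) :
    (Nat.card {G : SimpleGraph (Fin n) // (G.adjMatrix R) *ᵥ y = 0} : ℝ) ≤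
      (1 / 2) ^ (n - 1) * Nat.card (SimpleGraph (Fin n)) := by
  obtain ⟨j, hj⟩ : ∃ j, y j ≠ 0 := by
    by_contra hcon
    push Not at hcon
    exact hy (funext hcon)
  have hinj : Function.Injective (fun _ : Unit => j) := fun _ _ _ => rfl
  set s : Unit ↪ Fin n := ⟨fun _ => j, hinj⟩ with hs
  have h1 := rows_bound s y (1 / 2) (by norm_num) (fun t => ?_)
  · have h2 : Nat.card (Out s) = n - 1 := by
      rw [Nat.card_eq_fintype_card]
      have h3 := Fintype.card_subtype_compl (fun w : Fin n => w ∈ Set.range s)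
      have h4 : Fintype.card (Set.range s) = Fintype.card Unit := Set.card_range_of_injective hinj
      rw [Fintype.card_unit] at h4
      have h4' : Fintype.card {w : Fin n // w ∈ Set.range s} = 1 := h4
      rw [h3, Fintype.card_fin, h4']
    rw [h2] at h1
    exact h1
  · have h5 : Nat.card {b : Unit → Bool // ∑ v, (if b v then y (s v) else 0) = t} ≤ 1 := by
      rw [Finite.card_le_one_iff_subsingleton]
      constructor
      rintro ⟨b, hb⟩ ⟨b', hb'⟩
      apply Subtype.ext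
      funext u
      simp only [Finset.univ_unique, Finset.sum_singleton] at hb hb'
      have e1 : s default = j := rfl
      rw [e1] at hb hb'
      have hu : u = default := Subsingleton.elim _ _
      rw [hu]
      show b default = b' default
      cases h6 : b default <;> cases h7 : b' default
      · rfl
      · exfalso
        simp only [h6, h7, if_true, Bool.false_eq_true, if_false] at hb hb'
        exact hj (hb'.trans hb.symm)
      · exfalso
        simp only [h6, h7, if_true, Bool.false_eq_true, if_false] at hb hb'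
        exact hj (hb.trans hb'.symm)
      · rfl
    have h8 : (1 / 2 : ℝ) * 2 ^ Fintype.card Unit = 1 := by
      rw [Fintype.card_unit, pow_one]; norm_num
    rw [h8]
    exact_mod_cast h5

/-- the number of sparse vectors -/
theorem card_sparse_le {n p q : ℕ} [NeZero p] (hn : 1 ≤ n) :
    (Finset.univ.filter fun y : Fin n → ZMod p => (Finset.univ.filter fun j => y j ≠ 0).card ≤ q).card ≤ (n * p) ^ q := by
  let f : (Fin q → Fin n × ZMod p) → (Fin n → ZMod p) := fun F j => ∑ i, if (F i).1 = j then (F i).2 else 0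
  have h1 : (Finset.univ.filter fun y : Fin n → ZMod p => (Finset.univ.filter fun j => y j ≠ 0).card ≤ q) ⊆
      Finset.univ.image f := by
    intro y hy
    have hc := (Finset.mem_filter.1 hy).2
    set S := Finset.univ.filter fun j => y j ≠ 0 with hS
    obtain ⟨e⟩ : Nonempty (S ↪ Fin q) := by
      apply Function.Embedding.nonempty_of_card_le
      rw [Fintype.card_coe, Fintype.card_fin]
      exact hc
    rw [Finset.mem_image]
    refine ⟨fun i => if h : ∃ j : S, e j = i then ((h.choose : Fin n), y h.choose) else (⟨0, hn⟩, 0),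
      Finset.mem_univ _, ?_⟩
    funext j
    show ∑ i, (if (if h : ∃ j : S, e j = i then ((h.choose : Fin n), y h.choose) else ((⟨0, hn⟩ : Fin n), 0)).1 = j
      then (if h : ∃ j : S, e j = i then ((h.choose : Fin n), y h.choose) else ((⟨0, hn⟩ : Fin n), 0)).2 else 0) = y j
    have hch : ∀ k : S, ∀ h : (∃ j : S, e j = e k), h.choose = k := fun k h => e.injective h.choose_spec
    by_cases hj : y j = 0
    · rw [hj]
      refine Finset.sum_eq_zero fun i _ => ?_
      by_cases h : ∃ j : S, e j = i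
      · obtain ⟨k, rfl⟩ := h
        have h2 : ∃ j : S, e j = e k := ⟨k, rfl⟩
        simp only [dif_pos h2, hch k h2]
        by_cases h3 : (k : Fin n) = j
        · rw [if_pos h3, h3, hj]
        · rw [if_neg h3]
      · simp only [dif_neg h]
        split_ifs <;> rfl
    · have hjS : j ∈ S := Finset.mem_filter.2 ⟨Finset.mem_univ _, hj⟩
      rw [Finset.sum_eq_single (e ⟨j, hjS⟩)]
      · have h2 : ∃ j' : S, e j' = e ⟨j, hjS⟩ := ⟨_, rfl⟩
        simp only [dif_pos h2, hch ⟨j, hjS⟩ h2, if_true]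
      · intro i _ hi
        by_cases h : ∃ j : S, e j = i
        · obtain ⟨k, rfl⟩ := h
          have h2 : ∃ j : S, e j = e k := ⟨k, rfl⟩
          simp only [dif_pos h2, hch k h2]
          rw [if_neg]
          intro h3
          apply hi
          congr 1
          exact Subtype.ext h3
        · simp only [dif_neg h]
          split_ifs <;> rfl
      · intro h
        exact absurd (Finset.mem_univ _) h
  refine (Finset.card_le_card h1).trans (Finset.card_image_le.trans ?_)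
  rw [Finset.card_univ, Fintype.card_fun, Fintype.card_prod, Fintype.card_fin, Fintype.card_fin, ZMod.card]

/-- the sparse part -/
theorem sparse_kernel (ε : ℝ) (hε : 0 < ε) : ∃ n0 : ℕ, ∀ n ≥ n0,
    (Nat.card {G : SimpleGraph (Fin n) // ∃ p : ℕ, p.Prime ∧ Real.log p ≤ (n : ℝ) ^ (1 / 4 : ℝ) ∧
        ∃ y : Fin n → ZMod p, y ≠ 0 ∧ (G.adjMatrix (ZMod p)) *ᵥ y = 0 ∧
          ((Finset.univ.filter fun j => y j ≠ 0).card : ℝ) ≤ (n : ℝ) ^ (2 / 3 : ℝ)} : ℝ) ≤
      (1 / 2) ^ n * 2 ^ (ε * n) * Nat.card (SimpleGraph (Fin n)) := by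
  set W : ℝ := 64 * (1 / ε + 1) with hW
  have hεinv : 0 < 1 / ε := by positivity
  refine ⟨⌈W ^ 12⌉₊ + 1, fun n hn => ?_⟩
  have hn1 : 1 ≤ n := by omega
  have hn0 : (0 : ℝ) < n := by exact_mod_cast hn1
  set w : ℝ := (n : ℝ) ^ (1 / 12 : ℝ) with hw
  have hw0 : 0 < w := by rw [hw]; positivity
  have hw12 : w ^ 12 = n := by
    rw [hw, ← Real.rpow_natCast, ← Real.rpow_mul hn0.le]; norm_num
  have hw3 : (n : ℝ) ^ (1 / 4 : ℝ) = w ^ 3 := by
    rw [hw, ← Real.rpow_natCast, ← Real.rpow_mul hn0.le]; norm_num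
  have hw8 : (n : ℝ) ^ (2 / 3 : ℝ) = w ^ 8 := by
    rw [hw, ← Real.rpow_natCast, ← Real.rpow_mul hn0.le]; norm_num
  have hWw : W ≤ w := by
    have h1 : W ^ 12 ≤ w ^ 12 := by
      rw [hw12]
      calc W ^ 12 ≤ (⌈W ^ 12⌉₊ : ℝ) := Nat.le_ceil _
        _ ≤ n := by exact_mod_cast (by omega : ⌈W ^ 12⌉₊ ≤ n)
    exact le_of_pow_le_pow_left₀ (by norm_num) hw0.le h1
  have hw1 : 1 ≤ w := by
    have : 1 ≤ W := by rw [hW]; linarith
    linarith
  rw [hw3, hw8]
  set P := ⌊Real.exp (w ^ 3)⌋₊ with hP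
  set q := ⌊w ^ 8⌋₊ with hq
  have hPu : (P : ℝ) ≤ Real.exp (w ^ 3) := Nat.floor_le (Real.exp_pos _).le
  have hqu : (q : ℝ) ≤ w ^ 8 := Nat.floor_le (by positivity)
  have hnw : (n : ℝ) ≤ Real.exp (12 * w) := by
    rw [← hw12]
    have h1 : w ≤ Real.exp w := by
      have := Real.add_one_le_exp w
      linarith
    calc w ^ 12 ≤ (Real.exp w) ^ 12 := pow_le_pow_left₀ hw0.le h1 12
      _ = Real.exp (12 * w) := by rw [← Real.exp_nat_mul]; norm_num
  have hP1 : 1 ≤ P := by
    rw [hP]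
    refine Nat.le_floor ?_
    have := Real.one_le_exp (show 0 ≤ w ^ 3 by positivity)
    simpa using this
  have hP1r : (1 : ℝ) ≤ P := by exact_mod_cast hP1
  have hn1r : (1 : ℝ) ≤ n := by exact_mod_cast hn1
  -- union over the primes
  set g : ℝ := ((Nat.card (SimpleGraph (Fin n)) : ℕ) : ℝ) with hg
  have hg0 : 0 ≤ g := Nat.cast_nonneg _
  have h1 : Nat.card {G : SimpleGraph (Fin n) // ∃ p : ℕ, p.Prime ∧ Real.log p ≤ w ^ 3 ∧
        ∃ y : Fin n → ZMod p, y ≠ 0 ∧ (G.adjMatrix (ZMod p)) *ᵥ y = 0 ∧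
          ((Finset.univ.filter fun j => y j ≠ 0).card : ℝ) ≤ w ^ 8} ≤
      Nat.card {G : SimpleGraph (Fin n) // ∃ p ∈ (Finset.Icc 1 P).filter Nat.Prime, ∃ y : Fin n → ZMod p, y ≠ 0 ∧
        (G.adjMatrix (ZMod p)) *ᵥ y = 0 ∧ (Finset.univ.filter fun j => y j ≠ 0).card ≤ q} := by
    refine Nat.card_le_card_of_injective (fun G => ⟨G.1, ?_⟩) ?_
    · obtain ⟨p, hp, hlog, y, hy, hA, hc⟩ := G.2
      refine ⟨p, ?_, y, hy, hA, Nat.le_floor hc⟩
      rw [Finset.mem_filter, Finset.mem_Icc]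
      refine ⟨⟨hp.one_lt.le, ?_⟩, hp⟩
      refine Nat.le_floor ?_
      have hp0 : (0 : ℝ) < p := by exact_mod_cast hp.pos
      rw [← Real.exp_log hp0]
      exact Real.exp_le_exp.2 hlog
    · intro G G' h
      exact Subtype.ext (congrArg (fun z => z.1) h)
  have h2 := union_bound ((Finset.Icc 1 P).filter Nat.Prime) (fun p (G : SimpleGraph (Fin n)) =>
    ∃ y : Fin n → ZMod p, y ≠ 0 ∧ (G.adjMatrix (ZMod p)) *ᵥ y = 0 ∧ (Finset.univ.filter fun j => y j ≠ 0).card ≤ q)
  have h3 : ∀ p ∈ (Finset.Icc 1 P).filter Nat.Prime, (Nat.card {G : SimpleGraph (Fin n) //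
      ∃ y : Fin n → ZMod p, y ≠ 0 ∧ (G.adjMatrix (ZMod p)) *ᵥ y = 0 ∧
        (Finset.univ.filter fun j => y j ≠ 0).card ≤ q} : ℝ) ≤ (n * P) ^ q * ((1 / 2) ^ (n - 1) * g) := by
    intro p hp
    obtain ⟨hp1, hp2⟩ := Finset.mem_filter.1 hp
    haveI : NeZero p := ⟨hp2.ne_zero⟩
    have hpP : p ≤ P := (Finset.mem_Icc.1 hp1).2
    set Y := (Finset.univ.filter fun y : Fin n → ZMod p => (Finset.univ.filter fun j => y j ≠ 0).card ≤ q).filter
      (fun y => y ≠ 0) with hY
    have h4 : Nat.card {G : SimpleGraph (Fin n) // ∃ y : Fin n → ZMod p, y ≠ 0 ∧ (G.adjMatrix (ZMod p)) *ᵥ y = 0 ∧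
        (Finset.univ.filter fun j => y j ≠ 0).card ≤ q} ≤
        Nat.card {G : SimpleGraph (Fin n) // ∃ y ∈ Y, (G.adjMatrix (ZMod p)) *ᵥ y = 0} := by
      refine Nat.card_le_card_of_injective (fun G => ⟨G.1, ?_⟩) ?_
      · obtain ⟨y, hy, hA, hc⟩ := G.2
        exact ⟨y, Finset.mem_filter.2 ⟨Finset.mem_filter.2 ⟨Finset.mem_univ _, hc⟩, hy⟩, hA⟩
      · intro G G' h
        exact Subtype.ext (congrArg (fun z => z.1) h)
    have h5 := union_bound Y (fun y (G : SimpleGraph (Fin n)) => (G.adjMatrix (ZMod p)) *ᵥ y = 0)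
    calc _ ≤ ((∑ y ∈ Y, Nat.card {G : SimpleGraph (Fin n) // (G.adjMatrix (ZMod p)) *ᵥ y = 0} : ℕ) : ℝ) :=
          Nat.cast_le.2 (h4.trans h5)
      _ = ∑ y ∈ Y, (Nat.card {G : SimpleGraph (Fin n) // (G.adjMatrix (ZMod p)) *ᵥ y = 0} : ℝ) := by push_cast; rfl
      _ ≤ ∑ _y ∈ Y, (1 / 2) ^ (n - 1) * g := Finset.sum_le_sum fun y hy => kernel_ne_zero y (Finset.mem_filter.1 hy).2
      _ = Y.card * ((1 / 2) ^ (n - 1) * g) := by rw [Finset.sum_const, nsmul_eq_mul]
      _ ≤ _ := by
          refine mul_le_mul_of_nonneg_right ?_ (by positivity)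
          have h6 : Y.card ≤ (n * p) ^ q := (Finset.card_filter_le _ _).trans (card_sparse_le hn1)
          have h7 : (n * p) ^ q ≤ (n * P) ^ q := Nat.pow_le_pow_left (Nat.mul_le_mul_left _ hpP) _
          exact_mod_cast h6.trans h7
  have h8 : (P : ℝ) * ((n * P) ^ q * ((1 / 2) ^ (n - 1) * g)) ≤ (1 / 2) ^ n * 2 ^ (ε * n) * g := by
    have h9 : (P : ℝ) * (n * P) ^ q * 2 ≤ 2 ^ (ε * n) := by
      have h10 : (n : ℝ) * P ≤ Real.exp (12 * w + w ^ 3) := by
        rw [Real.exp_add]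
        exact mul_le_mul hnw hPu (by linarith) (Real.exp_pos _).le
      have h11 : ((n : ℝ) * P) ^ q ≤ Real.exp (w ^ 8 * (12 * w + w ^ 3)) := by
        calc ((n : ℝ) * P) ^ q ≤ (Real.exp (12 * w + w ^ 3)) ^ q := pow_le_pow_left₀ (by positivity) h10 q
          _ = Real.exp (q * (12 * w + w ^ 3)) := by rw [← Real.exp_nat_mul]
          _ ≤ _ := Real.exp_le_exp.2 (mul_le_mul_of_nonneg_right hqu (by positivity))
      have h12 : (2 : ℝ) ≤ Real.exp 1 := by
        have := Real.add_one_le_exp (1 : ℝ)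
        linarith
      calc (P : ℝ) * (n * P) ^ q * 2 ≤ Real.exp (w ^ 3) * Real.exp (w ^ 8 * (12 * w + w ^ 3)) * Real.exp 1 := by
            gcongr
        _ = Real.exp (w ^ 3 + w ^ 8 * (12 * w + w ^ 3) + 1) := by rw [← Real.exp_add, ← Real.exp_add]
        _ ≤ Real.exp (1 / 2 * (ε * n)) := by
            refine Real.exp_le_exp.2 ?_
            have h13 : w ^ 3 ≤ w ^ 11 := pow_le_pow_right₀ hw1 (by norm_num)
            have h14 : w ^ 9 ≤ w ^ 11 := pow_le_pow_right₀ hw1 (by norm_num)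
            have h15 : (1 : ℝ) ≤ w ^ 11 := one_le_pow₀ hw1
            have h16 : 64 ≤ ε * w := by
              have h17 : 64 * (1 / ε) ≤ w := by
                have : 64 * (1 / ε) ≤ W := by rw [hW]; linarith
                linarith
              have h18 : ε * (64 * (1 / ε)) ≤ ε * w := mul_le_mul_of_nonneg_left h17 hε.le
              have h19 : ε * (64 * (1 / ε)) = 64 := by field_simp
              linarith
            have h20 : 64 * w ^ 11 ≤ ε * w * w ^ 11 := mul_le_mul_of_nonneg_right h16 (by positivity)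
            have h21 : ε * w * w ^ 11 = ε * n := by rw [← hw12]; ring
            have h22 : w ^ 8 * (12 * w + w ^ 3) = 12 * w ^ 9 + w ^ 11 := by ring
            rw [h22]
            linarith
        _ = (Real.exp (1 / 2)) ^ (ε * n) := by rw [← Real.exp_mul]
        _ ≤ 2 ^ (ε * n) := by
            refine Real.rpow_le_rpow (Real.exp_pos _).le ?_ (by positivity)
            have h1 : Real.exp (1 / 2) ^ 2 = Real.exp 1 := by
              rw [← Real.exp_nat_mul]; norm_num
            have h2 := Real.exp_one_lt_d9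
            have h3 := Real.exp_pos (1 / 2)
            nlinarith
    have h23 : (1 / 2 : ℝ) ^ (n - 1) = (1 / 2) ^ n * 2 := by
      obtain ⟨k, hk⟩ := Nat.exists_eq_add_of_le hn1
      have : n - 1 = k := by omega
      rw [this, hk, pow_add, pow_one]
      ring
    rw [h23]
    calc (P : ℝ) * ((n * P) ^ q * ((1 / 2) ^ n * 2 * g)) = (P * (n * P) ^ q * 2) * ((1 / 2) ^ n * g) := by ring
      _ ≤ 2 ^ (ε * n) * ((1 / 2) ^ n * g) := mul_le_mul_of_nonneg_right h9 (by positivity)
      _ = _ := by ring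
  calc _ ≤ ((∑ p ∈ (Finset.Icc 1 P).filter Nat.Prime, Nat.card {G : SimpleGraph (Fin n) //
          ∃ y : Fin n → ZMod p, y ≠ 0 ∧ (G.adjMatrix (ZMod p)) *ᵥ y = 0 ∧
            (Finset.univ.filter fun j => y j ≠ 0).card ≤ q} : ℕ) : ℝ) := Nat.cast_le.2 (h1.trans h2)
    _ = ∑ p ∈ (Finset.Icc 1 P).filter Nat.Prime, (Nat.card {G : SimpleGraph (Fin n) //
          ∃ y : Fin n → ZMod p, y ≠ 0 ∧ (G.adjMatrix (ZMod p)) *ᵥ y = 0 ∧
            (Finset.univ.filter fun j => y j ≠ 0).card ≤ q} : ℝ) := by push_cast; rfl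
    _ ≤ ∑ _p ∈ (Finset.Icc 1 P).filter Nat.Prime, ((n : ℝ) * P) ^ q * ((1 / 2) ^ (n - 1) * g) := Finset.sum_le_sum h3
    _ = ((Finset.Icc 1 P).filter Nat.Prime).card * ((n * P) ^ q * ((1 / 2) ^ (n - 1) * g)) := by
        rw [Finset.sum_const, nsmul_eq_mul]
    _ ≤ P * ((n * P) ^ q * ((1 / 2) ^ (n - 1) * g)) := by
        refine mul_le_mul_of_nonneg_right ?_ (by positivity)
        have : ((Finset.Icc 1 P).filter Nat.Prime).card ≤ P := by
          refine (Finset.card_filter_le _ _).trans ?_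
          rw [Nat.card_Icc]
          omega
        exact_mod_cast this
    _ ≤ _ := h8

end

end Pool.Agent.Lib.SymNC
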