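import Mathlib

/-!
# Distance to zero in `ZMod M`, the standard character, Littlewood-Offord by Fourier, Parseval, sampling

`nd y = |y| / M` for `y : ZMod M`. Used for the spread theorem (`SymNC.Spread`).
-/

set_option autoImplicit false

namespace Pool.Agent.Lib.SymNC

open Finset

noncomputable section

variable {M : ℕ} [NeZero M]

/-- distance to the nearest integer of `y / M` -/
def nd (y : ZMod M) : ℝ := |(y.valMinAbs : ℝ)| / M

theorem M_pos : (0 : ℝ) < M := by
  have := NeZero.pos M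
  exact_mod_cast this

theorem nd_nonneg (y : ZMod M) : 0 ≤ nd y := by unfold nd; positivity

@[simp] theorem nd_zero : nd (0 : ZMod M) = 0 := by simp [nd, ZMod.valMinAbs_zero]

theorem nd_le_half (y : ZMod M) : nd y ≤ 1 / 2 := by
  unfold nd
  rw [div_le_div_iff₀ (M_pos (M := M)) (by norm_num)]
  have h := ZMod.natAbs_valMinAbs_le y
  have h2 : y.valMinAbs.natAbs * 2 ≤ M := by omega
  have h3 : |(y.valMinAbs : ℝ)| = (y.valMinAbs.natAbs : ℝ) := by
    rw [Nat.cast_natAbs, Int.cast_abs]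
  rw [h3, one_mul]
  exact_mod_cast h2

theorem nd_neg (y : ZMod M) : nd (-y) = nd y := by
  unfold nd
  have h := ZMod.natAbs_valMinAbs_neg y
  have h3 : ∀ z : ZMod M, |(z.valMinAbs : ℝ)| = (z.valMinAbs.natAbs : ℝ) := by
    intro z
    rw [Nat.cast_natAbs, Int.cast_abs]
  rw [h3, h3, h]

theorem nd_add_le (y z : ZMod M) : nd (y + z) ≤ nd y + nd z := by
  unfold nd
  rw [← add_div]
  refine div_le_div_of_nonneg_right ?_ (M_pos (M := M)).le
  have h := ZMod.natAbs_valMinAbs_add_le y z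
  have h3 : ∀ z : ℤ, |(z : ℝ)| = (z.natAbs : ℝ) := by
    intro z
    rw [Nat.cast_natAbs, Int.cast_abs]
  calc |((y + z).valMinAbs : ℝ)| = ((y + z).valMinAbs.natAbs : ℝ) := h3 _
    _ ≤ ((y.valMinAbs + z.valMinAbs).natAbs : ℝ) := by exact_mod_cast h
    _ = |((y.valMinAbs + z.valMinAbs : ℤ) : ℝ)| := (h3 _).symm
    _ = |(y.valMinAbs : ℝ) + z.valMinAbs| := by push_cast; rfl
    _ ≤ _ := abs_add_le _ _

theorem nd_sq_le (y : ZMod M) : nd y ^ 2 ≤ 1 / 4 := by
  have h := nd_le_half y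
  have h0 := nd_nonneg y
  nlinarith

/-- `cos (π t) ≤ 1 - 4 t^2` on `[0, 1/2]` -/
theorem cos_pi_le {t : ℝ} (h0 : 0 ≤ t) (h1 : t ≤ 1 / 2) : Real.cos (Real.pi * t) ≤ 1 - 4 * t ^ 2 := by
  -- `sin (π t / 2) ≥ √2 t`
  have hc : Real.cos (Real.pi * t) = 1 - 2 * Real.sin (Real.pi * t / 2) ^ 2 := by
    have h := Real.cos_two_mul (Real.pi * t / 2)
    have h2 := Real.sin_sq_add_cos_sq (Real.pi * t / 2)
    have h3 : 2 * (Real.pi * t / 2) = Real.pi * t := by ring
    rw [h3] at h
    rw [h]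
    linarith
  have hs : √2 * t ≤ Real.sin (Real.pi * t / 2) := by
    have hconc := strictConcaveOn_sin_Icc.concaveOn
    have h4 : Real.sin (Real.pi / 4) = √2 / 2 := Real.sin_pi_div_four
    have hx : (0 : ℝ) ∈ Set.Icc 0 Real.pi := ⟨le_rfl, Real.pi_pos.le⟩
    have hy : (Real.pi / 4 : ℝ) ∈ Set.Icc 0 Real.pi := ⟨by positivity, by linarith [Real.pi_pos]⟩
    have h5 := hconc.2 hx hy (show (0 : ℝ) ≤ 1 - 2 * t by linarith) (show (0 : ℝ) ≤ 2 * t by linarith)
      (by ring)
    simp only [smul_eq_mul, Real.sin_zero, mul_zero, zero_add, h4] at h5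
    have h6 : 2 * t * (Real.pi / 4) = Real.pi * t / 2 := by ring
    rw [h6] at h5
    calc √2 * t = 2 * t * (√2 / 2) := by ring
      _ ≤ _ := h5
  have hs2 : (√2 * t) ^ 2 ≤ Real.sin (Real.pi * t / 2) ^ 2 :=
    pow_le_pow_left₀ (by positivity) hs 2
  have h7 : (√2 * t) ^ 2 = 2 * t ^ 2 := by
    rw [mul_pow, Real.sq_sqrt (by norm_num)]
  rw [hc]
  linarith

/-- the standard character -/
abbrev ch (y : ZMod M) : ℂ := ZMod.stdAddChar y

theorem ch_eq (y : ZMod M) : ch y = Complex.exp (((2 * Real.pi * ((y.valMinAbs : ℝ) / M) : ℝ) : ℂ) * Complex.I) := by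
  have h : y = ((y.valMinAbs : ℤ) : ZMod M) := (ZMod.coe_valMinAbs y).symm
  rw [ch]
  conv_lhs => rw [h]
  rw [ZMod.stdAddChar_coe]
  congr 1
  push_cast
  ring

theorem norm_one_add_ch (y : ZMod M) : ‖1 + ch y‖ ≤ 2 * (1 - 4 * nd y ^ 2) := by
  rw [ch_eq]
  set θ : ℝ := (y.valMinAbs : ℝ) / M with hθ
  have hab : |θ| = nd y := by
    rw [hθ, abs_div, nd, abs_of_pos (M_pos (M := M))]
  have h1 : (1 : ℂ) + Complex.exp (((2 * Real.pi * θ : ℝ) : ℂ) * Complex.I)
      = Complex.exp (((Real.pi * θ : ℝ) : ℂ) * Complex.I) * ((2 * Real.cos (Real.pi * θ) : ℝ) : ℂ) := by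
    have h2 : ((2 * Real.cos (Real.pi * θ) : ℝ) : ℂ) =
        Complex.exp (((Real.pi * θ : ℝ) : ℂ) * Complex.I) + Complex.exp (-(((Real.pi * θ : ℝ) : ℂ) * Complex.I)) := by
      push_cast
      rw [Complex.two_cos]
      simp only [neg_mul]
    rw [h2, mul_add, ← Complex.exp_add, ← Complex.exp_add]
    simp only [add_neg_cancel, Complex.exp_zero]
    rw [add_comm]
    congr 2
    push_cast
    ring
  rw [h1, norm_mul, Complex.norm_exp_ofReal_mul_I, one_mul, Complex.norm_real, Real.norm_eq_abs,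
    abs_mul, abs_of_pos (show (0 : ℝ) < 2 by norm_num)]
  refine mul_le_mul_of_nonneg_left ?_ (by norm_num)
  have hc : Real.cos (Real.pi * θ) = Real.cos (Real.pi * |θ|) := by
    rw [← Real.cos_abs (Real.pi * θ), abs_mul, abs_of_pos Real.pi_pos]
  rw [hc, hab]
  have h0 := nd_nonneg y
  have h1 := nd_le_half y
  have hnn : 0 ≤ Real.cos (Real.pi * nd y) := by
    refine Real.cos_nonneg_of_neg_pi_div_two_le_of_le ?_ ?_
    · have := Real.pi_pos
      nlinarith
    · have := Real.pi_pos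
      nlinarith
  rw [abs_of_nonneg hnn]
  exact cos_pi_le h0 h1

theorem ch_re_ge (y : ZMod M) : 1 - 20 * nd y ^ 2 ≤ (ch y).re := by
  rw [ch_eq, Complex.exp_ofReal_mul_I_re]
  have h := Real.one_sub_sq_div_two_le_cos (x := 2 * Real.pi * ((y.valMinAbs : ℝ) / M))
  have h2 : ((y.valMinAbs : ℝ) / M) ^ 2 = nd y ^ 2 := by
    rw [nd, div_pow, div_pow, sq_abs]
  have h3 : Real.pi ^ 2 ≤ 10 := by
    have := Real.pi_lt_d2
    have := Real.pi_pos
    nlinarith
  have h4 : (2 * Real.pi * ((y.valMinAbs : ℝ) / M)) ^ 2 / 2 = 2 * Real.pi ^ 2 * nd y ^ 2 := by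
    rw [mul_pow, mul_pow, h2]; ring
  rw [h4] at h
  have h5 : 2 * Real.pi ^ 2 * nd y ^ 2 ≤ 20 * nd y ^ 2 := by
    have := sq_nonneg (nd y)
    nlinarith
  linarith

theorem norm_ch (y : ZMod M) : ‖ch y‖ = 1 := by
  rw [ch_eq, Complex.norm_exp_ofReal_mul_I]

theorem ch_add (y z : ZMod M) : ch (y + z) = ch y * ch z := AddChar.map_add_eq_mul _ _ _

theorem ch_zero : ch (0 : ZMod M) = 1 := AddChar.map_zero_eq_one _

theorem sum_ch (b : ZMod M) : ∑ a : ZMod M, ch (a * b) = if b = 0 then (M : ℂ) else 0 := by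
  classical
  have h := AddChar.sum_mulShift b (ZMod.isPrimitive_stdAddChar M)
  rw [ZMod.card] at h
  exact_mod_cast h

/-- Fourier bound for the atoms of a random subset sum -/
theorem card_le_fourier {V : Type*} [Fintype V] [DecidableEq V] (x : V → ZMod M) (t : ZMod M) :
    ((Finset.univ.filter fun b : V → Bool => ∑ v, (if b v then x v else 0) = t).card : ℝ) ≤
      2 ^ Fintype.card V / M * ∑ a : ZMod M, ∏ v, (1 - 4 * nd (a * x v) ^ 2) := by
  classical
  have hM := M_pos (M := M)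
  have h1 : ((Finset.univ.filter fun b : V → Bool => ∑ v, (if b v then x v else 0) = t).card : ℂ) * M
      = ∑ a : ZMod M, ch (-(a * t)) * ∏ v, (1 + ch (a * x v)) := by
    have h2 : ∀ a : ZMod M, ∏ v, (1 + ch (a * x v)) = ∑ b : V → Bool, ch (a * ∑ v, (if b v then x v else 0)) := by
      intro a
      have h3 : ∀ v, (1 + ch (a * x v)) = ∑ c : Bool, (if c then ch (a * x v) else 1) := by
        intro v
        rw [Fintype.sum_bool]
        simp [add_comm]
      simp only [h3]
      rw [Finset.prod_univ_sum, Fintype.piFinset_univ]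
      refine Finset.sum_congr rfl fun b _ => ?_
      rw [Finset.mul_sum]
      have h4 : ch (∑ v, a * (if b v then x v else 0)) = ∏ v, ch (a * (if b v then x v else 0)) := by
        have h5 : ∀ s : Finset V, ch (∑ v ∈ s, a * (if b v then x v else 0))
            = ∏ v ∈ s, ch (a * (if b v then x v else 0)) := by
          intro s
          induction s using Finset.induction_on with
          | empty => simp [ch_zero]
          | insert v s hv ih => rw [Finset.sum_insert hv, Finset.prod_insert hv, ch_add, ih]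
        exact h5 _
      rw [h4]
      refine Finset.prod_congr rfl fun v _ => ?_
      by_cases hb : b v = true
      · simp [hb]
      · simp [hb, ch_zero]
    have h2' : ∑ a : ZMod M, ch (-(a * t)) * ∏ v, (1 + ch (a * x v))
        = ∑ a : ZMod M, ∑ b : V → Bool, ch (-(a * t)) * ch (a * ∑ v, (if b v then x v else 0)) :=
      Finset.sum_congr rfl fun a _ => by rw [h2 a, Finset.mul_sum]
    rw [h2', Finset.sum_comm]
    have h6 : ∀ b : V → Bool, ∑ a : ZMod M, ch (-(a * t)) * ch (a * ∑ v, (if b v then x v else 0))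
        = if ∑ v, (if b v then x v else 0) = t then (M : ℂ) else 0 := by
      intro b
      have h7 : ∀ a : ZMod M, ch (-(a * t)) * ch (a * ∑ v, (if b v then x v else 0))
          = ch (a * ((∑ v, (if b v then x v else 0)) - t)) := by
        intro a
        rw [← ch_add]
        congr 1
        ring
      simp only [h7]
      rw [sum_ch]
      simp only [sub_eq_zero]
    simp only [h6]
    rw [← Finset.sum_filter, Finset.sum_const, nsmul_eq_mul]
  have h8 : ((Finset.univ.filter fun b : V → Bool => ∑ v, (if b v then x v else 0) = t).card : ℝ) * M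
      ≤ ∑ a : ZMod M, 2 ^ Fintype.card V * ∏ v, (1 - 4 * nd (a * x v) ^ 2) := by
    have h9 : ((Finset.univ.filter fun b : V → Bool => ∑ v, (if b v then x v else 0) = t).card : ℝ) * M
        = ‖((Finset.univ.filter fun b : V → Bool => ∑ v, (if b v then x v else 0) = t).card : ℂ) * M‖ := by
      rw [norm_mul, Complex.norm_natCast, Complex.norm_natCast]
    rw [h9, h1]
    refine (norm_sum_le _ _).trans (Finset.sum_le_sum fun a _ => ?_)
    rw [norm_mul, norm_ch, one_mul, norm_prod]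
    calc ∏ v, ‖1 + ch (a * x v)‖ ≤ ∏ v : V, (2 * (1 - 4 * nd (a * x v) ^ 2)) :=
          Finset.prod_le_prod (fun _ _ => norm_nonneg _) (fun v _ => norm_one_add_ch _)
      _ = _ := by rw [Finset.prod_mul_distrib, Finset.prod_const, Finset.card_univ]
  rw [← Finset.mul_sum] at h8
  rw [div_mul_eq_mul_div, le_div_iff₀ hM]
  exact h8

/-- Parseval with an exceptional small set -/
theorem card_mul_card_le (S Y : Finset (ZMod M)) (τ : ℝ) (hτ : 20 * τ ≤ 1)
    (h : ∀ y ∈ Y, ∑ a ∈ S, nd (a * y) ^ 2 ≤ τ * S.card) :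
    (1 - 20 * τ) ^ 2 * (S.card * Y.card) ≤ M := by
  classical
  have hM := M_pos (M := M)
  set F : ZMod M → ℂ := fun a => ∑ y ∈ Y, ch (a * y) with hF
  -- Parseval
  have hpar : ∑ a : ZMod M, ‖F a‖ ^ 2 = M * Y.card := by
    have h1 : ∀ a : ZMod M, ((‖F a‖ ^ 2 : ℝ) : ℂ) = ∑ y ∈ Y, ∑ z ∈ Y, ch (a * (y - z)) := by
      intro a
      have h2 : ((‖F a‖ ^ 2 : ℝ) : ℂ) = F a * (starRingEnd ℂ) (F a) := by
        rw [Complex.mul_conj, Complex.normSq_eq_norm_sq]
      rw [h2, hF]
      simp only [map_sum]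
      rw [Finset.sum_mul_sum]
      refine Finset.sum_congr rfl fun y _ => Finset.sum_congr rfl fun z _ => ?_
      have h3 : (starRingEnd ℂ) (ch (a * z)) = ch (-(a * z)) := by
        rw [ch, ch, AddChar.map_neg_eq_conj]
      rw [h3, ← ch_add]
      congr 1
      ring
    have h4 : ((∑ a : ZMod M, ‖F a‖ ^ 2 : ℝ) : ℂ) = ((M * Y.card : ℝ) : ℂ) := by
      push_cast
      have h5 : ∀ a : ZMod M, ((‖F a‖ : ℂ)) ^ 2 = ∑ y ∈ Y, ∑ z ∈ Y, ch (a * (y - z)) := by
        intro a
        rw [← h1 a]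
        push_cast
        rfl
      simp only [h5]
      rw [Finset.sum_comm]
      have h6 : ∀ y ∈ Y, ∑ a : ZMod M, ∑ z ∈ Y, ch (a * (y - z)) = M := by
        intro y hy
        rw [Finset.sum_comm]
        have h7 : ∀ z ∈ Y, ∑ a : ZMod M, ch (a * (y - z)) = if z = y then (M : ℂ) else 0 := by
          intro z _
          rw [sum_ch]
          by_cases hzy : z = y
          · simp [hzy]
          · rw [if_neg hzy, if_neg (fun h => hzy (sub_eq_zero.1 h).symm)]
        rw [Finset.sum_congr rfl h7, Finset.sum_ite_eq' , if_pos hy]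
      rw [Finset.sum_congr rfl h6, Finset.sum_const, nsmul_eq_mul, mul_comm]
    exact_mod_cast h4
  -- lower bound
  have hlow : (1 - 20 * τ) * (S.card * Y.card) ≤ ∑ a ∈ S, (F a).re := by
    have h1 : ∑ a ∈ S, (F a).re = ∑ y ∈ Y, ∑ a ∈ S, (ch (a * y)).re := by
      rw [Finset.sum_comm]
      refine Finset.sum_congr rfl fun a _ => ?_
      rw [hF]
      simp only [Complex.re_sum]
    rw [h1]
    calc (1 - 20 * τ) * (S.card * Y.card) = ∑ _y ∈ Y, (1 - 20 * τ) * S.card := by
          rw [Finset.sum_const, nsmul_eq_mul]; ring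
      _ ≤ ∑ y ∈ Y, ∑ a ∈ S, (ch (a * y)).re := by
          refine Finset.sum_le_sum fun y hy => ?_
          calc (1 - 20 * τ) * S.card = S.card - 20 * (τ * S.card) := by ring
            _ ≤ S.card - 20 * ∑ a ∈ S, nd (a * y) ^ 2 := by linarith [h y hy]
            _ = ∑ a ∈ S, (1 - 20 * nd (a * y) ^ 2) := by
              rw [Finset.sum_sub_distrib, ← Finset.mul_sum, Finset.sum_const, nsmul_eq_mul, mul_one]
            _ ≤ _ := Finset.sum_le_sum fun a _ => ch_re_ge _
  have hup : (∑ a ∈ S, (F a).re) ^ 2 ≤ S.card * (M * Y.card) := by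
    calc (∑ a ∈ S, (F a).re) ^ 2 ≤ S.card * ∑ a ∈ S, (F a).re ^ 2 := sq_sum_le_card_mul_sum_sq
      _ ≤ S.card * ∑ a ∈ S, ‖F a‖ ^ 2 := by
          refine mul_le_mul_of_nonneg_left (Finset.sum_le_sum fun a _ => ?_) (Nat.cast_nonneg _)
          have := Complex.abs_re_le_norm (F a)
          calc (F a).re ^ 2 = |(F a).re| ^ 2 := (sq_abs _).symm
            _ ≤ _ := by gcongr
      _ ≤ S.card * ∑ a : ZMod M, ‖F a‖ ^ 2 := by
          refine mul_le_mul_of_nonneg_left ?_ (Nat.cast_nonneg _)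
          exact Finset.sum_le_sum_of_subset_of_nonneg (Finset.subset_univ _) (fun _ _ _ => by positivity)
      _ = _ := by rw [hpar]
  have h0 : 0 ≤ (1 - 20 * τ) * ((S.card : ℝ) * Y.card) := mul_nonneg (by linarith) (by positivity)
  have h1 : ((1 - 20 * τ) * ((S.card : ℝ) * Y.card)) ^ 2 ≤ S.card * (M * Y.card) :=
    (pow_le_pow_left₀ h0 hlow 2).trans hup
  rcases Nat.eq_zero_or_pos (S.card * Y.card) with h2 | h2
  · have h3 : ((S.card : ℝ) * Y.card) = 0 := by exact_mod_cast h2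
    rw [h3, mul_zero]
    exact hM.le
  · have h3 : (0 : ℝ) < (S.card : ℝ) * Y.card := by exact_mod_cast h2
    have h4 : (1 - 20 * τ) ^ 2 * (S.card * Y.card) * ((S.card : ℝ) * Y.card) ≤ M * ((S.card : ℝ) * Y.card) := by
      nlinarith
    exact le_of_mul_le_mul_right h4 h3

end

end Pool.Agent.Lib.SymNC
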