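import Pool.Agent.Lib.SymNC.SpCount

/-!
# The spread theorem: first moment over kernel vectors modulo any modulus `M`, `log M ≤ n^(1/4)`

`spread`: for every family `X` of vectors modulo `M`, the proportion of the graphs `G` on `Fin n` with
`A_G x = 0` for an `x ∈ X` which has more than `n^(2/3)` coordinates nonzero modulo every prime
divisor of `M`, is at most `|X| (2/M)^n 2^(ε n) + 2^(-2n)`.
-/

set_option autoImplicit false

open scoped Classical

namespace Pool.Agent.Lib.SymNC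

open Finset Matrix Pool.Agent.Lib.ThmG

noncomputable section

theorem union_bound {Ω ι : Type*} [Finite Ω] (X : Finset ι) (Q : ι → Ω → Prop) :
    Nat.card {G : Ω // ∃ x ∈ X, Q x G} ≤ ∑ x ∈ X, Nat.card {G : Ω // Q x G} := by
  have h0 : Nat.card {G : Ω // ∃ x ∈ X, Q x G} ≤ Nat.card (Σ x : X, {G : Ω // Q x G}) := by
    refine Nat.card_le_card_of_injective
      (fun G => ⟨⟨G.2.choose, G.2.choose_spec.1⟩, ⟨G.1, G.2.choose_spec.2⟩⟩) ?_
    intro G G' h
    have h5 : ∀ z z' : (Σ x : X, {G : Ω // Q x G}), z = z' → z.2.1 = z'.2.1 := by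
      rintro z z' rfl; rfl
    exact Subtype.ext (h5 _ _ h)
  rw [Nat.card_sigma] at h0
  exact h0.trans_eq (Finset.sum_coe_sort X (fun x => Nat.card {G : Ω // Q x G}))

variable {M : ℕ}

/-- more than `q` coordinates are nonzero modulo every prime divisor of `M` -/
def Wide {n : ℕ} (q : ℝ) (x : Fin n → ZMod M) : Prop :=
  ∀ p : ℕ, p.Prime → p ∣ M → q < ((Finset.univ.filter fun j => ¬ p ∣ (x j).val).card : ℝ)

theorem spread_core (n : ℕ) [NeZero M] (hn : 1 ≤ n) (s L : ℕ) (hs1 : 1 ≤ s) (hL1 : 1 ≤ L)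
    (T q : ℝ) (hT0 : 0 ≤ T) (hT : (M : ℝ) * Real.exp (-(4 / s * T)) ≤ 1)
    (hL : (M : ℝ) * Real.exp (-(L / 80 : ℝ)) ≤ 1) (hq : 20 * (4 ^ 14 * T) ≤ q)
    (X : Finset (Fin n → ZMod M)) :
    (Nat.card {G : SimpleGraph (Fin n) // ∃ x ∈ X, (G.adjMatrix (ZMod M)) *ᵥ x = 0 ∧ Wide q x} : ℝ) ≤
      (X.card * (2 / M) ^ (n - ((n - 1) / s + 1)) +
        (M : ℝ) ^ (1 + L + ⌊320 * (4 ^ 14 * T)⌋₊ + ((n - 1) / s + 1)) * (1 / 16) ^ n) *
        Nat.card (SimpleGraph (Fin n)) := by
  have hM := M_pos (M := M)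
  have hM1 : (1 : ℝ) ≤ M := by
    have := NeZero.pos M
    exact_mod_cast this
  set N := (n - 1) / s + 1 with hN
  have hNn : N ≤ n := by
    have := Nat.div_le_self (n - 1) s
    omega
  set t := ⌊320 * (4 ^ 14 * T)⌋₊ with ht
  set g : ℝ := ((Nat.card (SimpleGraph (Fin n)) : ℕ) : ℝ) with hg
  have hg0 : 0 ≤ g := Nat.cast_nonneg _
  set E : (Fin n → ZMod M) → ℝ := fun x => Nat.card {G : SimpleGraph (Fin n) // (G.adjMatrix (ZMod M)) *ᵥ x = 0} with hE
  have hE0 : ∀ x, 0 ≤ E x := fun x => Nat.cast_nonneg _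
  have hEb : ∀ x, E x ≤ (((ST x T).card + 1) / M) ^ (n - N) * g := fun x => kernel_bound n hn x s hs1 T hT
  -- union bound
  have h1 : (Nat.card {G : SimpleGraph (Fin n) // ∃ x ∈ X, (G.adjMatrix (ZMod M)) *ᵥ x = 0 ∧ Wide q x} : ℝ) ≤
      ∑ x ∈ X.filter (fun x => Wide q x), E x := by
    have h2 : Nat.card {G : SimpleGraph (Fin n) // ∃ x ∈ X, (G.adjMatrix (ZMod M)) *ᵥ x = 0 ∧ Wide q x} =
        Nat.card {G : SimpleGraph (Fin n) // ∃ x ∈ X.filter (fun x => Wide q x), (G.adjMatrix (ZMod M)) *ᵥ x = 0} := by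
      refine Nat.card_congr (Equiv.subtypeEquivRight fun G => ?_)
      constructor
      · rintro ⟨x, hx, h3, h4⟩
        exact ⟨x, Finset.mem_filter.2 ⟨hx, h4⟩, h3⟩
      · rintro ⟨x, hx, h3⟩
        exact ⟨x, (Finset.mem_filter.1 hx).1, h3, (Finset.mem_filter.1 hx).2⟩
    rw [h2]
    have h5 := union_bound (X.filter (fun x => Wide q x))
      (fun x (G : SimpleGraph (Fin n)) => (G.adjMatrix (ZMod M)) *ᵥ x = 0)
    have h6 : ∑ x ∈ X.filter (fun x => Wide q x), E x = ((∑ x ∈ X.filter (fun x => Wide q x),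
        Nat.card {G : SimpleGraph (Fin n) // (G.adjMatrix (ZMod M)) *ᵥ x = 0} : ℕ) : ℝ) := by
      rw [hE]; push_cast; rfl
    rw [h6]
    exact Nat.cast_le.2 h5
  refine h1.trans ?_
  rw [← Finset.sum_filter_add_sum_filter_not (X.filter (fun x => Wide q x)) (fun x => (ST x T).card ≤ 1)]
  rw [add_mul]
  refine add_le_add ?_ ?_
  · calc ∑ x ∈ (X.filter (fun x => Wide q x)).filter (fun x => (ST x T).card ≤ 1), E x
        ≤ ∑ _x ∈ (X.filter (fun x => Wide q x)).filter (fun x => (ST x T).card ≤ 1), (2 / (M : ℝ)) ^ (n - N) * g := by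
          refine Finset.sum_le_sum fun x hx => (hEb x).trans ?_
          refine mul_le_mul_of_nonneg_right ?_ hg0
          refine pow_le_pow_left₀ (by positivity) ?_ _
          refine div_le_div_of_nonneg_right ?_ hM.le
          have h3 : ((ST x T).card : ℝ) ≤ 1 := by exact_mod_cast (Finset.mem_filter.1 hx).2
          linarith
      _ ≤ ∑ _x ∈ X, (2 / (M : ℝ)) ^ (n - N) * g :=
          Finset.sum_le_sum_of_subset_of_nonneg
            ((Finset.filter_subset _ _).trans (Finset.filter_subset _ _)) fun _ _ _ => by positivity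
      _ = _ := by rw [Finset.sum_const, nsmul_eq_mul]; ring
  · -- the part with a nontrivial spectrum
    have hterm : ∀ σ ∈ Finset.Icc 2 M, ∑ x ∈ (Finset.univ.filter fun x : Fin n → ZMod M => (ST x T).card = σ ∧ Wide q x), E x
        ≤ (M : ℝ) ^ (L + t + N) * (1 / 16) ^ n * g := by
      intro σ hσ
      obtain ⟨hσ2, hσM⟩ := Finset.mem_Icc.1 hσ
      have hσ0 : (0 : ℝ) < σ := by
        have : 0 < σ := by omega
        exact_mod_cast this
      have hσ1 : (1 : ℝ) ≤ σ := by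
        have : 1 ≤ σ := by omega
        exact_mod_cast this
      have hsub : (Finset.univ.filter fun x : Fin n → ZMod M => (ST x T).card = σ ∧ Wide q x) ⊆
          Finset.univ.filter fun x : Fin n → ZMod M => (3 / 2 : ℝ) ^ 14 * σ ≤ (ST x (4 ^ 14 * T)).card := by
        intro x hx
        obtain ⟨hx1, hx2⟩ := (Finset.mem_filter.1 hx).2
        refine Finset.mem_filter.2 ⟨Finset.mem_univ _, ?_⟩
        rcases doubling_alt x 14 T hT0 (ST x T) (le_refl _) (zero_mem_ST hT0) (by omega) with ⟨p, hp, hpM, hc⟩ | h3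
        · exact absurd (hx2 p hp hpM) (not_lt.2 (hc.trans hq))
        · rw [hx1] at h3
          exact h3
      have hcount : ((Finset.univ.filter fun x : Fin n → ZMod M => (ST x T).card = σ ∧ Wide q x).card : ℝ) ≤
          (M : ℝ) ^ L * 2 ^ n * (M : ℝ) ^ t * (3 * M / ((3 / 2 : ℝ) ^ 14 * σ)) ^ n := by
        by_cases hbig : (3 / 2 : ℝ) ^ 14 * σ ≤ M
        · refine le_trans (Nat.cast_le.2 (Finset.card_le_card hsub)) ?_
          exact count_spectrum n L hL1 hL (4 ^ 14 * T) ((3 / 2 : ℝ) ^ 14 * σ) (by positivity) (by positivity) hbig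
        · have h3 : (Finset.univ.filter fun x : Fin n → ZMod M => (ST x T).card = σ ∧ Wide q x) = ∅ := by
            rw [Finset.eq_empty_iff_forall_notMem]
            intro x hx
            have h4 := (Finset.mem_filter.1 (hsub hx)).2
            have h5 : ((ST x (4 ^ 14 * T)).card : ℝ) ≤ M := by
              have := Finset.card_le_univ (ST x (4 ^ 14 * T))
              rw [ZMod.card] at this
              exact_mod_cast this
            exact hbig (h4.trans h5)
          rw [h3, Finset.card_empty, Nat.cast_zero]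
          positivity
      calc ∑ x ∈ (Finset.univ.filter fun x : Fin n → ZMod M => (ST x T).card = σ ∧ Wide q x), E x
          ≤ ∑ _x ∈ (Finset.univ.filter fun x : Fin n → ZMod M => (ST x T).card = σ ∧ Wide q x),
              (2 * (σ : ℝ) / M) ^ (n - N) * g := by
            refine Finset.sum_le_sum fun x hx => (hEb x).trans ?_
            refine mul_le_mul_of_nonneg_right ?_ hg0
            refine pow_le_pow_left₀ (by positivity) ?_ _
            refine div_le_div_of_nonneg_right ?_ hM.le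
            rw [(Finset.mem_filter.1 hx).2.1]
            linarith
        _ = ((Finset.univ.filter fun x : Fin n → ZMod M => (ST x T).card = σ ∧ Wide q x).card : ℝ) *
              ((2 * (σ : ℝ) / M) ^ (n - N) * g) := by rw [Finset.sum_const, nsmul_eq_mul]
        _ ≤ ((M : ℝ) ^ L * 2 ^ n * (M : ℝ) ^ t * (3 * M / ((3 / 2 : ℝ) ^ 14 * σ)) ^ n) *
              ((2 * (σ : ℝ) / M) ^ (n - N) * g) := mul_le_mul_of_nonneg_right hcount (by positivity)
        _ ≤ _ := by
            have h6 : (3 * M / ((3 / 2 : ℝ) ^ 14 * σ)) ^ n * (2 * (σ : ℝ) / M) ^ (n - N) ≤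
                (M : ℝ) ^ N * (6 * (2 / 3) ^ 14) ^ n := by
              obtain ⟨k, hk⟩ := Nat.exists_eq_add_of_le hNn
              have hk' : n - N = k := by omega
              rw [hk', hk, pow_add]
              have e1 : (3 * M / ((3 / 2 : ℝ) ^ 14 * σ)) = (3 * (2 / 3) ^ 14) * (M / σ) := by
                have : (2 / 3 : ℝ) ^ 14 = ((3 / 2 : ℝ) ^ 14)⁻¹ := by rw [← inv_pow]; norm_num
                rw [this]
                field_simp
              have e2 : (3 * (M : ℝ) / ((3 / 2 : ℝ) ^ 14 * σ)) * (2 * (σ : ℝ) / M) = 6 * (2 / 3) ^ 14 := by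
                rw [e1]
                field_simp
                ring
              calc (3 * (M : ℝ) / ((3 / 2 : ℝ) ^ 14 * σ)) ^ N * (3 * M / ((3 / 2 : ℝ) ^ 14 * σ)) ^ k * (2 * (σ : ℝ) / M) ^ k
                  = (3 * (M : ℝ) / ((3 / 2 : ℝ) ^ 14 * σ)) ^ N * (6 * (2 / 3) ^ 14) ^ k := by
                    rw [mul_assoc, ← mul_pow, e2]
                _ ≤ ((M : ℝ) * (6 * (2 / 3) ^ 14)) ^ N * (6 * (2 / 3) ^ 14) ^ k := by
                    refine mul_le_mul_of_nonneg_right ?_ (by positivity)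
                    refine pow_le_pow_left₀ (by positivity) ?_ _
                    rw [e1]
                    have e3 : (M : ℝ) / σ ≤ M := div_le_self hM.le hσ1
                    have e4 : (0 : ℝ) < (2 / 3) ^ 14 := by positivity
                    nlinarith
                _ = _ := by rw [mul_pow]; ring
            calc ((M : ℝ) ^ L * 2 ^ n * (M : ℝ) ^ t * (3 * M / ((3 / 2 : ℝ) ^ 14 * σ)) ^ n) *
                  ((2 * (σ : ℝ) / M) ^ (n - N) * g)
                = ((M : ℝ) ^ L * 2 ^ n * (M : ℝ) ^ t * g) *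
                    ((3 * M / ((3 / 2 : ℝ) ^ 14 * σ)) ^ n * (2 * (σ : ℝ) / M) ^ (n - N)) := by ring
              _ ≤ ((M : ℝ) ^ L * 2 ^ n * (M : ℝ) ^ t * g) * ((M : ℝ) ^ N * (6 * (2 / 3) ^ 14) ^ n) :=
                  mul_le_mul_of_nonneg_left h6 (by positivity)
              _ = ((M : ℝ) ^ (L + t + N)) * (12 * (2 / 3) ^ 14) ^ n * g := by
                  have e5 : (12 * (2 / 3 : ℝ) ^ 14) ^ n = 2 ^ n * (6 * (2 / 3) ^ 14) ^ n := by
                    rw [← mul_pow]; congr 1; ring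
                  rw [pow_add, pow_add, e5]; ring
              _ ≤ _ := by
                  refine mul_le_mul_of_nonneg_right ?_ hg0
                  refine mul_le_mul_of_nonneg_left ?_ (by positivity)
                  refine pow_le_pow_left₀ (by positivity) (by norm_num) _
    have hcover : ∑ x ∈ (X.filter (fun x => Wide q x)).filter (fun x => ¬ (ST x T).card ≤ 1), E x ≤
        ∑ σ ∈ Finset.Icc 2 M, ∑ x ∈ (Finset.univ.filter fun x : Fin n → ZMod M => (ST x T).card = σ ∧ Wide q x), E x := by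
      have hle : (X.filter (fun x => Wide q x)).filter (fun x => ¬ (ST x T).card ≤ 1) ⊆
          (Finset.univ.filter fun x : Fin n → ZMod M => (ST x T).card ∈ Finset.Icc 2 M ∧ Wide q x) := by
        intro x hx
        obtain ⟨hx1, hx2⟩ := Finset.mem_filter.1 hx
        refine Finset.mem_filter.2 ⟨Finset.mem_univ _, ?_, (Finset.mem_filter.1 hx1).2⟩
        rw [Finset.mem_Icc]
        have := Finset.card_le_univ (ST x T)
        rw [ZMod.card] at this
        omega
      refine (Finset.sum_le_sum_of_subset_of_nonneg hle fun _ _ _ => hE0 _).trans ?_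
      rw [← Finset.sum_fiberwise_of_maps_to (s := Finset.univ.filter fun x : Fin n → ZMod M =>
        (ST x T).card ∈ Finset.Icc 2 M ∧ Wide q x) (t := Finset.Icc 2 M) (g := fun x => (ST x T).card)
        (fun x hx => (Finset.mem_filter.1 hx).2.1)]
      refine Finset.sum_le_sum fun σ hσ => ?_
      refine Finset.sum_le_sum_of_subset_of_nonneg ?_ fun _ _ _ => hE0 _
      intro x hx
      obtain ⟨hx1, hx2⟩ := Finset.mem_filter.1 hx
      exact Finset.mem_filter.2 ⟨Finset.mem_univ _, hx2, (Finset.mem_filter.1 hx1).2.2⟩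
    calc _ ≤ _ := hcover
      _ ≤ ∑ _σ ∈ Finset.Icc 2 M, (M : ℝ) ^ (L + t + N) * (1 / 16) ^ n * g := Finset.sum_le_sum hterm
      _ = (Finset.Icc 2 M).card * ((M : ℝ) ^ (L + t + N) * (1 / 16) ^ n * g) := by
          rw [Finset.sum_const, nsmul_eq_mul]
      _ ≤ M * ((M : ℝ) ^ (L + t + N) * (1 / 16) ^ n * g) := by
          refine mul_le_mul_of_nonneg_right ?_ (by positivity)
          have : (Finset.Icc 2 M).card ≤ M := by rw [Nat.card_Icc]; omega
          exact_mod_cast this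
      _ = _ := by
          have e : 1 + L + t + N = 1 + (L + t + N) := by ring
          rw [e, pow_add _ 1, pow_one]
          ring

/-- the spread theorem -/
theorem spread (ε : ℝ) (hε : 0 < ε) : ∃ n0 : ℕ, ∀ n ≥ n0, ∀ M : ℕ, 2 ≤ M →
    Real.log M ≤ (n : ℝ) ^ (1 / 4 : ℝ) → ∀ X : Finset (Fin n → ZMod M),
    (Nat.card {G : SimpleGraph (Fin n) // ∃ x ∈ X, (G.adjMatrix (ZMod M)) *ᵥ x = 0 ∧
        Wide ((n : ℝ) ^ (2 / 3 : ℝ)) x} : ℝ) ≤
      (X.card * (2 / M) ^ n * 2 ^ (ε * n) + (1 / 4) ^ n) * Nat.card (SimpleGraph (Fin n)) := by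
  set K : ℝ := 4 / ε + 4 with hK
  have hK4 : 4 ≤ K := by rw [hK]; have := div_pos (show (0 : ℝ) < 4 by norm_num) hε; linarith
  have hKε : 4 / ε ≤ K := by rw [hK]; linarith
  set C : ℝ := 320 * 4 ^ 13 * (K + 2) with hC
  have hC0 : 0 < C := by positivity
  set W : ℝ := 4 * (84 + C) + 4 / ε with hW
  have hWε : 0 < 4 / ε := by positivity
  refine ⟨⌈W ^ 12⌉₊ + 1, fun n hn M hM hlog X => ?_⟩
  haveI : NeZero M := ⟨by omega⟩
  have hn1 : 1 ≤ n := by omega
  have hn0 : (0 : ℝ) < n := by exact_mod_cast hn1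
  have hM2 : (2 : ℝ) ≤ M := by exact_mod_cast hM
  have hMpos : (0 : ℝ) < M := by linarith
  -- the variable `w = n^(1/12)`
  set w : ℝ := (n : ℝ) ^ (1 / 12 : ℝ) with hw
  have hw0 : 0 < w := by rw [hw]; positivity
  have hw12 : w ^ 12 = n := by
    rw [hw, ← Real.rpow_natCast, ← Real.rpow_mul hn0.le]; norm_num
  have hw3 : (n : ℝ) ^ (1 / 4 : ℝ) = w ^ 3 := by
    rw [hw, ← Real.rpow_natCast, ← Real.rpow_mul hn0.le]; norm_num
  have hw8 : (n : ℝ) ^ (2 / 3 : ℝ) = w ^ 8 := by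
    rw [hw, ← Real.rpow_natCast, ← Real.rpow_mul hn0.le]; norm_num
  have hWw : W ≤ w := by
    have h1 : W ^ 12 ≤ w ^ 12 := by
      rw [hw12]
      calc W ^ 12 ≤ (⌈W ^ 12⌉₊ : ℝ) := Nat.le_ceil _
        _ ≤ n := by exact_mod_cast (by omega : ⌈W ^ 12⌉₊ ≤ n)
    exact le_of_pow_le_pow_left₀ (by norm_num) hw0.le h1
  have hW1 : 1 ≤ W := by rw [hW]; nlinarith
  have hw1 : 1 ≤ w := hW1.trans hWw
  rw [hw3] at hlog
  rw [hw8]
  set ℓ := Real.log M with hℓ
  have hℓhalf : 1 / 2 ≤ ℓ := by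
    have h1 : Real.log 2 ≤ ℓ := Real.log_le_log (by norm_num) hM2
    have := Real.log_two_gt_d9
    linarith
  have hℓ0 : 0 < ℓ := by linarith
  have hexpℓ : Real.exp ℓ = M := Real.exp_log hMpos
  set s : ℕ := ⌈K * ℓ⌉₊ with hs
  have hsK : K * ℓ ≤ s := Nat.le_ceil _
  have hsu : (s : ℝ) ≤ (K + 2) * ℓ := by
    have h1 := Nat.ceil_lt_add_one (show 0 ≤ K * ℓ by positivity)
    rw [← hs] at h1
    nlinarith
  have hs0 : (0 : ℝ) < s := lt_of_lt_of_le (by positivity) hsK
  have hs1 : 1 ≤ s := by exact_mod_cast hs0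
  set L : ℕ := ⌈80 * ℓ⌉₊ with hL
  have hLl : 80 * ℓ ≤ L := Nat.le_ceil _
  have hLu : (L : ℝ) ≤ 82 * ℓ := by
    have h1 := Nat.ceil_lt_add_one (show 0 ≤ 80 * ℓ by positivity)
    rw [← hL] at h1
    linarith
  have hL1 : 1 ≤ L := by
    have : (0 : ℝ) < L := lt_of_lt_of_le (by positivity) hLl
    exact_mod_cast this
  set T : ℝ := s * ℓ / 4 with hT
  have hT0 : 0 ≤ T := by positivity
  have hTu : 4 ^ 14 * T ≤ 4 ^ 13 * (K + 2) * ℓ ^ 2 := by
    rw [hT]
    have : (s : ℝ) * ℓ ≤ (K + 2) * ℓ * ℓ := mul_le_mul_of_nonneg_right hsu hℓ0.le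
    nlinarith
  have hℓw : ℓ ≤ w ^ 3 := hlog
  have hℓ2 : ℓ ^ 2 ≤ w ^ 6 := by
    calc ℓ ^ 2 ≤ (w ^ 3) ^ 2 := pow_le_pow_left₀ hℓ0.le hℓw 2
      _ = w ^ 6 := by ring
  have hℓ3 : ℓ ^ 3 ≤ w ^ 9 := by
    calc ℓ ^ 3 ≤ (w ^ 3) ^ 3 := pow_le_pow_left₀ hℓ0.le hℓw 3
      _ = w ^ 9 := by ring
  have hcore := spread_core n hn1 s L hs1 hL1 T (w ^ 8) hT0 ?_ ?_ ?_ X
  rotate_left
  · have h1 : 4 / (s : ℝ) * T = ℓ := by rw [hT]; field_simp
    rw [h1, Real.exp_neg, hexpℓ, mul_inv_cancel₀ hMpos.ne']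
  · have h1 : Real.exp (-(L / 80 : ℝ)) ≤ Real.exp (-ℓ) := Real.exp_le_exp.2 (by linarith)
    calc (M : ℝ) * Real.exp (-(L / 80 : ℝ)) ≤ M * Real.exp (-ℓ) := mul_le_mul_of_nonneg_left h1 hMpos.le
      _ = 1 := by rw [Real.exp_neg, hexpℓ, mul_inv_cancel₀ hMpos.ne']
  · calc 20 * (4 ^ 14 * T) ≤ 20 * (4 ^ 13 * (K + 2) * ℓ ^ 2) := by linarith
      _ ≤ 20 * (4 ^ 13 * (K + 2) * w ^ 6) := by
          refine mul_le_mul_of_nonneg_left (mul_le_mul_of_nonneg_left hℓ2 (by positivity)) (by norm_num)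
      _ ≤ C * w ^ 6 := by
          rw [hC]
          have : 0 ≤ 4 ^ 13 * (K + 2) * w ^ 6 := by positivity
          nlinarith
      _ ≤ w ^ 2 * w ^ 6 := by
          refine mul_le_mul_of_nonneg_right ?_ (by positivity)
          have h1 : C ≤ W := by rw [hW]; linarith
          nlinarith
      _ = w ^ 8 := by ring
  refine hcore.trans (mul_le_mul_of_nonneg_right ?_ (Nat.cast_nonneg _))
  -- the exponent `N`
  set N := (n - 1) / s + 1 with hN
  have hNn : N ≤ n := by
    have := Nat.div_le_self (n - 1) s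
    omega
  have hNu : (N : ℝ) * ℓ ≤ n / K + ℓ := by
    have h1 : (((n - 1) / s : ℕ) : ℝ) ≤ n / s := by
      calc (((n - 1) / s : ℕ) : ℝ) ≤ ((n - 1 : ℕ) : ℝ) / s := Nat.cast_div_le
        _ ≤ n / s := div_le_div_of_nonneg_right (by exact_mod_cast Nat.sub_le n 1) hs0.le
    have h2 : (n : ℝ) / s * ℓ ≤ n / K := by
      rw [div_mul_eq_mul_div, div_le_div_iff₀ hs0 (by linarith)]
      nlinarith
    have h3 : (N : ℝ) = (((n - 1) / s : ℕ) : ℝ) + 1 := by rw [hN]; push_cast; ring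
    rw [h3]
    nlinarith
  have hpowM : ∀ k : ℕ, (M : ℝ) ^ k = Real.exp (k * ℓ) := by
    intro k
    rw [Real.exp_nat_mul, hexpℓ]
  have hexphalf : Real.exp (1 / 2) ≤ 2 := by
    have h1 : Real.exp (1 / 2) ^ 2 = Real.exp 1 := by
      rw [← Real.exp_nat_mul]; norm_num
    have h2 := Real.exp_one_lt_d9
    have h3 := Real.exp_pos (1 / 2)
    nlinarith
  refine add_le_add ?_ ?_
  · -- first term
    have h1 : (2 / (M : ℝ)) ^ (n - N) ≤ (2 / M) ^ n * 2 ^ (ε * n) := by
      obtain ⟨k, hk⟩ := Nat.exists_eq_add_of_le hNn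
      have hk' : n - N = k := by omega
      rw [hk']
      have h2 : (M : ℝ) ^ N ≤ 2 ^ (ε * n) := by
        rw [hpowM]
        have h3 : (N : ℝ) * ℓ ≤ 1 / 2 * (ε * n) := by
          have h4 : (n : ℝ) / K ≤ ε * n / 4 := by
            rw [div_le_div_iff₀ (by linarith) (by norm_num)]
            have h5 : 4 ≤ ε * K := by
              rw [div_le_iff₀ hε] at hKε
              linarith
            nlinarith
          have h6 : ℓ ≤ ε * n / 4 := by
            have h7 : 4 / ε ≤ w ^ 9 := by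
              have h8 : 4 / ε ≤ W := by rw [hW]; nlinarith
              have h9 : w ≤ w ^ 9 := le_self_pow₀ hw1 (by norm_num)
              linarith
            rw [div_le_iff₀ hε] at h7
            have h10 : 4 * w ^ 3 ≤ ε * w ^ 12 := by
              calc 4 * w ^ 3 ≤ (w ^ 9 * ε) * w ^ 3 := mul_le_mul_of_nonneg_right h7 (by positivity)
                _ = ε * w ^ 12 := by ring
            rw [hw12] at h10
            linarith
          linarith
        calc Real.exp (N * ℓ) ≤ Real.exp (1 / 2 * (ε * n)) := Real.exp_le_exp.2 h3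
          _ = (Real.exp (1 / 2)) ^ (ε * n) := by rw [← Real.exp_mul]
          _ ≤ 2 ^ (ε * n) := Real.rpow_le_rpow (Real.exp_pos _).le hexphalf (by positivity)
      have h11 : (2 / (M : ℝ)) ^ k = (2 / M) ^ n * (M / 2) ^ N := by
        rw [hk, pow_add]
        have h12 : (2 / (M : ℝ)) ^ N * (M / 2) ^ N = 1 := by
          rw [← mul_pow]
          have : (2 / (M : ℝ)) * (M / 2) = 1 := by field_simp
          rw [this, one_pow]
        calc (2 / (M : ℝ)) ^ k = ((2 / (M : ℝ)) ^ N * (M / 2) ^ N) * (2 / M) ^ k := by rw [h12, one_mul]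
          _ = _ := by ring
      rw [h11]
      refine mul_le_mul_of_nonneg_left ?_ (by positivity)
      refine le_trans (pow_le_pow_left₀ (by positivity) ?_ N) h2
      linarith
    calc (X.card : ℝ) * (2 / M) ^ (n - N) ≤ X.card * ((2 / M) ^ n * 2 ^ (ε * n)) :=
          mul_le_mul_of_nonneg_left h1 (Nat.cast_nonneg _)
      _ = _ := by ring
  · -- second term
    set t := ⌊320 * (4 ^ 14 * T)⌋₊ with ht
    have htu : (t : ℝ) ≤ C * ℓ ^ 2 := by
      calc (t : ℝ) ≤ 320 * (4 ^ 14 * T) := Nat.floor_le (by positivity)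
        _ ≤ 320 * (4 ^ 13 * (K + 2) * ℓ ^ 2) := by linarith
        _ = C * ℓ ^ 2 := by rw [hC]; ring
    have h1 : (M : ℝ) ^ (1 + L + t + N) ≤ 2 ^ n := by
      rw [hpowM]
      have h2 : ((1 + L + t + N : ℕ) : ℝ) * ℓ ≤ 1 / 2 * n := by
        push_cast
        have h3 : (n : ℝ) / K ≤ n / 4 := div_le_div_of_nonneg_left hn0.le (by norm_num) hK4
        have h4 : (L : ℝ) * ℓ ≤ 82 * w ^ 9 := by
          calc (L : ℝ) * ℓ ≤ 82 * ℓ * ℓ := mul_le_mul_of_nonneg_right hLu hℓ0.le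
            _ = 82 * ℓ ^ 2 := by ring
            _ ≤ 82 * w ^ 6 := by linarith
            _ ≤ 82 * w ^ 9 := by
                have : w ^ 6 ≤ w ^ 9 := pow_le_pow_right₀ hw1 (by norm_num)
                linarith
        have h5 : (t : ℝ) * ℓ ≤ C * w ^ 9 := by
          calc (t : ℝ) * ℓ ≤ C * ℓ ^ 2 * ℓ := mul_le_mul_of_nonneg_right htu hℓ0.le
            _ = C * ℓ ^ 3 := by ring
            _ ≤ C * w ^ 9 := mul_le_mul_of_nonneg_left hℓ3 hC0.le
        have h6 : ℓ ≤ w ^ 9 := hℓw.trans (pow_le_pow_right₀ hw1 (by norm_num))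
        have h7 : (84 + C) * w ^ 9 ≤ n / 4 := by
          rw [← hw12]
          have h8 : 4 * (84 + C) ≤ w ^ 3 := by
            have h9 : 4 * (84 + C) ≤ W := by rw [hW]; linarith
            have h10 : w ≤ w ^ 3 := le_self_pow₀ hw1 (by norm_num)
            linarith
          have h11 : (4 * (84 + C)) * w ^ 9 ≤ w ^ 3 * w ^ 9 := mul_le_mul_of_nonneg_right h8 (by positivity)
          calc (84 + C) * w ^ 9 = ((4 * (84 + C)) * w ^ 9) / 4 := by ring
            _ ≤ (w ^ 3 * w ^ 9) / 4 := by linarith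
            _ = w ^ 12 / 4 := by ring
        nlinarith
      calc Real.exp (((1 + L + t + N : ℕ) : ℝ) * ℓ) ≤ Real.exp (1 / 2 * n) := Real.exp_le_exp.2 h2
        _ = (Real.exp (1 / 2)) ^ n := by rw [← Real.exp_nat_mul]; congr 1; ring
        _ ≤ 2 ^ n := pow_le_pow_left₀ (Real.exp_pos _).le hexphalf n
    calc (M : ℝ) ^ (1 + L + t + N) * (1 / 16) ^ n ≤ 2 ^ n * (1 / 16) ^ n :=
          mul_le_mul_of_nonneg_right h1 (by positivity)
      _ = (1 / 8) ^ n := by rw [← mul_pow]; norm_num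
      _ ≤ (1 / 4) ^ n := pow_le_pow_left₀ (by norm_num) (by norm_num) n

end

end Pool.Agent.Lib.SymNC
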